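import Mathlib

/-!
# Linear independence of products of two kinds of iterated sums (difference algebra)

`K` is a field with an endomorphism `σ`, `F` a `K`-algebra with a compatible endomorphism `τ`. We are given two families
`f P`, `h Q` of elements of `F`, indexed by lists, with `f [] = h [] = 1`,
`(τ + 1) f (p :: P) = (τ - 1) (x ^ α f P)` and `(τ - 1) h (q :: Q) = (τ + 1) (x ^ β h Q)`. Then the products `f P * h Q`
are linearly independent over `K`.
-/

set_option autoImplicit false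

namespace Pool.Agent.L7h24.TS

open Polynomial

abbrev Idx : Type := List ℕ × List ℕ

def rk (i : Idx) : ℕ := i.1.length + i.2.length

section

variable {K F : Type*} [Field K] [CommRing F] [Algebra K F]

def ep (K : Type*) [Field K] (P : List ℕ) : K := if P = [] then 1 else -1

lemma ep_nil : ep K [] = 1 := if_pos rfl

lemma ep_cons (p : ℕ) (P : List ℕ) : ep K (p :: P) = -1 := if_neg (List.cons_ne_nil _ _)

def df (σ : K →+* K) (x : K) (α : ℕ → List ℕ → ℕ) : List ℕ → K
  | [] => 0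
  | p :: P => ep K P * σ (x ^ α p P) - x ^ α p P

def dh (σ : K →+* K) (x : K) (β : ℕ → List ℕ → ℕ) : List ℕ → K
  | [] => 0
  | q :: Q => σ (x ^ β q Q) + x ^ β q Q

/-- span of the members of length `< n` -/
def Sp (K : Type*) {F : Type*} [Field K] [CommRing F] [Algebra K F] (f : List ℕ → F) (n : ℕ) : Submodule K F :=
  Submodule.span K (f '' {P | P.length < n})

def Vs (K : Type*) {F : Type*} [Field K] [CommRing F] [Algebra K F] (f h : List ℕ → F) (n : ℕ) : Submodule K F :=
  Submodule.span K ((fun i : Idx => f i.1 * h i.2) '' {i | rk i < n})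

lemma sp_mem (f : List ℕ → F) {n : ℕ} {P : List ℕ} (h : P.length < n) : f P ∈ Sp K f n :=
  Submodule.subset_span ⟨P, h, rfl⟩

lemma sp_mono (f : List ℕ → F) {m n : ℕ} (h : m ≤ n) : Sp K f m ≤ Sp K f n :=
  Submodule.span_mono (Set.image_mono fun P (hP : P.length < m) => lt_of_lt_of_le hP h)

lemma vs_mem (f h : List ℕ → F) {n : ℕ} {i : Idx} (hi : rk i < n) : f i.1 * h i.2 ∈ Vs K f h n :=
  Submodule.subset_span ⟨i, hi, rfl⟩

lemma vs_mono (f h : List ℕ → F) {m n : ℕ} (hmn : m ≤ n) : Vs K f h m ≤ Vs K f h n :=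
  Submodule.span_mono (Set.image_mono fun i (hi : rk i < m) => lt_of_lt_of_le hi hmn)

lemma mul_mem_vs (f h : List ℕ → F) {a b c : ℕ} (hc : ∀ i < a, ∀ j < b, i + j < c) {l y : F}
    (hl : l ∈ Sp K f a) (hy : y ∈ Sp K h b) : l * y ∈ Vs K f h c := by
  refine Submodule.span_induction (p := fun l _ => l * y ∈ Vs K f h c) ?_ ?_ ?_ ?_ hl
  · rintro _ ⟨P, hP, rfl⟩
    refine Submodule.span_induction (p := fun y _ => f P * y ∈ Vs K f h c) ?_ ?_ ?_ ?_ hy
    · rintro _ ⟨Q, hQ, rfl⟩
      exact vs_mem f h (i := (P, Q)) (hc _ hP _ hQ)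
    · simp
    · intro u v _ _ hu hv
      rw [mul_add]
      exact add_mem hu hv
    · intro a u _ hu
      rw [mul_smul_comm]
      exact Submodule.smul_mem _ _ hu
  · simp
  · intro u v _ _ hu hv
    rw [add_mul]
    exact add_mem hu hv
  · intro a u _ hu
    rw [smul_mul_assoc]
    exact Submodule.smul_mem _ _ hu

variable (σ : K →+* K) (τ : F →+* F) (hστ : ∀ (c : K) (y : F), τ (c • y) = σ c • τ y)
variable (x : K) (f h : List ℕ → F) (α β : ℕ → List ℕ → ℕ) (f0 : f [] = 1) (h0 : h [] = 1)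
variable (f1 : ∀ p P, τ (f (p :: P)) = - f (p :: P) + τ ((x ^ α p P) • f P) - (x ^ α p P) • f P)
variable (h1 : ∀ q Q, τ (h (q :: Q)) = h (q :: Q) + τ ((x ^ β q Q) • h Q) + (x ^ β q Q) • h Q)

include hστ f0 f1 in
lemma lf (P : List ℕ) : ∃ l ∈ Sp K f (P.length - 1), τ (f P) = ep K P • f P + df σ x α P • f P.tail + l := by
  induction P with
  | nil => exact ⟨0, zero_mem _, by simp [ep, df, f0]⟩
  | cons p P ih =>
    obtain ⟨l', hl', h'⟩ := ih
    refine ⟨σ (x ^ α p P) • (df σ x α P • f P.tail + l'), ?_, ?_⟩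
    · rw [List.length_cons, Nat.add_sub_cancel]
      refine Submodule.smul_mem _ _ (add_mem ?_ (sp_mono f (Nat.sub_le _ _) hl'))
      cases P with
      | nil => simp [df]
      | cons p' P' => exact Submodule.smul_mem _ _ (sp_mem f (by simp))
    · rw [f1, hστ, h', ep_cons, List.tail_cons, df]
      simp only [Algebra.smul_def, map_mul, map_sub, map_neg, map_one]
      ring

include hστ h0 h1 in
lemma lh (Q : List ℕ) : ∃ l ∈ Sp K h (Q.length - 1), τ (h Q) = h Q + dh σ x β Q • h Q.tail + l := by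
  induction Q with
  | nil => exact ⟨0, zero_mem _, by simp [dh, h0]⟩
  | cons p P ih =>
    obtain ⟨l', hl', h'⟩ := ih
    refine ⟨σ (x ^ β p P) • (dh σ x β P • h P.tail + l'), ?_, ?_⟩
    · rw [List.length_cons, Nat.add_sub_cancel]
      refine Submodule.smul_mem _ _ (add_mem ?_ (sp_mono h (Nat.sub_le _ _) hl'))
      cases P with
      | nil => simp [dh]
      | cons p' P' => exact Submodule.smul_mem _ _ (sp_mem h (by simp))
    · rw [h1, hστ, h', List.tail_cons, dh]
      simp only [Algebra.smul_def, map_add]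
      ring

include hστ f0 f1 h0 h1 in
/-- the action of `τ` on a product, to second order -/
lemma T3 (i : Idx) : ∃ l ∈ Vs K f h (rk i - 1), τ (f i.1 * h i.2) = ep K i.1 • (f i.1 * h i.2) +
    (df σ x α i.1 • (f i.1.tail * h i.2) + (ep K i.1 * dh σ x β i.2) • (f i.1 * h i.2.tail)) + l := by
  obtain ⟨P, Q⟩ := i
  obtain ⟨l, hl, e1⟩ := lf σ τ hστ x f α f0 f1 P
  obtain ⟨k, hk, e2⟩ := lh σ τ hστ x h β h0 h1 Q
  simp only
  have hA : df σ x α P • f P.tail + l ∈ Sp K f P.length := by
    refine add_mem ?_ (sp_mono f (Nat.sub_le _ _) hl)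
    cases P with
    | nil => simp [df]
    | cons p' P' => exact Submodule.smul_mem _ _ (sp_mem f (by simp))
  have hB : dh σ x β Q • h Q.tail + k ∈ Sp K h Q.length := by
    refine add_mem ?_ (sp_mono h (Nat.sub_le _ _) hk)
    cases Q with
    | nil => simp [dh]
    | cons p' P' => exact Submodule.smul_mem _ _ (sp_mem h (by simp))
  refine ⟨l * h Q + ep K P • (f P * k) + (df σ x α P • f P.tail + l) * (dh σ x β Q • h Q.tail + k),
    add_mem (add_mem ?_ (Submodule.smul_mem _ _ ?_)) ?_, ?_⟩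
  · exact mul_mem_vs f h (fun i hi j hj => by simp only [rk]; omega) hl (sp_mem (n := Q.length + 1) h (by omega))
  · exact mul_mem_vs f h (fun i hi j hj => by simp only [rk]; omega) (sp_mem (n := P.length + 1) f (by omega)) hk
  · exact mul_mem_vs f h (fun i hi j hj => by simp only [rk]; omega) hA hB
  · rw [map_mul, e1, e2]
    simp only [Algebra.smul_def, map_mul]
    ring

include hστ f0 f1 h0 h1 in
lemma T2 (i : Idx) : τ (f i.1 * h i.2) - ep K i.1 • (f i.1 * h i.2) ∈ Vs K f h (rk i) := by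
  obtain ⟨l, hl, e⟩ := T3 σ τ hστ x f h α β f0 h0 f1 h1 i
  rw [e, add_assoc, add_sub_cancel_left]
  refine add_mem (add_mem ?_ ?_) (vs_mono f h (Nat.sub_le _ _) hl)
  · rcases i with ⟨_ | ⟨p, P⟩, Q⟩
    · simp [df]
    · exact Submodule.smul_mem _ _ (vs_mem f h (i := (P, Q)) (by simp [rk]))
  · rcases i with ⟨P, _ | ⟨q, Q⟩⟩
    · simp [dh]
    · exact Submodule.smul_mem _ _ (vs_mem f h (i := (P, Q)) (by simp [rk]))

include hστ f0 f1 h0 h1 in
lemma T1 {n : ℕ} {y : F} (hy : y ∈ Vs K f h n) : τ y ∈ Vs K f h n := by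
  refine Submodule.span_induction (p := fun y _ => τ y ∈ Vs K f h n) ?_ ?_ ?_ ?_ hy
  · rintro _ ⟨i, hi, rfl⟩
    have h2 := T2 σ τ hστ x f h α β f0 h0 f1 h1 i
    have h3 := add_mem (vs_mono f h (le_of_lt hi) h2) (Submodule.smul_mem _ (ep K i.1) (vs_mem f h hi))
    rwa [sub_add_cancel] at h3
  · rw [map_zero]
    exact zero_mem _
  · intro u v _ _ hu hv
    rw [map_add]
    exact add_mem hu hv
  · intro a u _ hu
    rw [hστ]
    exact Submodule.smul_mem _ _ hu

end

end Pool.Agent.L7h24.TS
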