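import Mathlib

/-!
# The shift `z ↦ z + 1` on the rational functions
-/

set_option autoImplicit false

namespace Pool.Agent.L7h24.TS

open Polynomial

/-- the field of rational functions in `z` -/
abbrev KK : Type := RatFunc ℝ

noncomputable abbrev am : ℝ[X] →+* KK := algebraMap ℝ[X] KK

lemma am_inj : Function.Injective am := RatFunc.algebraMap_injective ℝ

/-- the shift on polynomials -/
noncomputable def sh : ℝ[X] →+* ℝ[X] := (taylorAlgHom (1 : ℝ)).toRingHom

lemma sh_apply (p : ℝ[X]) : sh p = taylor 1 p := rfl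

lemma sh_inj : Function.Injective sh := fun p q h => taylor_injective 1 (by rwa [sh_apply, sh_apply] at h)

lemma sh_eval (p : ℝ[X]) (a : ℝ) : (sh p).eval a = p.eval (a + 1) := by
  rw [sh_apply, taylor_eval]

/-- the shift on rational functions -/
noncomputable def sK : KK →+* KK :=
  IsFractionRing.lift (g := am.comp sh) (am_inj.comp sh_inj)

lemma sK_am (p : ℝ[X]) : sK (am p) = am (sh p) := by
  rw [sK, IsFractionRing.lift_algebraMap]
  rfl

lemma sK_inj : Function.Injective sK := sK.injective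

lemma sK_k (r : ℝ) : sK (algebraMap ℝ KK r) = algebraMap ℝ KK r := by
  rw [IsScalarTower.algebraMap_apply ℝ ℝ[X] KK, sK_am, sh_apply, Polynomial.algebraMap_apply, Algebra.algebraMap_self,
    RingHom.id_apply, taylor_C]

/-- a polynomial with period one is constant -/
lemma periodic {q : ℝ[X]} (h : sh q = q) : q = C (q.eval 0) := by
  refine eq_of_infinite_eval_eq _ _ ?_
  have h1 : ∀ n : ℕ, q.eval (n : ℝ) = q.eval 0 := by
    intro n
    induction n with
    | zero => simp
    | succ n ih =>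
      rw [← ih, Nat.cast_succ, ← sh_eval, h]
  refine Set.Infinite.mono (s := Set.range (fun n : ℕ => (n : ℝ))) ?_ (Set.infinite_range_of_injective Nat.cast_injective)
  rintro _ ⟨n, rfl⟩
  simp only [Set.mem_ofPred_eq, eval_C]
  exact h1 n

/-- eigenvectors of the shift are polynomials -/
lemma eigen_poly {c : KK} {ε : ℝ} (hε : ε ≠ 0) (h : sK c = algebraMap ℝ KK ε * c) :
    ∃ p : ℝ[X], c = am p ∧ sh p = C ε * p := by
  set p := c.num with hp
  set q := c.denom with hq
  have hc : am p / am q = c := RatFunc.num_div_denom c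
  have hq0 : q ≠ 0 := RatFunc.denom_ne_zero c
  have hqm : q.Monic := RatFunc.monic_denom c
  have hcop : IsCoprime p q := RatFunc.isCoprime_num_denom c
  have hamq : am q ≠ 0 := fun h => hq0 (am_inj (by rw [h, map_zero]))
  have hshq : sh q ≠ 0 := fun h => hq0 (sh_inj (by rw [h, map_zero]))
  have hamsq : am (sh q) ≠ 0 := fun h => hshq (am_inj (by rw [h, map_zero]))
  have e : algebraMap ℝ KK ε = am (C ε) := by
    rw [IsScalarTower.algebraMap_apply ℝ ℝ[X] KK, Polynomial.algebraMap_apply, Algebra.algebraMap_self, RingHom.id_apply]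
  have h1 : sh p * q = C ε * (p * sh q) := by
    apply am_inj
    rw [← hc, map_div₀, sK_am, sK_am, e, div_eq_iff hamsq, ← mul_div_assoc, div_mul_eq_mul_div, eq_div_iff hamq] at h
    rw [map_mul, map_mul, map_mul]
    linear_combination h
  have h2 : q ∣ sh q := by
    have h3 : q ∣ p * (C ε * sh q) := ⟨sh p, by linear_combination -h1⟩
    have h4 : q ∣ C ε * sh q := hcop.symm.dvd_of_dvd_mul_left h3
    obtain ⟨t, ht⟩ := h4
    refine ⟨C ε⁻¹ * t, ?_⟩
    have h5 : C ε⁻¹ * C ε = (1 : ℝ[X]) := by rw [← C_mul, inv_mul_cancel₀ hε, C_1]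
    linear_combination (C ε⁻¹) * ht - sh q * h5
  have h3 : sh q = q := by
    have hm : (sh q).Monic := by
      rw [Monic, sh_apply, leadingCoeff, natDegree_taylor, coeff_taylor_natDegree]
      exact hqm
    obtain ⟨t, ht⟩ := h2
    have h5 : (sh q).natDegree = q.natDegree := by rw [sh_apply, natDegree_taylor]
    have ht0 : t ≠ 0 := by
      rintro rfl
      exact hshq (by rw [ht, mul_zero])
    have h6 : t.natDegree = 0 := by
      have := congrArg natDegree ht
      rw [natDegree_mul hq0 ht0, h5] at this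
      omega
    have h7 : t.leadingCoeff = 1 := by
      have := congrArg leadingCoeff ht
      rw [leadingCoeff_mul, hqm.leadingCoeff, hm.leadingCoeff, one_mul] at this
      exact this.symm
    have h8 : t = 1 := by
      rw [eq_C_of_natDegree_eq_zero h6]
      rw [leadingCoeff, h6] at h7
      rw [h7, C_1]
    rw [ht, h8, mul_one]
  have h4 : q = 1 := by
    have h5 := periodic h3
    have h6 := hqm
    rw [h5, Monic, leadingCoeff_C] at h6
    rw [h5, h6, C_1]
  refine ⟨p, ?_, ?_⟩
  · rw [← hc, h4, map_one, div_one]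
  · rw [h4] at h1
    simpa using h1

lemma const1 (c : KK) (h : sK c = c) : ∃ r : ℝ, algebraMap ℝ KK r = c := by
  obtain ⟨p, hp, hp2⟩ := eigen_poly (c := c) (ε := 1) one_ne_zero (by rw [map_one, one_mul, h])
  rw [C_1, one_mul] at hp2
  refine ⟨p.eval 0, ?_⟩
  rw [hp, IsScalarTower.algebraMap_apply ℝ ℝ[X] KK, Polynomial.algebraMap_apply, Algebra.algebraMap_self,
    RingHom.id_apply, ← periodic hp2]

lemma const2 (c : KK) (h : sK c = -c) : c = 0 := by
  obtain ⟨p, hp, hp2⟩ := eigen_poly (c := c) (ε := -1) (by norm_num) (by rw [map_neg, map_one, neg_one_mul, h])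
  have h1 : p = 0 := by
    have h2 := congrArg (fun t => t.coeff p.natDegree) hp2
    simp only [sh_apply, coeff_taylor_natDegree, coeff_C_mul] at h2
    rw [coeff_natDegree] at h2
    rw [← leadingCoeff_eq_zero]
    linarith
  rw [hp, h1, map_zero]

/-- no pole at `a` -/
def Reg (a : ℝ) (c : KK) : Prop := ∃ p q : ℝ[X], q.eval a ≠ 0 ∧ c * am q = am p

lemma Reg.add {a : ℝ} {c d : KK} (hc : Reg a c) (hd : Reg a d) : Reg a (c + d) := by
  obtain ⟨p, q, h1, h2⟩ := hc
  obtain ⟨p', q', h3, h4⟩ := hd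
  refine ⟨p * q' + p' * q, q * q', by rw [eval_mul]; exact mul_ne_zero h1 h3, ?_⟩
  rw [map_add, map_mul, map_mul, map_mul, ← h2, ← h4]
  ring

lemma Reg.mul {a : ℝ} {c d : KK} (hc : Reg a c) (hd : Reg a d) : Reg a (c * d) := by
  obtain ⟨p, q, h1, h2⟩ := hc
  obtain ⟨p', q', h3, h4⟩ := hd
  refine ⟨p * p', q * q', by rw [eval_mul]; exact mul_ne_zero h1 h3, ?_⟩
  rw [map_mul, map_mul, ← h2, ← h4]
  ring

lemma Reg.am (a : ℝ) (p : ℝ[X]) : Reg a (am p) := ⟨p, 1, by simp, by rw [map_one, mul_one]⟩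

lemma Reg.neg {a : ℝ} {c : KK} (hc : Reg a c) : Reg a (-c) := by
  have := (Reg.am a (-1)).mul hc
  rwa [map_neg, map_one, neg_one_mul] at this

lemma Reg.sub {a : ℝ} {c d : KK} (hc : Reg a c) (hd : Reg a d) : Reg a (c - d) := by
  rw [sub_eq_add_neg]
  exact hc.add hd.neg

lemma Reg.shift {a : ℝ} {c : KK} (hc : Reg (a + 1) c) : Reg a (sK c) := by
  obtain ⟨p, q, h1, h2⟩ := hc
  refine ⟨sh p, sh q, by rw [sh_eval]; exact h1, ?_⟩
  rw [← sK_am, ← sK_am, ← map_mul, h2]

lemma Reg.unshift {a : ℝ} {c : KK} (hc : Reg a (sK c)) : Reg (a + 1) c := by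
  obtain ⟨p, q, h1, h2⟩ := hc
  have e : ∀ p : ℝ[X], sh (taylor (-1) p) = p := fun p => by
    rw [sh_apply, taylor_taylor, add_neg_cancel, taylor_zero]
  refine ⟨taylor (-1) p, taylor (-1) q, ?_, ?_⟩
  · rw [taylor_eval]
    simpa using h1
  · apply sK_inj
    rw [map_mul, sK_am, sK_am, e, e]
    exact h2

/-- the variable `x = 1 / z` -/
noncomputable def xK : KK := (am X)⁻¹

lemma amX_ne : am X ≠ 0 := fun h => X_ne_zero (am_inj (by rw [h, map_zero]))

lemma xK_mul : xK * am X = 1 := inv_mul_cancel₀ amX_ne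

lemma reg_x {a : ℝ} (ha : a ≠ 0) : Reg a xK := ⟨1, X, by rw [eval_X]; exact ha, by rw [xK_mul, map_one]⟩

lemma reg_aeval {a : ℝ} (ha : a ≠ 0) (ρ : ℝ[X]) : Reg a (aeval xK ρ) := by
  induction ρ using Polynomial.induction_on with
  | C r =>
    rw [aeval_C, IsScalarTower.algebraMap_apply ℝ ℝ[X] KK]
    exact Reg.am _ _
  | add p q hp hq =>
    rw [map_add]
    exact hp.add hq
  | monomial n r h =>
    rw [pow_succ, ← mul_assoc, map_mul, aeval_X]
    exact h.mul (reg_x ha)

/-- a polynomial in `1 / z` without pole at `0` is constant -/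
lemma reg_zero {ρ : ℝ[X]} (h0 : ρ.coeff 0 = 0) (h : Reg 0 (aeval xK ρ)) : ρ = 0 := by
  by_contra hne
  obtain ⟨p, q, h1, h2⟩ := h
  have hd : ρ.natDegree ≠ 0 := by
    intro hd
    rw [eq_C_of_natDegree_eq_zero hd, h0, C_0] at hne
    exact hne rfl
  have hx : xK ≠ 0 := inv_ne_zero amX_ne
  let _ : Invertible xK := invertibleOfNonzero hx
  have h3 := eval₂_reverse_mul_pow (algebraMap ℝ KK) xK ρ
  have h4 : (⅟ xK : KK) = am X := by
    rw [invOf_eq_inv, xK, inv_inv]
  have h5 : ∀ r : ℝ[X], eval₂ (algebraMap ℝ KK) (am X) r = am r := by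
    intro r
    have := aeval_algHom_apply (IsScalarTower.toAlgHom ℝ ℝ[X] KK) X r
    rw [aeval_X_left_apply] at this
    exact this
  rw [h4, h5] at h3
  have h6 : aeval xK ρ = am ρ.reverse * xK ^ ρ.natDegree := h3.symm
  have h7 : ρ.reverse * q = p * X ^ ρ.natDegree := by
    apply am_inj
    rw [map_mul, map_mul, map_pow, ← h2, h6]
    have h8 : xK ^ ρ.natDegree * am X ^ ρ.natDegree = 1 := by rw [← mul_pow, xK_mul, one_pow]
    linear_combination (-(am ρ.reverse) * am q) * h8
  have h8 := congrArg (eval 0) h7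
  rw [eval_mul, eval_mul, eval_pow, eval_X, zero_pow hd, mul_zero, ← coeff_zero_eq_eval_zero, coeff_zero_reverse] at h8
  rcases mul_eq_zero.1 h8 with h9 | h9
  · exact hne (leadingCoeff_eq_zero.1 h9)
  · exact h1 h9

lemma ev_reg (c : KK) : ∃ B : ℕ, ∀ k : ℤ, (B : ℤ) ≤ |k| → Reg (k : ℝ) c := by
  have hq0 : c.denom ≠ 0 := RatFunc.denom_ne_zero c
  have hamq : am c.denom ≠ 0 := fun h => hq0 (am_inj (by rw [h, map_zero]))
  have hfin : {k : ℤ | c.denom.eval (k : ℝ) = 0}.Finite := by
    have h1 := c.denom.roots.toFinset.finite_toSet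
    refine Set.Finite.of_finite_image (f := fun k : ℤ => (k : ℝ)) (h1.subset ?_) (Int.cast_injective.injOn)
    rintro _ ⟨k, hk, rfl⟩
    simp only [Set.mem_ofPred_eq] at hk
    simp only [Finset.mem_coe, Multiset.mem_toFinset, mem_roots hq0, IsRoot.def]
    exact hk
  obtain ⟨B, hB⟩ := (hfin.image (fun k : ℤ => |k|)).bddAbove
  refine ⟨(B + 1).toNat, fun k hk => ⟨c.num, c.denom, fun h => ?_, ?_⟩⟩
  · have := hB ⟨k, h, rfl⟩
    simp only at this
    have h2 := Int.self_le_toNat (B + 1)
    omega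
  · have h2 := RatFunc.num_div_denom c
    rw [div_eq_iff hamq] at h2
    exact h2.symm

lemma noSol (ε : KK) (hε : ε = 1 ∨ ε = -1) (c : KK) (ρ : ℝ[X]) (h0 : ρ.coeff 0 = 0)
    (h : sK (c + aeval xK ρ) = ε * (c - aeval xK ρ)) : ρ = 0 := by
  obtain ⟨B, hB⟩ := ev_reg c
  have hε2 : ε * ε = 1 := by rcases hε with h | h <;> rw [h] <;> norm_num
  have hεr : ∀ a, Reg a ε := by
    intro a
    rcases hε with h | h
    · rw [h, ← map_one am]
      exact Reg.am _ _
    · rw [h, ← map_one am, ← map_neg]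
      exact Reg.am _ _
  -- regular at the positive integers
  have hpos : ∀ n : ℕ, n ≤ B → Reg ((B + 1 - n : ℕ) : ℝ) c := by
    intro n
    induction n with
    | zero =>
      intro _
      have := hB ((B + 1 : ℕ) : ℤ) (by rw [abs_of_nonneg (by positivity)]; push_cast; omega)
      rwa [Int.cast_natCast] at this
    | succ n ih =>
      intro hn
      have h1 := ih (by omega)
      have e : ((B + 1 - n : ℕ) : ℝ) = ((B + 1 - (n + 1) : ℕ) : ℝ) + 1 := by
        rw [← Nat.cast_succ]
        congr 1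
        omega
      have hne : ((B + 1 - (n + 1) : ℕ) : ℝ) ≠ 0 := by
        rw [Nat.cast_ne_zero]
        omega
      rw [e] at h1
      have h2 := h1.add (reg_aeval (a := ((B + 1 - (n + 1) : ℕ) : ℝ) + 1) (by positivity) ρ)
      have h3 := h2.shift
      rw [h] at h3
      have h4 := (hεr _).mul h3
      rw [← mul_assoc, hε2, one_mul] at h4
      have h5 := h4.add (reg_aeval hne ρ)
      rwa [sub_add_cancel] at h5
  have hneg : ∀ n : ℕ, n ≤ B → Reg (-((B + 1 - n : ℕ) : ℝ)) c := by
    intro n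
    induction n with
    | zero =>
      intro _
      have := hB (-((B + 1 : ℕ) : ℤ)) (by rw [abs_neg, abs_of_nonneg (by positivity)]; push_cast; omega)
      rwa [Int.cast_neg, Int.cast_natCast] at this
    | succ n ih =>
      intro hn
      have h1 := ih (by omega)
      have e : (-((B + 1 - (n + 1) : ℕ) : ℝ)) = -((B + 1 - n : ℕ) : ℝ) + 1 := by
        have : ((B + 1 - n : ℕ) : ℝ) = ((B + 1 - (n + 1) : ℕ) : ℝ) + 1 := by
          rw [← Nat.cast_succ]
          congr 1
          omega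
        rw [this]
        ring
      have hne : (-((B + 1 - n : ℕ) : ℝ)) ≠ 0 := by
        rw [neg_ne_zero, Nat.cast_ne_zero]
        omega
      have hne2 : (-((B + 1 - (n + 1) : ℕ) : ℝ)) ≠ 0 := by
        rw [neg_ne_zero, Nat.cast_ne_zero]
        omega
      have h2 := (hεr _).mul (h1.sub (reg_aeval hne ρ))
      rw [← h] at h2
      have h3 := h2.unshift
      rw [← e] at h3
      have h4 := h3.sub (reg_aeval hne2 ρ)
      rwa [add_sub_cancel_right] at h4
  have h1 : Reg 1 c := by
    have := hpos B le_rfl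
    rw [show B + 1 - B = 1 by omega, Nat.cast_one] at this
    exact this
  have h2 : Reg (-1) c := by
    have := hneg B le_rfl
    rw [show B + 1 - B = 1 by omega, Nat.cast_one] at this
    exact this
  have h3 : Reg 0 (c - aeval xK ρ) := by
    have h4 := (h1.add (reg_aeval one_ne_zero ρ))
    have h5 : Reg 0 (sK (c + aeval xK ρ)) := Reg.shift (by rwa [zero_add])
    rw [h] at h5
    have h6 := (hεr _).mul h5
    rwa [← mul_assoc, hε2, one_mul] at h6
  have h4 : Reg 0 (c + aeval xK ρ) := by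
    have h5 := (hεr _).mul (h2.sub (reg_aeval (by norm_num) ρ))
    rw [← h] at h5
    have h6 := h5.unshift
    rwa [neg_add_cancel] at h6
  refine reg_zero h0 ?_
  have h5 := (Reg.am 0 (C (1 / 2 : ℝ))).mul (h4.sub h3)
  have e : am (C (1 / 2 : ℝ)) * (c + aeval xK ρ - (c - aeval xK ρ)) = aeval xK ρ := by
    have h6 : am (C (1 / 2 : ℝ)) * 2 = 1 := by
      rw [← map_ofNat am 2, ← map_mul, ← map_one am]
      congr 1
      rw [← map_ofNat C 2, ← C_mul]
      norm_num
    linear_combination (aeval xK ρ) * h6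
  rwa [e] at h5

end Pool.Agent.L7h24.TS
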