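import Mathlib
import Pool.Agent.L7h24.TS.Rat

/-!
# Power series in `x = 1 / z` with the shift `z ↦ z + 1`
-/

set_option autoImplicit false

namespace Pool.Agent.L7h24.TS

open PowerSeries Filter Topology

abbrev AA : Type := ℝ⟦X⟧

/-- substitution of a series without constant term -/
noncomputable def sb (a : AA) (ha : constantCoeff a = 0) : AA →+* AA :=
  (substAlgHom (R := ℝ) (HasSubst.of_constantCoeff_zero' ha)).toRingHom

lemma sb_apply (a : AA) (ha : constantCoeff a = 0) (f : AA) : sb a ha f = f.subst a := by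
  rw [← coe_substAlgHom (HasSubst.of_constantCoeff_zero' ha)]
  rfl

lemma sb_X (a : AA) (ha : constantCoeff a = 0) : sb a ha X = a := by
  rw [sb_apply, subst_X (HasSubst.of_constantCoeff_zero' ha)]

lemma sb_C (a : AA) (ha : constantCoeff a = 0) (r : ℝ) : sb a ha (C r) = C r := by
  rw [sb_apply, subst_C]
  rfl

lemma sb_cc (a : AA) (ha : constantCoeff a = 0) (f : AA) : constantCoeff (sb a ha f) = constantCoeff f := by
  have h : f = C (constantCoeff f) + X * (mk fun n => coeff (n + 1) f) := by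
    rw [add_comm]
    exact eq_X_mul_shift_add_const f
  conv_lhs => rw [h]
  rw [map_add, map_mul, sb_X, sb_C, map_add, map_mul, ha, zero_mul, add_zero, constantCoeff_C]

lemma split_at (f : AA) (n : ℕ) : f = ∑ i ∈ Finset.range n, C (coeff i f) * X ^ i + X ^ n * mk fun k => coeff (k + n) f := by
  induction n with
  | zero => simp [PowerSeries.ext_iff]
  | succ n ih =>
    conv_lhs => rw [ih]
    rw [Finset.sum_range_succ, add_assoc]
    congr 1
    have h : (mk fun k => coeff (k + n) f : AA) = C (coeff n f) + X * mk fun k => coeff (k + (n + 1)) f := by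
      have h2 := eq_X_mul_shift_add_const (mk fun k => coeff (k + n) f : AA)
      rw [← coeff_zero_eq_constantCoeff_apply, coeff_mk, zero_add, add_comm] at h2
      rw [h2]
      congr 2
      ext k
      simp only [coeff_mk]
      rw [show k + 1 + n = k + (n + 1) by omega]
    rw [h, pow_succ]
    ring

lemma sb_coeff (a : AA) (ha : constantCoeff a = 0) (f : AA) (n : ℕ) :
    coeff n (sb a ha f) = ∑ i ∈ Finset.range (n + 1), coeff i f * coeff n (a ^ i) := by
  conv_lhs => rw [split_at f (n + 1)]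
  rw [map_add, map_mul, map_pow, sb_X, map_sum, map_add, map_sum]
  have h1 : X ∣ a := X_dvd_iff.2 ha
  have h2 : coeff n (a ^ (n + 1) * sb a ha (mk fun k => coeff (k + (n + 1)) f)) = 0 := by
    have h3 : X ^ (n + 1) ∣ a ^ (n + 1) * sb a ha (mk fun k => coeff (k + (n + 1)) f) :=
      Dvd.dvd.mul_right (pow_dvd_pow_of_dvd h1 _) _
    exact X_pow_dvd_iff.1 h3 n (Nat.lt_succ_self n)
  rw [h2, add_zero]
  refine Finset.sum_congr rfl fun i _ => ?_
  rw [map_mul, map_pow, sb_X, sb_C, coeff_C_mul]

/-- the series `x / (1 + x)` -/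
noncomputable def ss : AA := X * (1 + X)⁻¹

lemma ss_cc : constantCoeff ss = 0 := by simp [ss]

lemma cc1 : constantCoeff (1 + X : AA) ≠ 0 := by simp

lemma ss_mul : ss * (1 + X) = X := by
  rw [ss, mul_assoc, PowerSeries.inv_mul_cancel _ cc1, mul_one]

/-- the shift `z ↦ z + 1` -/
noncomputable def sg : AA →+* AA := sb ss ss_cc

lemma sg_X : sg X = ss := sb_X _ _

lemma sg_X' : sg X * (1 + X) = X := by rw [sg_X, ss_mul]

lemma sg_C (r : ℝ) : sg (C r) = C r := sb_C _ _ r

lemma ss_ne : ss ≠ 0 := fun h => by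
  have := ss_mul
  rw [h, zero_mul] at this
  exact X_ne_zero this.symm

lemma sg_inj : Function.Injective sg := by
  rw [injective_iff_map_eq_zero]
  intro f hf
  by_contra hne
  obtain ⟨n, g, hg0, hg⟩ : ∃ (n : ℕ) (g : AA), constantCoeff g ≠ 0 ∧ f = X ^ n * g := by
    obtain ⟨n, hn⟩ : ∃ n, coeff n f ≠ 0 := by
      by_contra h
      push Not at h
      exact hne (PowerSeries.ext (by simpa using h))
    classical
    have hex : ∃ n, coeff n f ≠ 0 := ⟨n, hn⟩
    refine ⟨Nat.find hex, mk fun k => coeff (k + Nat.find hex) f, ?_, ?_⟩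
    · rw [← coeff_zero_eq_constantCoeff_apply, coeff_mk, zero_add]
      exact Nat.find_spec hex
    · conv_lhs => rw [split_at f (Nat.find hex)]
      rw [Finset.sum_eq_zero, zero_add]
      intro i hi
      rw [Finset.mem_range] at hi
      have := Nat.find_min hex hi
      push Not at this
      rw [this, map_zero, zero_mul]
  rw [hg, map_mul, map_pow, sg_X] at hf
  rcases mul_eq_zero.1 hf with h | h
  · exact pow_ne_zero n ss_ne h
  · have h2 := sb_cc ss ss_cc g
    rw [show sb ss ss_cc g = sg g from rfl, h, map_zero] at h2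
    exact hg0 h2.symm

/-- the series `r_0 - r_1 x² + r_2 x⁴ - ...` -/
lemma y_cc : constantCoeff (-X ^ 2 : AA) = 0 := by simp

noncomputable def sr : AA →+* AA := sb (-X ^ 2) y_cc

noncomputable def ser (r : ℕ → ℝ) : AA := sr (mk r)

lemma ser_eq (r : ℕ → ℝ) : ser r = C (r 0) - X ^ 2 * ser (fun n => r (n + 1)) := by
  have h : (mk r : AA) = C (r 0) + X * mk fun n => r (n + 1) := by
    have h2 := eq_X_mul_shift_add_const (mk r : AA)
    rw [← coeff_zero_eq_constantCoeff_apply, coeff_mk, add_comm] at h2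
    rw [h2]
    congr 2
    ext k
    simp only [coeff_mk]
  unfold ser sr
  rw [h, map_add, map_mul, sb_X, sb_C]
  ring

lemma ser_smul (a : ℝ) (r : ℕ → ℝ) : ser (fun n => a * r n) = C a * ser r := by
  have h : (mk (fun n => a * r n) : AA) = C a * mk r := by
    ext n
    rw [coeff_mk, coeff_C_mul, coeff_mk]
  unfold ser sr
  rw [h, map_mul, sb_C]

lemma ser_sub (r s : ℕ → ℝ) : ser (fun n => r n - s n) = ser r - ser s := by
  have h : (mk (fun n => r n - s n) : AA) = mk r - mk s := by
    ext n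
    rw [coeff_mk, map_sub, coeff_mk, coeff_mk]
  unfold ser
  rw [h, map_sub]

/-- coefficientwise convergence -/
def CT (f : ℕ → AA) (g : AA) : Prop := ∀ n, Tendsto (fun m => coeff n (f m)) atTop (𝓝 (coeff n g))

lemma CT.const (g : AA) : CT (fun _ => g) g := fun _ => tendsto_const_nhds

lemma CT.add {f f' : ℕ → AA} {g g' : AA} (h : CT f g) (h' : CT f' g') : CT (fun m => f m + f' m) (g + g') := fun n => by
  simp only [map_add]
  exact (h n).add (h' n)

lemma CT.sub {f f' : ℕ → AA} {g g' : AA} (h : CT f g) (h' : CT f' g') : CT (fun m => f m - f' m) (g - g') := fun n => by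
  simp only [map_sub]
  exact (h n).sub (h' n)

lemma CT.mul {f f' : ℕ → AA} {g g' : AA} (h : CT f g) (h' : CT f' g') : CT (fun m => f m * f' m) (g * g') := fun n => by
  simp only [coeff_mul]
  exact tendsto_finsetSum _ fun i _ => (h i.1).mul (h' i.2)

lemma CT.C {f : ℕ → ℝ} {a : ℝ} (h : Tendsto f atTop (𝓝 a)) : CT (fun m => PowerSeries.C (f m)) (PowerSeries.C a) :=
  fun n => by
  simp only [coeff_C]
  split_ifs
  · exact h
  · exact tendsto_const_nhds

lemma CT.sb {a : AA} (ha : constantCoeff a = 0) {f : ℕ → AA} {g : AA} (h : CT f g) :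
    CT (fun m => sb a ha (f m)) (Pool.Agent.L7h24.TS.sb a ha g) := fun n => by
  simp only [sb_coeff]
  exact tendsto_finsetSum _ fun i _ => (h i).mul_const _

lemma CT.ser {f : ℕ → ℕ → ℝ} {r : ℕ → ℝ} (h : ∀ j, Tendsto (fun m => f m j) atTop (𝓝 (r j))) :
    CT (fun m => ser (f m)) (Pool.Agent.L7h24.TS.ser r) :=
  CT.sb y_cc (f := fun m => mk (f m)) (g := mk r) (fun n => by simpa using h n)

lemma CT.unique {f : ℕ → AA} {g g' : AA} (h : CT f g) (h' : CT f g') : g = g' := by
  ext n
  exact tendsto_nhds_unique (h n) (h' n)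

end Pool.Agent.L7h24.TS
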