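import Mathlib
import Pool.Agent.L7h24.TS.Diff

/-!
# Linear independence of the products: the induction
-/

set_option autoImplicit false

namespace Pool.Agent.L7h24.TS

open Polynomial

def ex (α : ℕ → List ℕ → ℕ) : List ℕ → ℕ
  | [] => 0
  | p :: P => α p P

lemma mono_sum {ι k : Type*} [Field k] (S : Finset ι) (p : ι → Prop) [DecidablePred p] (n : ι → ℕ) (r : ι → k)
    (h : ∑ i ∈ S, (if p i then monomial (n i) (r i) else 0) = 0) {j : ι} (hj : j ∈ S) (hpj : p j)
    (hinj : ∀ i ∈ S, p i → n i = n j → i = j) : r j = 0 := by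
  have h1 := congrArg (fun q : k[X] => q.coeff (n j)) h
  simp only [finsetSum_coeff, coeff_zero] at h1
  rw [Finset.sum_eq_single_of_mem j hj] at h1
  · rwa [if_pos hpj, coeff_monomial, if_pos rfl] at h1
  · intro i hi hne
    split_ifs with hp
    · rw [coeff_monomial, if_neg fun h => hne (hinj i hi hp h)]
    · rfl

section

variable {k K F : Type*} [Field k] [Field K] [CharZero K] [CommRing F] [Nontrivial F] [Algebra k K] [Algebra K F]

omit [CharZero K] in
lemma ep_cases (P : List ℕ) : ep K P = 1 ∨ ep K P = -1 := by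
  unfold ep
  split_ifs
  · exact Or.inl rfl
  · exact Or.inr rfl

omit [CharZero K] in
lemma ep_sq (P : List ℕ) : ep K P * ep K P = 1 := by
  rcases ep_cases (K := K) P with h | h <;> rw [h] <;> norm_num

lemma ep_inj {P Q : List ℕ} (h : ep K P = ep K Q) : P = [] ↔ Q = [] := by
  have h2 : (1 : K) ≠ -1 := by norm_num
  unfold ep at h
  split_ifs at h with h3 h4 h4
  · simp [h3, h4]
  · exact absurd h h2
  · exact absurd h.symm h2
  · simp [h3, h4]

variable (σ : K →+* K) (τ : F →+* F) (hστ : ∀ (c : K) (y : F), τ (c • y) = σ c • τ y)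
variable (x : K) (f h : List ℕ → F) (α β : ℕ → List ℕ → ℕ) (f0 : f [] = 1) (h0 : h [] = 1)
variable (f1 : ∀ p P, τ (f (p :: P)) = - f (p :: P) + τ ((x ^ α p P) • f P) - (x ^ α p P) • f P)
variable (h1 : ∀ q Q, τ (h (q :: Q)) = h (q :: Q) + τ ((x ^ β q Q) • h Q) + (x ^ β q Q) • h Q)
variable (hk : ∀ r : k, σ (algebraMap k K r) = algebraMap k K r)
variable (hc1 : ∀ c : K, σ c = c → ∃ r : k, algebraMap k K r = c) (hc2 : ∀ c : K, σ c = -c → c = 0)
variable (h3 : ∀ ε : K, ε = 1 ∨ ε = -1 → ∀ (c : K) (ρ : k[X]), ρ.coeff 0 = 0 →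
  σ (c + aeval x ρ) = ε * (c - aeval x ρ) → ρ = 0)
variable (hα0 : ∀ p P, α p P ≠ 0) (hα : ∀ P, Function.Injective fun p => α p P)
variable (hβ0 : ∀ p P, β p P ≠ 0) (hβ : ∀ P, Function.Injective fun p => β p P)

include hστ f0 h0 f1 h1 hk hc1 hc2 h3 hα0 hα hβ0 hβ in
theorem top : ∀ (N : ℕ) (c : Idx →₀ K), (∀ i ∈ c.support, rk i = N) →
    Finsupp.linearCombination K (fun i : Idx => f i.1 * h i.2) c ∈ Vs K f h N → c = 0 := by
  classical
  intro N
  induction N using Nat.strong_induction_on with
  | _ N ihN =>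
  suffices H : ∀ n (c : Idx →₀ K), c.support.card = n → (∀ i ∈ c.support, rk i = N) →
      Finsupp.linearCombination K (fun i : Idx => f i.1 * h i.2) c ∈ Vs K f h N → c = 0 from
    fun c => H _ c rfl
  intro n
  induction n using Nat.strong_induction_on with
  | _ n ihn =>
  intro c hcn hcr hc
  by_contra hne
  obtain ⟨i0, hi0⟩ := Finsupp.support_nonempty_iff.2 hne
  set lc := Finsupp.linearCombination K (fun i : Idx => f i.1 * h i.2) with hlc
  have hτlc : ∀ c : Idx →₀ K, τ (lc c) = ∑ i ∈ c.support, σ (c i) • τ (f i.1 * h i.2) := by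
    intro c
    rw [hlc, Finsupp.linearCombination_apply, Finsupp.sum, map_sum]
    exact Finset.sum_congr rfl fun i _ => hστ _ _
  have hlcs : ∀ c : Idx →₀ K, lc c = ∑ i ∈ c.support, c i • (f i.1 * h i.2) := fun c => by
    rw [hlc, Finsupp.linearCombination_apply, Finsupp.sum]
  obtain ⟨c', hc'⟩ : ∃ c' : Idx →₀ K, c' = (c i0)⁻¹ • c := ⟨_, rfl⟩
  have hci0 : c i0 ≠ 0 := Finsupp.mem_support_iff.1 hi0
  have hc'0 : c' i0 = 1 := by rw [hc', Finsupp.smul_apply, smul_eq_mul, inv_mul_cancel₀ hci0]
  have hc's : c'.support = c.support := by rw [hc']; exact Finsupp.support_smul_eq (inv_ne_zero hci0)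
  have hc'r : ∀ i ∈ c'.support, rk i = N := by rw [hc's]; exact hcr
  have hc'V : lc c' ∈ Vs K f h N := by rw [hc', map_smul]; exact Submodule.smul_mem _ _ hc
  have hi0' : i0 ∈ c'.support := by rw [hc's]; exact hi0
  have T2' := T2 σ τ hστ x f h α β f0 h0 f1 h1
  have T1' : ∀ {n : ℕ} {y : F}, y ∈ Vs K f h n → τ y ∈ Vs K f h n := fun hy =>
    T1 σ τ hστ x f h α β f0 h0 f1 h1 hy
  obtain ⟨ε, hε⟩ : ∃ ε : K, ε = ep K i0.1 := ⟨_, rfl⟩
  have hε1 : ε = 1 ∨ ε = -1 := by rw [hε]; exact ep_cases _
  have hε2 : ε * ε = 1 := by rw [hε]; exact ep_sq _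
  -- all coefficients are eigenvectors
  have hd0 : ∀ i, ep K i.1 * σ (c' i) = ε * c' i := by
    obtain ⟨d, hd⟩ : ∃ d : Idx →₀ K, d = Finsupp.onFinset c'.support (fun i => ep K i.1 * σ (c' i) - ε * c' i)
        (fun i hi => by
          by_contra h
          rw [Finsupp.notMem_support_iff.1 h] at hi
          simp at hi) := ⟨_, rfl⟩
    have hdi : ∀ i, d i = ep K i.1 * σ (c' i) - ε * c' i := fun i => by rw [hd, Finsupp.onFinset_apply]
    have hlcd : lc d = ∑ i ∈ c'.support, (ep K i.1 * σ (c' i) - ε * c' i) • (f i.1 * h i.2) := by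
      rw [hd, hlc, Finsupp.linearCombination_onFinset]
    have hdsub : d.support ⊆ c'.support.erase i0 := by
      intro i hi
      rw [Finsupp.mem_support_iff, hdi] at hi
      refine Finset.mem_erase.2 ⟨?_, ?_⟩
      · rintro rfl
        apply hi
        rw [hc'0, map_one, hε, sub_self]
      · rw [Finsupp.mem_support_iff]
        intro h0
        rw [h0] at hi
        simp at hi
    have hdz : d = 0 := by
      refine ihn d.support.card ?_ d rfl (fun i hi => hc'r i (Finset.mem_of_mem_erase (hdsub hi))) ?_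
      · rw [← hcn, ← hc's]
        exact lt_of_le_of_lt (Finset.card_le_card hdsub) (Finset.card_erase_lt_of_mem hi0')
      · have e : lc d = τ (lc c') - ε • lc c' -
            ∑ i ∈ c'.support, σ (c' i) • (τ (f i.1 * h i.2) - ep K i.1 • (f i.1 * h i.2)) := by
          rw [hlcd, hτlc, hlcs, Finset.smul_sum, ← Finset.sum_sub_distrib, ← Finset.sum_sub_distrib]
          refine Finset.sum_congr rfl fun i _ => ?_
          simp only [Algebra.smul_def, map_mul, map_sub]
          ring
        rw [e]
        refine sub_mem (sub_mem (T1' hc'V) (Submodule.smul_mem _ _ hc'V)) (sum_mem fun i hi => ?_)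
        have := T2' i
        rw [hc'r i hi] at this
        exact Submodule.smul_mem _ _ this
    intro i
    have := hdi i
    rw [hdz, Finsupp.zero_apply] at this
    exact (sub_eq_zero.1 this.symm)
  have hreal : ∀ i, ∃ r : k, algebraMap k K r = c' i ∧ (c' i ≠ 0 → ep K i.1 = ε) := by
    intro i
    by_cases hz : c' i = 0
    · exact ⟨0, by rw [hz, map_zero], fun h => absurd hz h⟩
    · have h4 := hd0 i
      have h5 : ep K i.1 = ε ∨ ep K i.1 = -ε := by
        rcases ep_cases (K := K) i.1 with h6 | h6 <;> rcases hε1 with h7 | h7 <;> rw [h6, h7] <;> simp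
      rcases h5 with h5 | h5
      · have h6 : σ (c' i) = c' i := by
          have := congrArg (fun t => ε * t) h4
          rw [h5, ← mul_assoc, ← mul_assoc, hε2, one_mul, one_mul] at this
          exact this
        obtain ⟨r, hr⟩ := hc1 _ h6
        exact ⟨r, hr, fun _ => h5⟩
      · exfalso
        apply hz
        apply hc2
        have := congrArg (fun t => ε * t) h4
        rw [h5, neg_mul, mul_neg, ← mul_assoc, ← mul_assoc, hε2, one_mul, one_mul] at this
        exact (neg_eq_iff_eq_neg.1 this)
  choose r hr hrε using hreal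
  have hσc : ∀ i, σ (c' i) = c' i := fun i => by rw [← hr, hk]
  rcases Nat.eq_zero_or_pos N with hN | hN
  · -- rank zero
    subst hN
    have h4 : Vs K f h 0 = ⊥ := by
      unfold Vs
      rw [Submodule.span_eq_bot]
      rintro _ ⟨i, hi, rfl⟩
      exact absurd hi (Nat.not_lt_zero _)
    rw [h4, Submodule.mem_bot, hlcs] at hc'V
    have h5 : ∀ i : Idx, rk i = 0 → i = ([], []) := by
      rintro ⟨P, Q⟩ hi
      simp only [rk, Nat.add_eq_zero_iff, List.length_eq_zero_iff] at hi
      rw [hi.1, hi.2]
    have h6 : i0 = ([], []) := h5 _ (hc'r _ hi0')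
    rw [Finset.sum_eq_single_of_mem i0 hi0' fun i hi hne => absurd ((h5 i (hc'r i hi)).trans h6.symm) hne] at hc'V
    rw [hc'0, h6, f0, h0, one_smul, one_mul] at hc'V
    exact one_ne_zero hc'V
  obtain ⟨M, rfl⟩ : ∃ M, N = M + 1 := ⟨N - 1, by omega⟩
  obtain ⟨w, hw, hwc⟩ := (Finsupp.mem_span_image_iff_linearCombination K).1 hc'V
  rw [← hlc] at hwc
  obtain ⟨w1, hw1⟩ : ∃ w1 : Idx →₀ K, w1 = w.filter (fun i => rk i = M) := ⟨_, rfl⟩
  have hw1r : ∀ i ∈ w1.support, rk i = M := by
    intro i hi
    rw [hw1, Finsupp.support_filter, Finset.mem_filter] at hi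
    exact hi.2
  have hww : lc c' - lc w1 ∈ Vs K f h M := by
    rw [← hwc, ← map_sub]
    refine (Finsupp.mem_span_image_iff_linearCombination K).2 ⟨w - w1, ?_, rfl⟩
    rw [Finsupp.mem_supported]
    intro i hi
    rw [Finset.mem_coe, Finsupp.mem_support_iff, Finsupp.sub_apply, hw1, Finsupp.filter_apply] at hi
    have h4 : rk i ≠ M := by
      intro h
      rw [if_pos h, sub_self] at hi
      exact hi rfl
    rw [if_neg h4, sub_zero] at hi
    have h5 : rk i < M + 1 := hw (Finset.mem_coe.2 (Finsupp.mem_support_iff.2 hi))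
    show rk i < M
    omega
  -- the combination of rank `M`
  obtain ⟨e2, he2⟩ : ∃ e2 : Idx →₀ K, e2 = Finsupp.onFinset w1.support (fun i => ep K i.1 * σ (w1 i) - ε * w1 i)
      (fun i hi => by
        by_contra h
        rw [Finsupp.notMem_support_iff.1 h] at hi
        simp at hi) := ⟨_, rfl⟩
  have he2i : ∀ i, e2 i = ep K i.1 * σ (w1 i) - ε * w1 i := fun i => by rw [he2, Finsupp.onFinset_apply]
  have he2l : lc e2 = ∑ i ∈ w1.support, (ep K i.1 * σ (w1 i) - ε * w1 i) • (f i.1 * h i.2) := by
    rw [he2, hlc, Finsupp.linearCombination_onFinset]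
  obtain ⟨e1, he1⟩ : ∃ e1 : Idx →₀ K, e1 = ∑ i ∈ c'.support, c' i • (df σ x α i.1 • Finsupp.single (i.1.tail, i.2) 1 +
      (ep K i.1 * dh σ x β i.2) • Finsupp.single (i.1, i.2.tail) 1) := ⟨_, rfl⟩
  have he1l : lc e1 = ∑ i ∈ c'.support, c' i • (df σ x α i.1 • (f i.1.tail * h i.2) +
      (ep K i.1 * dh σ x β i.2) • (f i.1 * h i.2.tail)) := by
    rw [he1, map_sum]
    refine Finset.sum_congr rfl fun i _ => ?_
    rw [map_smul, map_add, map_smul, map_smul, hlc, Finsupp.linearCombination_single,
      Finsupp.linearCombination_single, one_smul, one_smul]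
  have he1i : ∀ j, e1 j = ∑ i ∈ c'.support, c' i * (df σ x α i.1 * (if (i.1.tail, i.2) = j then 1 else 0) +
      (ep K i.1 * dh σ x β i.2) * (if (i.1, i.2.tail) = j then 1 else 0)) := by
    intro j
    rw [he1, Finsupp.finsetSum_apply]
    refine Finset.sum_congr rfl fun i _ => ?_
    rw [Finsupp.smul_apply, Finsupp.add_apply, Finsupp.smul_apply, Finsupp.smul_apply, Finsupp.single_apply,
      Finsupp.single_apply, smul_eq_mul, smul_eq_mul, smul_eq_mul]
  have hlce : lc (e1 - e2) ∈ Vs K f h M := by
    choose l hl hl2 using fun i => T3 σ τ hστ x f h α β f0 h0 f1 h1 i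
    have e : lc (e1 - e2) = τ (lc c' - lc w1) - ε • (lc c' - lc w1) - ∑ i ∈ c'.support, c' i • l i +
        ∑ i ∈ w1.support, σ (w1 i) • (τ (f i.1 * h i.2) - ep K i.1 • (f i.1 * h i.2)) := by
      have g1 : τ (lc c') - ε • lc c' = lc e1 + ∑ i ∈ c'.support, c' i • l i := by
        rw [hτlc, hlcs, he1l, Finset.smul_sum, ← Finset.sum_sub_distrib, ← Finset.sum_add_distrib]
        refine Finset.sum_congr rfl fun i _ => ?_
        rw [hl2 i, hσc i]
        have g2 := hd0 i
        rw [hσc i] at g2
        have g3 : ε • c' i • (f i.1 * h i.2) = c' i • ep K i.1 • (f i.1 * h i.2) := by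
          rw [smul_smul, smul_smul, ← g2, mul_comm]
        rw [g3]
        simp only [smul_add]
        abel
      have g2 : τ (lc w1) - ε • lc w1 = lc e2 +
          ∑ i ∈ w1.support, σ (w1 i) • (τ (f i.1 * h i.2) - ep K i.1 • (f i.1 * h i.2)) := by
        rw [hτlc, hlcs, he2l, Finset.smul_sum, ← Finset.sum_sub_distrib, ← Finset.sum_add_distrib]
        refine Finset.sum_congr rfl fun i _ => ?_
        simp only [Algebra.smul_def, map_mul, map_sub]
        ring
      rw [map_sub, map_sub, smul_sub]
      have g3 : τ (lc c') - τ (lc w1) - (ε • lc c' - ε • lc w1) =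
          (τ (lc c') - ε • lc c') - (τ (lc w1) - ε • lc w1) := by abel
      rw [g3, g1, g2]
      abel
    rw [e]
    refine add_mem (sub_mem (sub_mem (T1' hww) (Submodule.smul_mem _ _ hww)) (sum_mem fun i hi => ?_))
      (sum_mem fun i hi => ?_)
    · have := hl i
      rw [hc'r i hi, Nat.add_sub_cancel] at this
      exact Submodule.smul_mem _ _ this
    · have := T2' i
      rw [hw1r i hi] at this
      exact Submodule.smul_mem _ _ this
  have hE : ∀ j, e1 j = ep K j.1 * σ (w1 j) - ε * w1 j := by
    have h4 : e1 - e2 = 0 := by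
      refine ihN M (Nat.lt_succ_self M) _ (fun j hj => ?_) hlce
      by_contra hjM
      rw [Finsupp.mem_support_iff, Finsupp.sub_apply, he2i, he1i] at hj
      apply hj
      have h5 : w1 j = 0 := by
        by_contra h6
        exact hjM (hw1r j (Finsupp.mem_support_iff.2 h6))
      rw [h5, map_zero, mul_zero, mul_zero, sub_zero, sub_zero]
      refine Finset.sum_eq_zero fun i hi => ?_
      have h6 := hc'r i hi
      have h7 : df σ x α i.1 * (if (i.1.tail, i.2) = j then 1 else 0) = 0 := by
        obtain ⟨P, Q⟩ := i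
        cases P with
        | nil => simp [df]
        | cons p P =>
          rw [if_neg, mul_zero]
          rintro rfl
          simp only [rk, List.length_cons, List.tail_cons] at h6 hjM
          omega
      have h8 : ep K i.1 * dh σ x β i.2 * (if (i.1, i.2.tail) = j then 1 else 0) = 0 := by
        obtain ⟨P, Q⟩ := i
        cases Q with
        | nil => simp [dh]
        | cons p Q =>
          rw [if_neg, mul_zero]
          rintro rfl
          simp only [rk, List.length_cons, List.tail_cons] at h6 hjM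
          omega
      rw [h7, h8, add_zero, mul_zero]
    intro j
    have h5 := congrArg (fun t : Idx →₀ K => t j) h4
    simp only [Finsupp.sub_apply, Finsupp.zero_apply, he2i] at h5
    exact sub_eq_zero.1 h5
  by_cases hi01 : i0.1 = []
  · -- all first components are empty
    have hεv : ε = 1 := by rw [hε, hi01, ep_nil]
    have hall : ∀ i ∈ c'.support, i.1 = [] := by
      intro i hi
      have h4 := hrε i (Finsupp.mem_support_iff.1 hi)
      rw [hε] at h4
      exact (ep_inj h4).2 hi01
    obtain ⟨P0, Q0⟩ := i0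
    simp only at hi01
    subst hi01
    have h4 := hc'r _ hi0'
    simp only [rk, List.length_nil, zero_add] at h4
    obtain ⟨q, Q', rfl⟩ : ∃ q Q', Q0 = q :: Q' := by
      cases Q0 with
      | nil => simp at h4
      | cons q Q' => exact ⟨q, Q', rfl⟩
    have h5 := hE ([], Q')
    rw [he1i] at h5
    simp only [ep_nil, one_mul, hεv] at h5
    have h6 : ∀ i ∈ c'.support, c' i * (df σ x α i.1 * (if (i.1.tail, i.2) = (([], Q') : Idx) then 1 else 0) +
        (ep K i.1 * dh σ x β i.2) * (if (i.1, i.2.tail) = (([], Q') : Idx) then 1 else 0)) =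
        σ (aeval x (if i.2 ≠ [] ∧ i.2.tail = Q' then monomial (ex β i.2) (r i) else 0)) +
        aeval x (if i.2 ≠ [] ∧ i.2.tail = Q' then monomial (ex β i.2) (r i) else 0) := by
      intro i hi
      have h7 := hall i hi
      obtain ⟨P, Q⟩ := i
      simp only at h7
      subst h7
      cases Q with
      | nil => simp [df, dh]
      | cons q1 Q1 =>
        by_cases h8 : Q1 = Q'
        · subst h8
          simp only [df, dh, ep_nil, ex, List.tail_cons, ne_eq, List.cons_ne_nil, not_false_eq_true, and_self, if_true,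
            aeval_monomial, map_mul, hk, ← hr]
          ring
        · simp [df, h8]
    rw [Finset.sum_congr rfl h6, Finset.sum_add_distrib, ← map_sum, ← map_sum] at h5
    obtain ⟨ρ, hρ⟩ : ∃ ρ : k[X], ρ = ∑ i ∈ c'.support,
      (if i.2 ≠ [] ∧ i.2.tail = Q' then monomial (ex β i.2) (r i) else 0) := ⟨_, rfl⟩
    rw [← hρ] at h5
    have h9 : -ρ = 0 := by
      refine h3 1 (Or.inl rfl) (w1 ([], Q')) (-ρ) ?_ ?_
      · rw [coeff_neg, hρ, finsetSum_coeff, Finset.sum_eq_zero, neg_zero]
        intro i _
        split_ifs with h9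
        · rw [coeff_monomial, if_neg]
          obtain ⟨P, Q⟩ := i
          cases Q with
          | nil => exact absurd rfl h9.1
          | cons q1 Q1 => exact hβ0 _ _
        · rfl
      · rw [map_neg, ← sub_eq_add_neg, map_sub, sub_neg_eq_add, one_mul]
        linear_combination -h5
    rw [neg_eq_zero] at h9
    rw [hρ] at h9
    have h10 := mono_sum c'.support (fun i : Idx => i.2 ≠ [] ∧ i.2.tail = Q') (fun i => ex β i.2) r h9 hi0'
      ⟨List.cons_ne_nil _ _, rfl⟩ (by
        rintro ⟨P, Q⟩ hi ⟨g1, g2⟩ g3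
        have h7 := hall _ hi
        simp only at h7 g1 g2 g3
        subst h7
        cases Q with
        | nil => exact absurd rfl g1
        | cons q1 Q1 =>
          rw [List.tail_cons] at g2
          subst g2
          simp only [ex] at g3
          rw [hβ _ g3])
    have h11 := hr ([], q :: Q')
    rw [h10, map_zero, hc'0] at h11
    exact zero_ne_one h11
  · have hεv : ε = -1 := by rw [hε, ep, if_neg hi01]
    have hall : ∀ i ∈ c'.support, i.1 ≠ [] := by
      intro i hi h5
      have h4 := hrε i (Finsupp.mem_support_iff.1 hi)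
      rw [hε] at h4
      exact hi01 ((ep_inj h4).1 h5)
    have key : ∀ (l : ℕ) (i : Idx), i.1.length = l → c' i = 0 := by
      intro l
      induction l with
      | zero =>
        intro i hi
        by_contra h4
        exact hall i (Finsupp.mem_support_iff.2 h4) (List.length_eq_zero_iff.1 hi)
      | succ l ih =>
        rintro ⟨P, Q'⟩ hi
        by_contra h4
        obtain ⟨p, P', rfl⟩ : ∃ p P', P = p :: P' := by
          cases P with
          | nil => simp at hi
          | cons p P' => exact ⟨p, P', rfl⟩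
        simp only [List.length_cons, Nat.add_right_cancel_iff] at hi
        have hmem : ((p :: P', Q') : Idx) ∈ c'.support := Finsupp.mem_support_iff.2 h4
        have h5 := hE (P', Q')
        rw [he1i] at h5
        simp only [hεv] at h5
        have h6 : ∀ i ∈ c'.support, c' i * (df σ x α i.1 * (if (i.1.tail, i.2) = ((P', Q') : Idx) then 1 else 0) +
            (ep K i.1 * dh σ x β i.2) * (if (i.1, i.2.tail) = ((P', Q') : Idx) then 1 else 0)) =
            ep K P' * σ (aeval x (if i.1 ≠ [] ∧ (i.1.tail, i.2) = (P', Q') then monomial (ex α i.1) (r i) else 0)) -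
            aeval x (if i.1 ≠ [] ∧ (i.1.tail, i.2) = (P', Q') then monomial (ex α i.1) (r i) else 0) := by
          intro i hi'
          have h7 : ¬ (i.1, i.2.tail) = ((P', Q') : Idx) := by
            intro h8
            have h9 : i.1 = P' := (Prod.ext_iff.1 h8).1
            exact Finsupp.mem_support_iff.1 hi' (ih i (by rw [h9]; exact hi))
          rw [if_neg h7, mul_zero, add_zero]
          have h8 := hall i hi'
          obtain ⟨P1, Q1⟩ := i
          cases P1 with
          | nil => exact absurd rfl h8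
          | cons p1 P1 =>
            by_cases h8 : (P1, Q1) = ((P', Q') : Idx)
            · obtain ⟨rfl, rfl⟩ := Prod.ext_iff.1 h8
              simp only [df, ex, List.tail_cons, ne_eq, List.cons_ne_nil, not_false_eq_true, and_self, if_true,
                aeval_monomial, map_mul, hk, ← hr]
              ring
            · simp [h8]
        rw [Finset.sum_congr rfl h6, Finset.sum_sub_distrib, ← Finset.mul_sum, ← map_sum, ← map_sum] at h5
        obtain ⟨ρ, hρ⟩ : ∃ ρ : k[X], ρ = ∑ i ∈ c'.support,
          (if i.1 ≠ [] ∧ (i.1.tail, i.2) = (P', Q') then monomial (ex α i.1) (r i) else 0) := ⟨_, rfl⟩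
        rw [← hρ] at h5
        have h9 : -ρ = 0 := by
          refine h3 (-ep K P') ?_ (w1 (P', Q')) (-ρ) ?_ ?_
          · rcases ep_cases (K := K) P' with g | g <;> rw [g] <;> simp
          · rw [coeff_neg, hρ, finsetSum_coeff, Finset.sum_eq_zero, neg_zero]
            intro i _
            split_ifs with h9
            · rw [coeff_monomial, if_neg]
              obtain ⟨P, Q⟩ := i
              cases P with
              | nil => exact absurd rfl h9.1
              | cons q1 Q1 => exact hα0 _ _
            · rfl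
          · rw [map_neg, ← sub_eq_add_neg, map_sub, sub_neg_eq_add]
            have h10 := ep_sq (K := K) P'
            linear_combination (-ep K P') * h5 + (σ (aeval x ρ) - σ (w1 (P', Q'))) * h10
        rw [neg_eq_zero, hρ] at h9
        have h10 := mono_sum c'.support (fun i : Idx => i.1 ≠ [] ∧ (i.1.tail, i.2) = (P', Q')) (fun i => ex α i.1) r
          h9 hmem ⟨List.cons_ne_nil _ _, rfl⟩ (by
            rintro ⟨P, Q⟩ hi ⟨g1, g2⟩ g3
            simp only at g1 g2 g3
            cases P with
            | nil => exact absurd rfl g1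
            | cons q1 Q1 =>
              rw [List.tail_cons] at g2
              obtain ⟨rfl, rfl⟩ := Prod.ext_iff.1 g2
              simp only [ex] at g3
              rw [hα _ g3])
        exact h4 (by rw [← hr, h10, map_zero])
    have := key _ i0 rfl
    rw [hc'0] at this
    exact one_ne_zero this

include hστ f0 h0 f1 h1 hk hc1 hc2 h3 hα0 hα hβ0 hβ in
/-- the products are linearly independent -/
theorem indep (c : Idx →₀ K) (hc : ∑ i ∈ c.support, c i • (f i.1 * h i.2) = 0) : c = 0 := by
  classical
  by_contra hne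
  have h4 := Finsupp.support_nonempty_iff.2 hne
  set N := c.support.sup' h4 rk with hN
  obtain ⟨i1, hi1, hi1N⟩ := Finset.exists_mem_eq_sup' h4 rk
  have h5 := top σ τ hστ x f h α β f0 h0 f1 h1 hk hc1 hc2 h3 hα0 hα hβ0 hβ N (c.filter fun i => rk i = N)
    (fun i hi => by
      rw [Finsupp.support_filter, Finset.mem_filter] at hi
      exact hi.2) (by
      have e : Finsupp.linearCombination K (fun i : Idx => f i.1 * h i.2) (c.filter fun i => rk i = N) =
          - Finsupp.linearCombination K (fun i : Idx => f i.1 * h i.2) (c.filter fun i => ¬ rk i = N) := by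
        rw [eq_neg_iff_add_eq_zero, ← map_add, Finsupp.filter_add_filter_not, Finsupp.linearCombination_apply,
          Finsupp.sum, hc]
      rw [e]
      refine neg_mem ((Finsupp.mem_span_image_iff_linearCombination K).2 ⟨_, ?_, rfl⟩)
      rw [Finsupp.mem_supported]
      intro i hi
      rw [Finset.mem_coe, Finsupp.support_filter, Finset.mem_filter] at hi
      have h6 : rk i ≤ N := Finset.le_sup' rk hi.1
      exact lt_of_le_of_ne h6 hi.2)
  have h6 := congrArg (fun t : Idx →₀ K => t i1) h5
  simp only [Finsupp.filter_apply, Finsupp.zero_apply] at h6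
  rw [if_pos (by rw [hN, ← hi1N])] at h6
  exact Finsupp.mem_support_iff.1 hi1 h6

end

end Pool.Agent.L7h24.TS
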