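import Mathlib
import Pool.Agent.L7h24.TS.Ser
import Pool.Agent.L7h24.TS.Top

/-!
# Linear independence over the polynomials in `x` for power series
-/

set_option autoImplicit false

namespace Pool.Agent.L7h24.TS

open Polynomial

/-- the field of fractions of the power series in `x` -/
abbrev FF : Type := FractionRing AA

noncomputable abbrev af : AA →+* FF := algebraMap AA FF

lemma af_inj : Function.Injective af := IsFractionRing.injective AA FF

noncomputable def xF : FF := af PowerSeries.X

lemma xF_ne : xF ≠ 0 := fun h => PowerSeries.X_ne_zero (R := ℝ) (af_inj (by rw [map_zero]; exact h))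

/-- polynomials as power series -/
noncomputable abbrev pp : ℝ[X] →+* AA := Polynomial.coeToPowerSeries.ringHom

lemma pp_inj : Function.Injective pp := Polynomial.coe_injective ℝ

/-- constants -/
noncomputable def kF : ℝ →+* FF := af.comp (PowerSeries.C (R := ℝ))

lemma eval_xF (p : ℝ[X]) : eval₂ kF xF p = af (pp p) := by
  have h : eval₂RingHom kF xF = af.comp pp := by
    apply Polynomial.ringHom_ext
    · intro a
      simp [kF]
    · simp [xF]
  exact RingHom.congr_fun h p

/-- polynomials in `z = 1 / x` -/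
noncomputable def ez : ℝ[X] →+* FF := eval₂RingHom kF xF⁻¹

lemma ez_inj : Function.Injective ez := by
  rw [injective_iff_map_eq_zero]
  intro p hp
  let _ : Invertible xF⁻¹ := invertibleOfNonzero (inv_ne_zero xF_ne)
  have h3 := (eval₂_reverse_eq_zero_iff kF xF⁻¹ p).2 hp
  rw [invOf_eq_inv, inv_inv, eval_xF] at h3
  have h4 : p.reverse = 0 := pp_inj (af_inj (by rw [h3, map_zero, map_zero]))
  exact reverse_eq_zero.1 h4

/-- rational functions in `z = 1 / x` -/
noncomputable def io : KK →+* FF := IsFractionRing.lift (g := ez) ez_inj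

lemma io_am (p : ℝ[X]) : io (am p) = ez p := IsFractionRing.lift_algebraMap _ _

lemma io_X : io (am X) = xF⁻¹ := by
  rw [io_am]
  simp [ez]

lemma io_xK : io xK = xF := by
  rw [xK, map_inv₀, io_X, inv_inv]

lemma io_k (r : ℝ) : io (algebraMap ℝ KK r) = kF r := by
  rw [IsScalarTower.algebraMap_apply ℝ ℝ[X] KK, io_am]
  simp [ez]

/-- the shift on the field of fractions -/
noncomputable def tF : FF →+* FF := IsFractionRing.lift (g := af.comp sg) (af_inj.comp sg_inj)

lemma tF_af (a : AA) : tF (af a) = af (sg a) := IsFractionRing.lift_algebraMap _ _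

lemma tF_k (r : ℝ) : tF (kF r) = kF r := by
  show tF (af (PowerSeries.C r)) = af (PowerSeries.C r)
  rw [tF_af, sg_C]

lemma tF_z : tF xF⁻¹ = xF⁻¹ + 1 := by
  have h1 : tF xF * (1 + xF) = xF := by
    rw [xF, tF_af, ← map_one af, ← map_add, ← map_mul, sg_X']
  have h4 : xF * xF⁻¹ = 1 := mul_inv_cancel₀ xF_ne
  rw [map_inv₀]
  apply inv_eq_of_mul_eq_one_right
  linear_combination xF⁻¹ * h1 + (1 - tF xF) * h4

lemma compat (c : KK) : tF (io c) = io (sK c) := by
  have h : tF.comp io = io.comp sK := by
    apply IsLocalization.ringHom_ext (nonZeroDivisors ℝ[X])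
    apply Polynomial.ringHom_ext
    · intro a
      show tF (io (am (C a))) = io (sK (am (C a)))
      rw [sK_am, io_am, io_am, sh_apply, taylor_C]
      simp only [ez, coe_eval₂RingHom, eval₂_C]
      exact tF_k a
    · show tF (io (am X)) = io (sK (am X))
      rw [sK_am, io_am, io_am, sh_apply, taylor_X]
      simp only [ez, coe_eval₂RingHom, eval₂_X, eval₂_add, eval₂_one, map_one]
      exact tF_z
  exact RingHom.congr_fun h c

noncomputable instance algKF : Algebra KK FF := io.toAlgebra

lemma smul_KF (c : KK) (y : FF) : c • y = io c * y := rfl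

lemma tF_smul (c : KK) (y : FF) : tF (c • y) = sK c • tF y := by
  rw [smul_KF, smul_KF, map_mul, compat]

lemma aeval_inj {ρ : ℝ[X]} (h : aeval xK ρ = 0) : ρ = 0 := by
  have h1 : X * ρ = 0 := by
    refine reg_zero (by simp) ?_
    rw [map_mul, h, mul_zero]
    exact ⟨0, 1, by simp, by simp⟩
  exact (mul_eq_zero.1 h1).resolve_left X_ne_zero

lemma io_aeval (ρ : ℝ[X]) : io (aeval xK ρ) = af (pp ρ) := by
  rw [← eval_xF, aeval_def, hom_eval₂, io_xK]
  congr 1
  ext r
  exact io_k r

/-- **Independence.** -/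
theorem indepA (f h : List ℕ → AA) (α β : ℕ → List ℕ → ℕ) (f0 : f [] = 1) (h0 : h [] = 1)
    (f1 : ∀ p P, sg (f (p :: P)) = - f (p :: P) + sg (PowerSeries.X ^ α p P * f P) - PowerSeries.X ^ α p P * f P)
    (h1 : ∀ q Q, sg (h (q :: Q)) = h (q :: Q) + sg (PowerSeries.X ^ β q Q * h Q) + PowerSeries.X ^ β q Q * h Q)
    (hα0 : ∀ p P, α p P ≠ 0) (hα : ∀ P, Function.Injective fun p => α p P)
    (hβ0 : ∀ p P, β p P ≠ 0) (hβ : ∀ P, Function.Injective fun p => β p P)
    (S : Finset Idx) (ρ : Idx → ℝ[X]) (hS : ∑ i ∈ S, pp (ρ i) * (f i.1 * h i.2) = 0) : ∀ i ∈ S, ρ i = 0 := by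
  classical
  have hx : ∀ (n : ℕ) (a : AA), xK ^ n • af a = af (PowerSeries.X ^ n * a) := by
    intro n a
    rw [smul_KF, map_pow, io_xK, xF, map_mul, map_pow]
  have key := indep (k := ℝ) sK tF tF_smul xK (fun P => af (f P)) (fun Q => af (h Q)) α β
    (by simp only [f0, map_one]) (by simp only [h0, map_one])
    (fun p P => by
      rw [hx, tF_af, tF_af, f1, map_sub, map_add, map_neg])
    (fun p P => by
      rw [hx, tF_af, tF_af, h1, map_add, map_add])
    sK_k const1 const2 noSol hα0 hα hβ0 hβ
    (Finsupp.onFinset (S.filter fun i => ρ i ≠ 0) (fun i => if i ∈ S then aeval xK (ρ i) else 0) (fun i hi => by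
      by_cases h1 : i ∈ S
      · rw [if_pos h1] at hi
        refine Finset.mem_filter.2 ⟨h1, fun h2 => hi ?_⟩
        rw [h2, map_zero]
      · rw [if_neg h1] at hi
        exact absurd rfl hi))
  intro i hi
  have h2 := key (by
    refine (Finsupp.onFinset_sum (g := fun (i : Idx) (c : KK) => c • (af (f i.1) * af (h i.2))) _
      (fun _ => zero_smul _ _)).trans ?_
    rw [← map_zero af, ← hS, map_sum, Finset.sum_filter]
    refine Finset.sum_congr rfl fun j hj => ?_
    split_ifs with h3
    · rw [smul_KF, io_aeval, map_mul, map_mul]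
    · rw [not_not] at h3
      rw [h3, map_zero, zero_mul, map_zero])
  have h3 := congrArg (fun t : Idx →₀ KK => t i) h2
  simp only [Finsupp.onFinset_apply, Finsupp.zero_apply, if_pos hi] at h3
  exact aeval_inj h3

end Pool.Agent.L7h24.TS
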