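import Mathlib
import Pool.Agent.L7h24.TS.Ser

/-!
# The inner series: division by `m + 1` and the shift
-/

set_option autoImplicit false

namespace Pool.Agent.L7h24.TS

open PowerSeries Filter Topology

/-- the inverse of the summation `g ↦ ∑_{j < m} (j + 1)^(-2) g j` -/
noncomputable def Di (g : ℕ → ℝ) (m : ℕ) : ℝ := ((m : ℝ) + 1) ^ 2 * (g (m + 1) - g m)

noncomputable def Ri (g : ℕ → ℝ) (m : ℕ) : AA := ser fun j => (Di^[j] g) m

lemma Ri_eq (g : ℕ → ℝ) (m : ℕ) : Ri g m = C (g m) - X ^ 2 * Ri (Di g) m := by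
  unfold Ri
  rw [ser_eq]
  rfl

lemma Ri_D (g : ℕ → ℝ) (m : ℕ) : Ri (Di g) m = C (((m : ℝ) + 1) ^ 2) * (Ri g (m + 1) - Ri g m) := by
  unfold Ri
  rw [← ser_sub, ← ser_smul]
  congr 1
  funext j
  rw [← Function.iterate_succ_apply, Function.iterate_succ_apply']
  rfl

lemma Ri_rec (g : ℕ → ℝ) (m : ℕ) :
    X ^ 2 * C ((m : ℝ) + 1) ^ 2 * Ri g (m + 1) = (X ^ 2 * C ((m : ℝ) + 1) ^ 2 - 1) * Ri g m + C (g m) := by
  have h := Ri_eq g m
  rw [Ri_D, map_pow] at h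
  linear_combination h

lemma eq_zero_of_dvd {W : ℕ → AA} (h : ∀ m, ∀ j, X ^ j ∣ W (m + 1) → X ^ (j + 1) ∣ W m) (m : ℕ) : W m = 0 := by
  have h1 : ∀ j m, X ^ j ∣ W m := by
    intro j
    induction j with
    | zero => intro m; simp
    | succ j ih => intro m; exact h m j (ih (m + 1))
  ext n
  rw [map_zero]
  exact X_pow_dvd_iff.1 (h1 (n + 1) m) n (Nat.lt_succ_self n)

lemma dvd_of_unit {j : ℕ} {u A B : AA} (hu : constantCoeff u ≠ 0) (h : X ^ 2 * A = u * B) (hA : X ^ j ∣ A) :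
    X ^ (j + 2) ∣ B := by
  have h1 : X ^ (j + 2) ∣ u * B := by
    rw [← h]
    obtain ⟨t, ht⟩ := hA
    exact ⟨t, by rw [ht]; ring⟩
  have h2 : B = u⁻¹ * (u * B) := by rw [← mul_assoc, PowerSeries.inv_mul_cancel _ hu, one_mul]
  rw [h2]
  exact Dvd.dvd.mul_left h1 _

lemma ring_in {A : Type*} [CommRing A] {x s N G R1 R2 R1' R2' S1 S2 S1' S2' : A} (hs : s * (1 + x) = x)
    (e1 : x ^ 2 * N ^ 2 * R1' = (x ^ 2 * N ^ 2 - 1) * R1 + N * G)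
    (e2 : x ^ 2 * N ^ 2 * R2' = (x ^ 2 * N ^ 2 - 1) * R2 + G)
    (e3 : s ^ 2 * N ^ 2 * S1' = (s ^ 2 * N ^ 2 - 1) * S1 + N * G)
    (e4 : s ^ 2 * N ^ 2 * S2' = (s ^ 2 * N ^ 2 - 1) * S2 + G) :
    x ^ 2 * (N ^ 2 * (-(N * x - 1) * (S2' + s * S1') - (1 + x) * ((N + 1) * x + 1) * (R2' - x * R1'))) =
      ((N * x - 1) * ((N + 1) * x + 1)) *
        (-((N - 1) * x - 1) * (S2 + s * S1) - (1 + x) * (N * x + 1) * (R2 - x * R1)) := by
  have hs2 : (1 + x) ^ 2 * s ^ 2 = x ^ 2 := by rw [← mul_pow, mul_comm (1 + x) s, hs]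
  have f3 : x ^ 2 * N ^ 2 * S1' = (x ^ 2 * N ^ 2 - (1 + x) ^ 2) * S1 + (1 + x) ^ 2 * (N * G) := by
    linear_combination (1 + x) ^ 2 * e3 + (N ^ 2 * S1 - N ^ 2 * S1') * hs2
  have f4 : x ^ 2 * N ^ 2 * S2' = (x ^ 2 * N ^ 2 - (1 + x) ^ 2) * S2 + (1 + x) ^ 2 * G := by
    linear_combination (1 + x) ^ 2 * e4 + (N ^ 2 * S2 - N ^ 2 * S2') * hs2
  linear_combination (-(N * x - 1)) * f4 + (-(N * x - 1)) * s * f3 - (1 + x) * ((N + 1) * x + 1) * e2 +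
      (1 + x) * ((N + 1) * x + 1) * x * e1 + (-(N * x - 1)) * (1 + x) * N * G * hs

theorem in_step (g : ℕ → ℝ) : sg (X ^ 2 * Ri (fun m => g m / ((m : ℝ) + 1)) 0) =
    X ^ 2 * Ri (fun m => g m / ((m : ℝ) + 1)) 0 - sg (X ^ 3 * Ri g 0) - X ^ 3 * Ri g 0 := by
  obtain ⟨g', hg'⟩ : ∃ g' : ℕ → ℝ, g' = fun m => g m / ((m : ℝ) + 1) := ⟨_, rfl⟩
  rw [← hg']
  have hs := sg_X'
  obtain ⟨W, hW⟩ : ∃ W : ℕ → AA, W = fun m : ℕ => -((C ((m : ℝ) + 1) - 1) * X - 1) * (sg (Ri g' m) + sg X * sg (Ri g m)) -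
    (1 + X) * (C ((m : ℝ) + 1) * X + 1) * (Ri g' m - X * Ri g m) := ⟨_, rfl⟩
  have hrec : ∀ m : ℕ, X ^ 2 * (C ((m : ℝ) + 1) ^ 2 * W (m + 1)) =
      ((C ((m : ℝ) + 1) * X - 1) * ((C ((m : ℝ) + 1) + 1) * X + 1)) * W m := by
    intro m
    have e1 := Ri_rec g m
    have e2 := Ri_rec g' m
    have e3 := congrArg sg e1
    have e4 := congrArg sg e2
    simp only [map_mul sg, map_pow sg, map_add sg, map_sub sg, map_one sg, sg_C] at e3 e4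
    have e5 : (C (g m) : AA) = C ((m : ℝ) + 1) * C (g' m) := by
      rw [← map_mul, hg']
      congr 1
      field_simp
    have e6 : (C (((m + 1 : ℕ) : ℝ) + 1) : AA) = C ((m : ℝ) + 1) + 1 := by
      rw [← map_one (C (R := ℝ)), ← map_add]
      congr 1
      push_cast
      ring
    rw [e5] at e1 e3
    rw [hW]
    simp only
    rw [e6, add_sub_cancel_right]
    exact ring_in hs e1 e2 e3 e4
  have h0 : W 0 = 0 := by
    refine eq_zero_of_dvd (fun m j hj => ?_) 0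
    have h1 := dvd_of_unit (j := j) (by simp) (hrec m) (Dvd.dvd.mul_left hj _)
    exact (pow_dvd_pow X (by omega)).trans h1
  rw [hW] at h0
  simp only [Nat.cast_zero, zero_add, map_one] at h0
  rw [map_mul sg, map_mul sg, map_pow sg, map_pow sg]
  have hs2 : sg X ^ 2 * (1 + X) ^ 2 = (X : AA) ^ 2 := by rw [← mul_pow, hs]
  linear_combination sg X ^ 2 * h0 + (Ri g' 0 - X * Ri g 0) * hs2

end Pool.Agent.L7h24.TS
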