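import Mathlib
import Pool.Agent.L7h24.TS.InL

/-!
# The outer series: division by `m` and the shift
-/

set_option autoImplicit false

namespace Pool.Agent.L7h24.TS

open PowerSeries Filter Topology

/-- the inverse of the summation `f ↦ ∑_{j > m} j^(-2) f j` -/
noncomputable def Do (f : ℕ → ℝ) (m : ℕ) : ℝ := (m : ℝ) ^ 2 * (f (m - 1) - f m)

noncomputable def Ro (f : ℕ → ℝ) (m : ℕ) : AA := ser fun j => (Do^[j] f) m

lemma Ro_eq (f : ℕ → ℝ) (m : ℕ) : Ro f m = C (f m) - X ^ 2 * Ro (Do f) m := by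
  unfold Ro
  rw [ser_eq]
  rfl

lemma Ro_D (f : ℕ → ℝ) (m : ℕ) : Ro (Do f) m = C ((m : ℝ) ^ 2) * (Ro f (m - 1) - Ro f m) := by
  unfold Ro
  rw [← ser_sub, ← ser_smul]
  congr 1
  funext j
  rw [← Function.iterate_succ_apply, Function.iterate_succ_apply']
  rfl

lemma Ro_rec (f : ℕ → ℝ) (m : ℕ) :
    X ^ 2 * C (m : ℝ) ^ 2 * Ro f (m - 1) = (X ^ 2 * C (m : ℝ) ^ 2 - 1) * Ro f m + C (f m) := by
  have h := Ro_eq f m
  rw [Ro_D, map_pow] at h
  linear_combination h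

lemma ring_out {A : Type*} [CommRing A] {x s N G R1 R2 R1' R2' S1 S2 S1' S2' : A} (hs : s * (1 + x) = x)
    (e1 : x ^ 2 * N ^ 2 * R1' = (x ^ 2 * N ^ 2 - 1) * R1 + N * G)
    (e2 : x ^ 2 * N ^ 2 * R2' = (x ^ 2 * N ^ 2 - 1) * R2 + G)
    (e3 : s ^ 2 * N ^ 2 * S1' = (s ^ 2 * N ^ 2 - 1) * S1 + N * G)
    (e4 : s ^ 2 * N ^ 2 * S2' = (s ^ 2 * N ^ 2 - 1) * S2 + G) :
    x ^ 2 * (N ^ 2 * (((N - 1) * x - 1) * (x * R2' + x ^ 2 * R1') + (N * x + 1) * (s * S2' - s ^ 2 * S1'))) =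
      (((N - 1) * x - 1) * (N * x + 1)) *
        ((N * x - 1) * (x * R2 + x ^ 2 * R1) + ((N + 1) * x + 1) * (s * S2 - s ^ 2 * S1)) := by
  have hs2 : (1 + x) ^ 2 * s ^ 2 = x ^ 2 := by rw [← mul_pow, mul_comm (1 + x) s, hs]
  have f3 : x ^ 2 * N ^ 2 * S1' = (x ^ 2 * N ^ 2 - (1 + x) ^ 2) * S1 + (1 + x) ^ 2 * (N * G) := by
    linear_combination (1 + x) ^ 2 * e3 + (N ^ 2 * S1 - N ^ 2 * S1') * hs2
  have f4 : x ^ 2 * N ^ 2 * S2' = (x ^ 2 * N ^ 2 - (1 + x) ^ 2) * S2 + (1 + x) ^ 2 * G := by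
    linear_combination (1 + x) ^ 2 * e4 + (N ^ 2 * S2 - N ^ 2 * S2') * hs2
  have e : (1 + x) ^ 2 * s - (1 + x) ^ 2 * s ^ 2 * N - x * (1 + x - N * x) = 0 := by
    linear_combination ((1 + x) - N * ((1 + x) * s + x)) * hs
  linear_combination ((N - 1) * x - 1) * (x * e2 + x ^ 2 * e1) + (N * x + 1) * (s * f4 - s ^ 2 * f3) +
    (N * x + 1) * G * e

/-- the step: `ψ ↦ ψ'` -/
theorem out_step {f : ℕ → ℝ} {r r' : ℕ → ℝ} (hr : ∀ j, Tendsto (Do^[j] f) atTop (𝓝 (r j)))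
    (hr' : ∀ j, Tendsto (Do^[j] fun m => f m / (m : ℝ)) atTop (𝓝 (r' j))) :
    sg (X * ser r') = -(X * ser r') + sg (X ^ 2 * ser r) - X ^ 2 * ser r := by
  obtain ⟨f', hf'⟩ : ∃ f' : ℕ → ℝ, f' = fun m => f m / (m : ℝ) := ⟨_, rfl⟩
  rw [← hf'] at hr'
  have hs := sg_X'
  obtain ⟨W, hW⟩ : ∃ W : ℕ → AA, W = fun m : ℕ => (C (m : ℝ) * X - 1) * (X * Ro f' m + X ^ 2 * Ro f m) +
    ((C (m : ℝ) + 1) * X + 1) * (sg X * sg (Ro f' m) - sg X ^ 2 * sg (Ro f m)) := ⟨_, rfl⟩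
  have hrec : ∀ m : ℕ, X ^ 2 * (C ((m + 1 : ℕ) : ℝ) ^ 2 * W m) =
      (((C ((m + 1 : ℕ) : ℝ) - 1) * X - 1) * (C ((m + 1 : ℕ) : ℝ) * X + 1)) * W (m + 1) := by
    intro m
    have e1 := Ro_rec f (m + 1)
    have e2 := Ro_rec f' (m + 1)
    rw [Nat.add_sub_cancel] at e1 e2
    have e3 := congrArg sg e1
    have e4 := congrArg sg e2
    simp only [map_mul sg, map_pow sg, map_add sg, map_sub sg, map_one sg, sg_C] at e3 e4
    have e5 : (C (f (m + 1)) : AA) = C ((m + 1 : ℕ) : ℝ) * C (f' (m + 1)) := by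
      rw [← map_mul, hf']
      congr 1
      have : ((m + 1 : ℕ) : ℝ) ≠ 0 := by positivity
      field_simp
    have e6 : (C (m : ℝ) : AA) = C ((m + 1 : ℕ) : ℝ) - 1 := by
      rw [← map_one (C (R := ℝ)), ← map_sub]
      congr 1
      push_cast
      ring
    rw [e5] at e1 e3
    rw [hW]
    simp only
    rw [e6, sub_add_cancel]
    exact ring_out hs e1 e2 e3 e4
  have hdiv : ∀ j m, j ≤ m → X ^ (2 * j) ∣ W m := by
    intro j
    induction j with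
    | zero => intro m _; simp
    | succ j ih =>
      intro m hm
      obtain ⟨m, rfl⟩ : ∃ m', m = m' + 1 := ⟨m - 1, by omega⟩
      exact dvd_of_unit (j := 2 * j) (by simp) (hrec m) (Dvd.dvd.mul_left (ih m (by omega)) _)
  -- the limit
  have hR : CT (Ro f) (ser r) := CT.ser fun j => hr j
  have hR' : CT (Ro f') (ser r') := CT.ser fun j => hr' j
  have hSR : CT (fun m => sg (Ro f m)) (sg (ser r)) := CT.sb ss_cc hR
  have hSR' : CT (fun m => sg (Ro f' m)) (sg (ser r')) := CT.sb ss_cc hR'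
  have hinv : CT (fun m : ℕ => (C (1 / (m : ℝ)) : AA)) (C 0) := CT.C tendsto_one_div_atTop_nhds_zero_nat
  have h1 : CT (fun m : ℕ => (X - C (1 / (m : ℝ))) * (X * Ro f' m + X ^ 2 * Ro f m) +
      ((1 + C (1 / (m : ℝ))) * X + C (1 / (m : ℝ))) * (sg X * sg (Ro f' m) - sg X ^ 2 * sg (Ro f m)))
      ((X - C 0) * (X * ser r' + X ^ 2 * ser r) +
      ((1 + C 0) * X + C 0) * (sg X * sg (ser r') - sg X ^ 2 * sg (ser r))) :=
    (((CT.const X).sub hinv).mul (((CT.const X).mul hR').add ((CT.const (X ^ 2)).mul hR))).add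
      (((((CT.const 1).add hinv).mul (CT.const X)).add hinv).mul
        (((CT.const (sg X)).mul hSR').sub ((CT.const (sg X ^ 2)).mul hSR)))
  have h2 : CT (fun m : ℕ => (X - C (1 / (m : ℝ))) * (X * Ro f' m + X ^ 2 * Ro f m) +
      ((1 + C (1 / (m : ℝ))) * X + C (1 / (m : ℝ))) * (sg X * sg (Ro f' m) - sg X ^ 2 * sg (Ro f m))) 0 := by
    intro n
    refine tendsto_const_nhds.congr' ?_
    filter_upwards [eventually_ge_atTop (n + 1)] with m hm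
    have hm0 : (m : ℝ) ≠ 0 := by
      have : 0 < m := by omega
      positivity
    have h3 : (X - C (1 / (m : ℝ))) * (X * Ro f' m + X ^ 2 * Ro f m) +
        ((1 + C (1 / (m : ℝ))) * X + C (1 / (m : ℝ))) * (sg X * sg (Ro f' m) - sg X ^ 2 * sg (Ro f m)) =
        C (1 / (m : ℝ)) * W m := by
      have h4 : (C (1 / (m : ℝ)) : AA) * C (m : ℝ) = 1 := by
        rw [← map_mul, one_div, inv_mul_cancel₀ hm0, map_one]
      rw [hW]
      simp only
      linear_combination (-X * (X * Ro f' m + X ^ 2 * Ro f m) -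
        X * (sg X * sg (Ro f' m) - sg X ^ 2 * sg (Ro f m))) * h4
    rw [h3, coeff_C_mul, X_pow_dvd_iff.1 (hdiv (n + 1) m hm) n (by omega), mul_zero, map_zero]
  have h3 := h1.unique h2
  simp only [map_zero, sub_zero, add_zero, one_mul] at h3
  rw [← mul_add] at h3
  have h4 := (mul_eq_zero.1 h3).resolve_left X_ne_zero
  rw [map_mul sg, map_mul sg, map_pow sg]
  linear_combination h4

end Pool.Agent.L7h24.TS
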