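import Mathlib
import Pool.Agent.L7h24.TS.OutL
import Pool.Agent.L7h24.CS.Fin2

/-!
# Words, and the series of a word
-/

set_option autoImplicit false

namespace Pool.Agent.L7h24.TS

open PowerSeries Filter Topology
open Pool.Agent.H447R2.MZ (H H_nil H_cons H_cons_zero H_cons_succ H_nonneg Adm val tendsto_H H_le_val)
open Pool.Agent.L7h24.CS (T T_nil T_left T_le T_nonneg T_tendsto_zero AE ae_T expand_T w2 w2_ge w2_succ' w2_zero x_nonneg
  x_le_one)

abbrev St : Type := List ℕ × ℕ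

def Xs (t : St) : St := (t.1, t.2 + 1)

def Ys (t : St) : St := ((t.2 + 2) :: t.1, 0)

def st : List ℕ → St
  | [] => ([], 0)
  | e :: P => Xs (Ys^[e] (st P))

def Good (t : St) : Prop := ∀ x ∈ t.1, 2 ≤ x

lemma good_X {t : St} (h : Good t) : Good (Xs t) := h

lemma good_Y {t : St} (h : Good t) : Good (Ys t) := by
  intro x hx
  rcases List.mem_cons.1 hx with rfl | hx
  · omega
  · exact h x hx

lemma good_Yn {t : St} (h : Good t) (e : ℕ) : Good (Ys^[e] t) := by
  induction e with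
  | zero => exact h
  | succ e ih =>
    rw [Function.iterate_succ_apply']
    exact good_Y ih

lemma good_st (P : List ℕ) : Good (st P) := by
  induction P with
  | nil => intro x hx; simp [st] at hx
  | cons e P ih => exact good_X (good_Yn ih e)

lemma enc (l : List ℕ) (hl : ∀ x ∈ l, 2 ≤ x) : ∃ e P, ((l, 0) : St) = Ys^[e] (st P) := by
  induction l with
  | nil => exact ⟨0, [], rfl⟩
  | cons k l ih =>
    obtain ⟨e, P, h⟩ := ih fun x hx => hl x (List.mem_cons_of_mem _ hx)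
    have hk : 2 ≤ k := hl k List.mem_cons_self
    obtain ⟨i, rfl⟩ : ∃ i, k = i + 2 := ⟨k - 2, by omega⟩
    cases i with
    | zero =>
      refine ⟨e + 1, P, ?_⟩
      rw [Function.iterate_succ_apply', ← h]
      rfl
    | succ i =>
      have h2 : ∀ i : ℕ, ∃ P', ((l, i + 1) : St) = st P' := by
        intro i
        induction i with
        | zero => exact ⟨e :: P, by rw [st, ← h]; rfl⟩
        | succ i ih =>
          obtain ⟨P', hP'⟩ := ih
          exact ⟨0 :: P', by rw [st, Function.iterate_zero_apply, ← hP']; rfl⟩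
      obtain ⟨P', hP'⟩ := h2 i
      refine ⟨1, P', ?_⟩
      rw [Function.iterate_one, ← hP']
      rfl

lemma Y_iter (l : List ℕ) (i : ℕ) : Ys^[i] ((l, 0) : St) = (w2 i ++ l, 0) := by
  induction i with
  | zero => rfl
  | succ i ih =>
    rw [Function.iterate_succ_apply', ih]
    rfl

lemma dec {l l1 : List ℕ} {e i : ℕ} {P : List ℕ} (h : ((l, 0) : St) = Ys^[e] (st P))
    (h1 : ((l1, 0) : St) = Ys^[i + e] (st P)) : l1 = w2 i ++ l := by
  rw [Function.iterate_add_apply, ← h, Y_iter] at h1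
  exact (Prod.ext_iff.1 h1).1

/-! ### The inner series -/

noncomputable def fI (t : St) (m : ℕ) : ℝ := H t.1 m / ((m : ℝ) + 1) ^ t.2

noncomputable def ph (t : St) : AA := X ^ 2 * Ri (fI t) 0

lemma ph_X (t : St) : sg (ph (Xs t)) = ph (Xs t) - sg (X * ph t) - X * ph t := by
  have h := in_step (fI t)
  have e : (fun m : ℕ => fI t m / ((m : ℝ) + 1)) = fI (Xs t) := by
    funext m
    rw [fI, fI, Xs, pow_succ, div_div]
  rw [e] at h
  unfold ph
  rw [h]
  ring_nf

lemma ser_zero : ser (fun _ => (0 : ℝ)) = 0 := by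
  have h2 := ser_smul 0 (fun _ => (0 : ℝ))
  rw [map_zero, zero_mul] at h2
  simpa using h2

lemma Ri_zero (m : ℕ) : Ri (fun _ => 0) m = 0 := by
  have h : ∀ j : ℕ, Di^[j] (fun _ => (0 : ℝ)) = fun _ => 0 := by
    intro j
    induction j with
    | zero => rfl
    | succ j ih =>
      rw [Function.iterate_succ_apply', ih]
      funext m
      simp [Di]
  unfold Ri
  simp only [h]
  exact ser_zero

lemma ph_nil : ph ([], 0) = X ^ 2 := by
  unfold ph
  have e : fI ([], 0) = fun _ => (1 : ℝ) := by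
    funext m
    simp [fI, H_nil]
  have e2 : Di (fun _ => (1 : ℝ)) = fun _ => 0 := by
    funext m
    simp [Di]
  rw [e, Ri_eq, e2, Ri_zero, map_one, mul_zero, sub_zero, mul_one]

lemma Di_fI (t : St) : Di (fI (Ys t)) = fI t := by
  funext m
  simp only [Di, fI, Ys, pow_zero, div_one]
  rw [H_cons_succ]
  push_cast
  have : ((m : ℝ) + 1) ≠ 0 := by positivity
  rw [pow_add]
  field_simp
  ring

lemma ph_Y (t : St) : ph (Ys t) = -(X ^ 2 * ph t) := by
  unfold ph
  rw [Ri_eq (fI (Ys t)), Di_fI]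
  have e : fI (Ys t) 0 = 0 := by
    simp only [fI, Ys]
    rw [H_cons_zero, zero_div]
  rw [e, map_zero]
  ring

/-! ### The outer series -/

noncomputable def fO (t : St) (m : ℕ) : ℝ := T t.1.reverse m / (m : ℝ) ^ t.2

noncomputable def ro (f : ℕ → ℝ) (j : ℕ) : ℝ := limUnder atTop (Do^[j] f)

def ExK (f r : ℕ → ℝ) (K : ℕ) : Prop :=
  ∃ C : ℝ, ∀ m : ℕ, 1 ≤ m → |f m - ∑ i ∈ Finset.range K, r i * T (w2 i) m| ≤ C * (1 / (m : ℝ)) ^ K

lemma Do_T2 (i : ℕ) {m : ℕ} (hm : 2 ≤ m) : (m : ℝ) ^ 2 * (T (w2 (i + 1)) (m - 1) - T (w2 (i + 1)) m) = T (w2 i) m := by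
  obtain ⟨m, rfl⟩ : ∃ m', m = m' + 1 := ⟨m - 1, by omega⟩
  rw [Nat.add_sub_cancel, w2_succ', T_left (w2_ge i) le_rfl (by omega : 1 ≤ m)]
  have h : ((m + 1 : ℕ) : ℝ) ≠ 0 := by positivity
  field_simp
  ring

lemma D_step {f r : ℕ → ℝ} {K : ℕ} (h : ExK f r (K + 2)) : ExK (Do f) (fun i => r (i + 1)) K := by
  obtain ⟨C, hC⟩ := h
  have hC0 : 0 ≤ C := by
    have := (abs_nonneg _).trans (hC 1 le_rfl)
    simpa using this
  refine ⟨C * 2 ^ (K + 2) + C + |r (K + 1)| + |Do f 1 - ∑ i ∈ Finset.range K, r (i + 1) * T (w2 i) 1|, fun m hm => ?_⟩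
  have hx : (0 : ℝ) ≤ (1 / (m : ℝ)) ^ K := by positivity
  rcases Nat.lt_or_ge m 2 with h1 | h1
  · obtain rfl : m = 1 := by omega
    simp only [Nat.cast_one, div_one, one_pow, mul_one]
    have : 0 ≤ C * 2 ^ (K + 2) + C + |r (K + 1)| := by positivity
    linarith
  · have hm0 : (0 : ℝ) < m := by
      have : 0 < m := by omega
      positivity
    have hm1 : (1 : ℝ) ≤ ((m - 1 : ℕ) : ℝ) := by exact_mod_cast (by omega : 1 ≤ m - 1)
    have e1 := hC (m - 1) (by omega)
    have e2 := hC m hm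
    have hS : (m : ℝ) ^ 2 * (∑ i ∈ Finset.range (K + 2), r i * T (w2 i) (m - 1) -
        ∑ i ∈ Finset.range (K + 2), r i * T (w2 i) m) = ∑ i ∈ Finset.range (K + 1), r (i + 1) * T (w2 i) m := by
      rw [← Finset.sum_sub_distrib, Finset.sum_range_succ', w2_zero, T_nil (by omega), T_nil hm, sub_self, add_zero,
        Finset.mul_sum]
      refine Finset.sum_congr rfl fun i _ => ?_
      rw [← Do_T2 i h1]
      ring
    rw [Finset.sum_range_succ (fun i => r (i + 1) * T (w2 i) m)] at hS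
    have e3 : Do f m - ∑ i ∈ Finset.range K, r (i + 1) * T (w2 i) m =
        (m : ℝ) ^ 2 * ((f (m - 1) - ∑ i ∈ Finset.range (K + 2), r i * T (w2 i) (m - 1)) -
          (f m - ∑ i ∈ Finset.range (K + 2), r i * T (w2 i) m)) + r (K + 1) * T (w2 K) m := by
      rw [Do]
      linear_combination hS
    rw [e3]
    have e4 : (1 / ((m - 1 : ℕ) : ℝ)) ≤ 2 * (1 / (m : ℝ)) := by
      rw [mul_one_div, div_le_div_iff₀ (by linarith) hm0]
      have : (m : ℝ) = ((m - 1 : ℕ) : ℝ) + 1 := by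
        rw [← Nat.cast_succ]
        congr 1
        omega
      rw [this]
      linarith
    have e5 : (1 / ((m - 1 : ℕ) : ℝ)) ^ (K + 2) ≤ 2 ^ (K + 2) * (1 / (m : ℝ)) ^ (K + 2) := by
      rw [← mul_pow]
      exact pow_le_pow_left₀ (by positivity) e4 _
    have e6 : (m : ℝ) ^ 2 * (1 / (m : ℝ)) ^ (K + 2) = (1 / (m : ℝ)) ^ K := by
      rw [pow_add]
      field_simp
    have e7 : |r (K + 1) * T (w2 K) m| ≤ |r (K + 1)| * (1 / (m : ℝ)) ^ K := by
      rw [abs_mul, abs_of_nonneg (T_nonneg (w2_ge K) hm)]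
      have := T_le (w2_ge K) hm
      rw [List.length_replicate] at this
      exact mul_le_mul_of_nonneg_left this (abs_nonneg _)
    refine (abs_add_le _ _).trans ?_
    rw [abs_mul, abs_of_nonneg (by positivity : (0 : ℝ) ≤ (m : ℝ) ^ 2)]
    have e8 : (m : ℝ) ^ 2 * |(f (m - 1) - ∑ i ∈ Finset.range (K + 2), r i * T (w2 i) (m - 1)) -
          (f m - ∑ i ∈ Finset.range (K + 2), r i * T (w2 i) m)| ≤ (C * 2 ^ (K + 2) + C) * (1 / (m : ℝ)) ^ K := by
      calc _ ≤ (m : ℝ) ^ 2 * (C * (2 ^ (K + 2) * (1 / (m : ℝ)) ^ (K + 2)) + C * (1 / (m : ℝ)) ^ (K + 2)) := by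
            refine mul_le_mul_of_nonneg_left ((abs_sub _ _).trans (add_le_add (e1.trans ?_) e2)) (by positivity)
            exact mul_le_mul_of_nonneg_left e5 hC0
        _ = (C * 2 ^ (K + 2) + C) * ((m : ℝ) ^ 2 * (1 / (m : ℝ)) ^ (K + 2)) := by ring
        _ = _ := by rw [e6]
    have e9 := abs_nonneg (Do f 1 - ∑ i ∈ Finset.range K, r (i + 1) * T (w2 i) 1)
    calc _ ≤ (C * 2 ^ (K + 2) + C) * (1 / (m : ℝ)) ^ K + |r (K + 1)| * (1 / (m : ℝ)) ^ K := add_le_add e8 e7
      _ ≤ _ := by nlinarith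

lemma ex_lim {f r : ℕ → ℝ} {j : ℕ} (h : ExK f r (2 * j + 1)) : Tendsto (Do^[j] f) atTop (𝓝 (r j)) := by
  induction j generalizing f r with
  | zero =>
    obtain ⟨C, hC⟩ := h
    rw [Function.iterate_zero, id, tendsto_iff_norm_sub_tendsto_zero]
    have h1 : Tendsto (fun m : ℕ => C * (1 / (m : ℝ))) atTop (𝓝 0) := by
      have := tendsto_one_div_atTop_nhds_zero_nat.const_mul C
      rwa [mul_zero] at this
    refine squeeze_zero' (Eventually.of_forall fun _ => norm_nonneg _) ?_ h1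
    filter_upwards [eventually_ge_atTop 1] with m hm
    have := hC m hm
    rw [mul_zero, zero_add, Finset.sum_range_one, w2_zero, T_nil hm, mul_one, pow_one] at this
    rwa [Real.norm_eq_abs]
  | succ j ih =>
    rw [Function.iterate_succ]
    exact ih (D_step (K := 2 * j + 1) h)

lemma ae_q {f : ℕ → ℝ} (hf : AE f) (j : ℕ) : ∃ q : ℚ, Tendsto (Do^[j] f) atTop (𝓝 (q : ℝ)) := by
  obtain ⟨r, C, h⟩ := expand_T hf (2 * j + 1)
  exact ⟨r j, ex_lim (r := fun i => (r i : ℝ)) ⟨C, h⟩⟩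

lemma ro_lim {f : ℕ → ℝ} (hf : AE f) (j : ℕ) : Tendsto (Do^[j] f) atTop (𝓝 (ro f j)) := by
  obtain ⟨q, hq⟩ := ae_q hf j
  rw [ro, hq.limUnder_eq]
  exact hq

lemma ro_rat {f : ℕ → ℝ} (hf : AE f) (j : ℕ) : ∃ q : ℚ, (q : ℝ) = ro f j := by
  obtain ⟨q, hq⟩ := ae_q hf j
  exact ⟨q, tendsto_nhds_unique hq (ro_lim hf j)⟩

lemma ro_ex {f : ℕ → ℝ} (hf : AE f) (K : ℕ) : ExK f (ro f) K := by
  obtain ⟨r, C, h⟩ := expand_T hf (2 * K + 1)
  have h1 : ∀ i < K, (r i : ℝ) = ro f i := by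
    intro i hi
    obtain ⟨r', C', h'⟩ := expand_T hf (2 * i + 1)
    -- restrict the long expansion
    have h2 : ExK f (fun i => (r i : ℝ)) (2 * i + 1) := by
      refine ⟨|C| + ∑ l ∈ Finset.Ico (2 * i + 1) (2 * K + 1), |(r l : ℝ)|, fun m hm => ?_⟩
      have h3 := h m hm
      rw [← Finset.sum_range_add_sum_Ico _ (show 2 * i + 1 ≤ 2 * K + 1 by omega)] at h3
      have h4 : |∑ l ∈ Finset.Ico (2 * i + 1) (2 * K + 1), (r l : ℝ) * T (w2 l) m| ≤
          (∑ l ∈ Finset.Ico (2 * i + 1) (2 * K + 1), |(r l : ℝ)|) * (1 / (m : ℝ)) ^ (2 * i + 1) := by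
        rw [Finset.sum_mul]
        refine (Finset.abs_sum_le_sum_abs _ _).trans (Finset.sum_le_sum fun l hl => ?_)
        rw [abs_mul, abs_of_nonneg (T_nonneg (w2_ge l) hm)]
        have h5 := T_le (w2_ge l) hm
        rw [List.length_replicate] at h5
        exact mul_le_mul_of_nonneg_left
          (h5.trans (pow_le_pow_of_le_one (x_nonneg m) (x_le_one m) (Finset.mem_Ico.1 hl).1)) (abs_nonneg _)
      have h5 : C * (1 / (m : ℝ)) ^ (2 * K + 1) ≤ |C| * (1 / (m : ℝ)) ^ (2 * i + 1) :=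
        mul_le_mul (le_abs_self _) (pow_le_pow_of_le_one (x_nonneg m) (x_le_one m) (by omega)) (by positivity)
          (abs_nonneg _)
      have h6 : f m - ∑ l ∈ Finset.range (2 * i + 1), (r l : ℝ) * T (w2 l) m =
          (f m - (∑ l ∈ Finset.range (2 * i + 1), (r l : ℝ) * T (w2 l) m +
            ∑ l ∈ Finset.Ico (2 * i + 1) (2 * K + 1), (r l : ℝ) * T (w2 l) m)) +
            ∑ l ∈ Finset.Ico (2 * i + 1) (2 * K + 1), (r l : ℝ) * T (w2 l) m := by ring
      rw [h6, add_mul]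
      exact (abs_add_le _ _).trans (add_le_add (h3.trans h5) h4)
    exact tendsto_nhds_unique (ex_lim h2) (ro_lim hf i)
  refine ⟨|C| + ∑ l ∈ Finset.Ico K (2 * K + 1), |(r l : ℝ)|, fun m hm => ?_⟩
  have h3 := h m hm
  rw [← Finset.sum_range_add_sum_Ico _ (show K ≤ 2 * K + 1 by omega)] at h3
  have h4 : |∑ l ∈ Finset.Ico K (2 * K + 1), (r l : ℝ) * T (w2 l) m| ≤
      (∑ l ∈ Finset.Ico K (2 * K + 1), |(r l : ℝ)|) * (1 / (m : ℝ)) ^ K := by
    rw [Finset.sum_mul]
    refine (Finset.abs_sum_le_sum_abs _ _).trans (Finset.sum_le_sum fun l hl => ?_)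
    rw [abs_mul, abs_of_nonneg (T_nonneg (w2_ge l) hm)]
    have h5 := T_le (w2_ge l) hm
    rw [List.length_replicate] at h5
    exact mul_le_mul_of_nonneg_left
      (h5.trans (pow_le_pow_of_le_one (x_nonneg m) (x_le_one m) (Finset.mem_Ico.1 hl).1)) (abs_nonneg _)
  have h5 : C * (1 / (m : ℝ)) ^ (2 * K + 1) ≤ |C| * (1 / (m : ℝ)) ^ K :=
    mul_le_mul (le_abs_self _) (pow_le_pow_of_le_one (x_nonneg m) (x_le_one m) (by omega)) (by positivity)
      (abs_nonneg _)
  have h7 : ∑ i ∈ Finset.range K, ro f i * T (w2 i) m = ∑ i ∈ Finset.range K, (r i : ℝ) * T (w2 i) m :=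
    Finset.sum_congr rfl fun i hi => by rw [h1 i (Finset.mem_range.1 hi)]
  have h6 : f m - ∑ l ∈ Finset.range K, ro f l * T (w2 l) m =
      (f m - (∑ l ∈ Finset.range K, (r l : ℝ) * T (w2 l) m +
        ∑ l ∈ Finset.Ico K (2 * K + 1), (r l : ℝ) * T (w2 l) m)) +
        ∑ l ∈ Finset.Ico K (2 * K + 1), (r l : ℝ) * T (w2 l) m := by rw [h7]; ring
  rw [h6, add_mul]
  exact (abs_add_le _ _).trans (add_le_add (h3.trans h5) h4)

lemma good_rev {t : St} (h : Good t) : ∀ x ∈ t.1.reverse, 2 ≤ x := fun x hx => h x (List.mem_reverse.1 hx)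

lemma ae_fO {t : St} (h : Good t) : AE (fO t) := by
  refine ((ae_T (good_rev h)).mul (AE.x.pow t.2)).congr fun m _ => ?_
  rw [fO, one_div, inv_pow]
  rfl

noncomputable def ps (t : St) : AA := X * ser (ro (fO t))

lemma ps_X {t : St} (h : Good t) : sg (ps (Xs t)) = -ps (Xs t) + sg (X * ps t) - X * ps t := by
  have e : (fun m : ℕ => fO t m / (m : ℝ)) = fO (Xs t) := by
    funext m
    rw [fO, fO, Xs, pow_succ, div_div]
  have h1 := out_step (f := fO t) (r := ro (fO t)) (r' := ro (fO (Xs t))) (ro_lim (ae_fO h)) (by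
    rw [e]
    exact ro_lim (ae_fO (good_X h)))
  unfold ps
  rw [h1]
  ring_nf

lemma Do_congr {f g : ℕ → ℝ} {a : ℕ} (h : ∀ m, a ≤ m → f m = g m) (j : ℕ) :
    ∀ m, a + j ≤ m → (Do^[j] f) m = (Do^[j] g) m := by
  induction j with
  | zero => exact h
  | succ j ih =>
    intro m hm
    rw [Function.iterate_succ_apply', Function.iterate_succ_apply', Do, Do, ih m (by omega), ih (m - 1) (by omega)]

lemma ro_congr {f g : ℕ → ℝ} {a : ℕ} (h : ∀ m, a ≤ m → f m = g m) (hg : AE g) (j : ℕ) : ro f j = ro g j := by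
  rw [ro]
  refine Tendsto.limUnder_eq ((ro_lim hg j).congr' ?_)
  filter_upwards [eventually_ge_atTop (a + j)] with m hm
  exact (Do_congr h j m hm).symm

lemma Do_zero (j : ℕ) : Do^[j] (fun _ => (0 : ℝ)) = fun _ => 0 := by
  induction j with
  | zero => rfl
  | succ j ih =>
    rw [Function.iterate_succ_apply', ih]
    funext m
    simp [Do]

lemma ps_nil : ps ([], 0) = X := by
  have h0 : ro (fO ([], 0)) 0 = 1 := by
    rw [ro]
    refine Tendsto.limUnder_eq (tendsto_const_nhds.congr' ?_)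
    filter_upwards [eventually_ge_atTop 1] with m hm
    simp [fO, T_nil hm]
  have h1 : ∀ n, ro (fO ([], 0)) (n + 1) = 0 := by
    intro n
    rw [ro]
    refine Tendsto.limUnder_eq (tendsto_const_nhds.congr' ?_)
    filter_upwards [eventually_ge_atTop (2 + n)] with m hm
    rw [Function.iterate_succ_apply, Do_congr (f := Do (fO ([], 0))) (g := fun _ => 0) (a := 2) (fun m hm => ?_) n m hm,
      Do_zero]
    simp only [Do, fO, List.reverse_nil, pow_zero, div_one]
    rw [T_nil (by omega), T_nil (by omega), sub_self, mul_zero]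
  unfold ps
  rw [ser_eq, h0]
  simp only [h1]
  rw [ser_zero, map_one, mul_zero, sub_zero, mul_one]

lemma ps_Y {t : St} (h : Good t) : ps (Ys t) = -(X ^ 2 * ps t) := by
  have h0 : ro (fO (Ys t)) 0 = 0 := by
    rw [ro]
    refine Tendsto.limUnder_eq ?_
    have h1 := T_tendsto_zero (good_rev (good_Y h)) (by simp [Ys])
    refine h1.congr fun m => ?_
    simp [fO, Ys]
  have h1 : ∀ n, ro (fO (Ys t)) (n + 1) = ro (fO t) n := by
    intro n
    rw [ro]
    refine Tendsto.limUnder_eq ((ro_lim (ae_fO h) n).congr' ?_)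
    filter_upwards [eventually_ge_atTop (2 + n)] with m hm
    rw [Function.iterate_succ_apply]
    refine (Do_congr (f := Do (fO (Ys t))) (g := fO t) (a := 2) (fun m hm => ?_) n m hm).symm
    obtain ⟨m, rfl⟩ : ∃ m', m = m' + 1 := ⟨m - 1, by omega⟩
    simp only [Do, fO, Ys, List.reverse_cons, pow_zero, div_one, Nat.add_sub_cancel]
    rw [T_left (good_rev h) (by omega) (by omega : 1 ≤ m)]
    have h2 : ((m + 1 : ℕ) : ℝ) ≠ 0 := by positivity
    rw [pow_add]
    field_simp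
    ring
  unfold ps
  rw [ser_eq, h0]
  simp only [h1]
  rw [map_zero]
  ring

end Pool.Agent.L7h24.TS
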