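import Mathlib
import Pool.Agent.L7h24.TS.St
import Pool.Agent.L7h24.TS.Fld

/-!
# Independence of the products of the outer and the inner series, and the theorem
-/

set_option autoImplicit false

namespace Pool.Agent.L7h24.TS

open Filter Topology
open Pool.Agent.H447R2.MZ (H H_nil H_cons H_cons_zero H_cons_succ H_nonneg Adm val tendsto_H H_le_val)
open Pool.Agent.L7h24.CS (T T_nil T_left T_le T_nonneg T_tendsto_zero AE ae_T expand_T expand_H w2 w2_ge w2_succ' w2_zero
  x_nonneg x_le_one ExT ExH tp tp_coeff expan_two Vt Z Z_nonneg Expan expo Vt_le alg_of)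

/-! ### The two families -/

def dO : List ℕ → ℕ
  | [] => 1
  | _ :: _ => 0

def dI : List ℕ → ℕ
  | [] => 2
  | _ :: _ => 0

noncomputable def sO : List ℕ → ℝ
  | [] => 1
  | e :: P => (-1) ^ e * sO P

noncomputable def sI : List ℕ → ℝ
  | [] => 1
  | e :: P => -((-1) ^ e * sI P)

noncomputable def fP : List ℕ → AA
  | [] => 1
  | e :: P => PowerSeries.C (sO (e :: P)) * ps (st (e :: P))

noncomputable def hQ : List ℕ → AA
  | [] => 1
  | e :: P => PowerSeries.C (sI (e :: P)) * ph (st (e :: P))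

def al (p : ℕ) (P : List ℕ) : ℕ := 2 * p + 1 + dO P

def be (p : ℕ) (P : List ℕ) : ℕ := 2 * p + 1 + dI P

lemma sO_sq (P : List ℕ) : sO P * sO P = 1 := by
  induction P with
  | nil => simp [sO]
  | cons e P ih =>
    rw [sO]
    have h : ((-1 : ℝ) ^ e) * (-1) ^ e = 1 := by rw [← mul_pow]; norm_num
    linear_combination h + ((-1 : ℝ) ^ e) * (-1) ^ e * (ih)  - 0 * h

lemma sI_sq (P : List ℕ) : sI P * sI P = 1 := by
  induction P with
  | nil => simp [sI]
  | cons e P ih =>
    rw [sI]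
    have h : ((-1 : ℝ) ^ e) * (-1) ^ e = 1 := by rw [← mul_pow]; norm_num
    linear_combination h + ((-1 : ℝ) ^ e) * (-1) ^ e * (ih)  - 0 * h

lemma ps_Yn {t : St} (h : Good t) (e : ℕ) : ps (Ys^[e] t) = PowerSeries.C ((-1) ^ e) * PowerSeries.X ^ (2 * e) * ps t := by
  induction e with
  | zero => simp
  | succ e ih =>
    rw [Function.iterate_succ_apply', ps_Y (good_Yn h e), ih, pow_succ (-1 : ℝ) e, map_mul, map_neg, map_one]
    ring

lemma ph_Yn (t : St) (e : ℕ) : ph (Ys^[e] t) = PowerSeries.C ((-1) ^ e) * PowerSeries.X ^ (2 * e) * ph t := by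
  induction e with
  | zero => simp
  | succ e ih =>
    rw [Function.iterate_succ_apply', ph_Y, ih, pow_succ (-1 : ℝ) e, map_mul, map_neg, map_one]
    ring

lemma ps_st (P : List ℕ) : ps (st P) = PowerSeries.C (sO P) * PowerSeries.X ^ dO P * fP P := by
  cases P with
  | nil =>
    rw [st, ps_nil, sO, dO, fP, map_one]
    ring
  | cons e P =>
    rw [fP, dO]
    have h : (PowerSeries.C (sO (e :: P)) : AA) * PowerSeries.C (sO (e :: P)) = 1 := by
      rw [← map_mul, sO_sq, map_one]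
    linear_combination (-(ps (st (e :: P)))) * h

lemma ph_st (P : List ℕ) : ph (st P) = PowerSeries.C (sI P) * PowerSeries.X ^ dI P * hQ P := by
  cases P with
  | nil =>
    rw [st, ph_nil, sI, dI, hQ, map_one]
    ring
  | cons e P =>
    rw [hQ, dI]
    have h : (PowerSeries.C (sI (e :: P)) : AA) * PowerSeries.C (sI (e :: P)) = 1 := by
      rw [← map_mul, sI_sq, map_one]
    linear_combination (-(ph (st (e :: P)))) * h

lemma f_rel (p : ℕ) (P : List ℕ) : sg (fP (p :: P)) =
    - fP (p :: P) + sg (PowerSeries.X ^ al p P * fP P) - PowerSeries.X ^ al p P * fP P := by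
  have h1 := ps_X (good_Yn (good_st P) p)
  rw [ps_Yn (good_st P), ps_st] at h1
  have h2 : (PowerSeries.C (sO (p :: P)) : AA) * PowerSeries.C ((-1) ^ p) * PowerSeries.C (sO P) = 1 := by
    rw [← map_mul, ← map_mul]
    have h : ((-1 : ℝ) ^ p) * (-1) ^ p = 1 := by rw [← mul_pow]; norm_num
    have h3 := sO_sq P
    rw [show sO (p :: P) * (-1) ^ p * sO P = 1 by
      rw [sO]
      linear_combination h + ((-1 : ℝ) ^ p) * (-1) ^ p * h3, map_one]
  have h3 : PowerSeries.X ^ al p P * fP P = PowerSeries.C (sO (p :: P)) * (PowerSeries.X *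
      (PowerSeries.C ((-1) ^ p) * PowerSeries.X ^ (2 * p) * (PowerSeries.C (sO P) * PowerSeries.X ^ dO P * fP P))) := by
    rw [al, pow_add, pow_add, pow_one]
    linear_combination (-(PowerSeries.X * PowerSeries.X ^ (2 * p) * PowerSeries.X ^ dO P * fP P)) * h2
  rw [h3, fP, show st (p :: P) = Xs (Ys^[p] (st P)) from rfl]
  rw [map_mul sg, sg_C, h1, map_mul sg (PowerSeries.C _), sg_C]
  ring

lemma h_rel (p : ℕ) (P : List ℕ) : sg (hQ (p :: P)) =
    hQ (p :: P) + sg (PowerSeries.X ^ be p P * hQ P) + PowerSeries.X ^ be p P * hQ P := by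
  have h1 := ph_X (Ys^[p] (st P))
  rw [ph_Yn, ph_st] at h1
  have h2 : (PowerSeries.C (sI (p :: P)) : AA) * PowerSeries.C ((-1) ^ p) * PowerSeries.C (sI P) = -1 := by
    rw [← map_mul, ← map_mul]
    have h : ((-1 : ℝ) ^ p) * (-1) ^ p = 1 := by rw [← mul_pow]; norm_num
    have h3 := sI_sq P
    rw [show sI (p :: P) * (-1) ^ p * sI P = -1 by
      rw [sI]
      linear_combination -h - ((-1 : ℝ) ^ p) * (-1) ^ p * h3, map_neg, map_one]
  have h3 : PowerSeries.X ^ be p P * hQ P = -(PowerSeries.C (sI (p :: P)) * (PowerSeries.X *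
      (PowerSeries.C ((-1) ^ p) * PowerSeries.X ^ (2 * p) * (PowerSeries.C (sI P) * PowerSeries.X ^ dI P * hQ P)))) := by
    rw [be, pow_add, pow_add, pow_one]
    linear_combination (PowerSeries.X * PowerSeries.X ^ (2 * p) * PowerSeries.X ^ dI P * hQ P) * h2
  rw [h3, hQ, show st (p :: P) = Xs (Ys^[p] (st P)) from rfl]
  rw [map_mul sg, sg_C, h1, map_neg sg, map_mul sg (PowerSeries.C _), sg_C]
  ring

theorem indepPQ (S : Finset Idx) (ρ : Idx → Polynomial ℝ) (hS : ∑ i ∈ S, pp (ρ i) * (fP i.1 * hQ i.2) = 0) :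
    ∀ i ∈ S, ρ i = 0 :=
  indepA fP hQ al be rfl rfl f_rel h_rel (fun p P => by unfold al; omega)
    (fun P p q h => by simp only [al] at h; omega) (fun p P => by unfold be; omega)
    (fun P p q h => by simp only [be] at h; omega) S ρ hS

/-! ### Pairs of words -/

lemma ps_word (l : List ℕ) (hl : ∀ x ∈ l, 2 ≤ x) : ∃ (e : ℕ) (P : List ℕ) (s : ℝ), ((l, 0) : St) = Ys^[e] (st P) ∧
    s ≠ 0 ∧ ps (l, 0) = PowerSeries.C s * PowerSeries.X ^ (2 * e + dO P) * fP P := by
  obtain ⟨e, P, h⟩ := enc l hl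
  refine ⟨e, P, (-1) ^ e * sO P, h, ?_, ?_⟩
  · refine mul_ne_zero (pow_ne_zero _ (by norm_num)) fun h0 => ?_
    have := sO_sq P
    rw [h0, zero_mul] at this
    exact zero_ne_one this
  · rw [h, ps_Yn (good_st P), ps_st, map_mul, pow_add]
    ring

lemma ph_word (l : List ℕ) (hl : ∀ x ∈ l, 2 ≤ x) : ∃ (e : ℕ) (P : List ℕ) (s : ℝ), ((l, 0) : St) = Ys^[e] (st P) ∧
    s ≠ 0 ∧ ph (l, 0) = PowerSeries.C s * PowerSeries.X ^ (2 * e + dI P) * hQ P := by
  obtain ⟨e, P, h⟩ := enc l hl
  refine ⟨e, P, (-1) ^ e * sI P, h, ?_, ?_⟩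
  · refine mul_ne_zero (pow_ne_zero _ (by norm_num)) fun h0 => ?_
    have := sI_sq P
    rw [h0, zero_mul] at this
    exact zero_ne_one this
  · rw [h, ph_Yn, ph_st, map_mul, pow_add]
    ring

lemma fO_word (a : List ℕ) : ps (a.reverse, 0) = PowerSeries.X * ser (ro (T a)) := by
  have : fO (a.reverse, 0) = T a := by
    funext m
    simp [fO]
  rw [ps, this]

lemma fI_word (b : List ℕ) : ph (b, 0) = PowerSeries.X ^ 2 * Ri (H b) 0 := by
  have : fI (b, 0) = H b := by
    funext m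
    simp [fI]
  rw [ph, this]

theorem indep_pairs (U : Finset (List ℕ × List ℕ)) (hU : ∀ u ∈ U, (∀ x ∈ u.1, 2 ≤ x) ∧ ∀ x ∈ u.2, 2 ≤ x)
    (hinj : ∀ u ∈ U, ∀ v ∈ U, (∀ n, u.1 ++ w2 n ++ u.2 = v.1 ++ w2 n ++ v.2) → u = v) (c : List ℕ × List ℕ → ℝ)
    (hc : ∑ u ∈ U, PowerSeries.C (c u) * (ser (ro (T u.1)) * Ri (H u.2) 0) = 0) : ∀ u ∈ U, c u = 0 := by
  classical
  have ch1 : ∀ u : List ℕ × List ℕ, ∃ (e : ℕ) (P : List ℕ) (s : ℝ), u ∈ U → (((u.1.reverse, 0) : St) = Ys^[e] (st P) ∧
      s ≠ 0 ∧ ps (u.1.reverse, 0) = PowerSeries.C s * PowerSeries.X ^ (2 * e + dO P) * fP P) := by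
    intro u
    by_cases hu : u ∈ U
    · obtain ⟨e, P, s, h⟩ := ps_word u.1.reverse (fun x hx => (hU u hu).1 x (List.mem_reverse.1 hx))
      exact ⟨e, P, s, fun _ => h⟩
    · exact ⟨0, [], 0, fun h => absurd h hu⟩
  have ch2 : ∀ u : List ℕ × List ℕ, ∃ (e : ℕ) (P : List ℕ) (s : ℝ), u ∈ U → (((u.2, 0) : St) = Ys^[e] (st P) ∧
      s ≠ 0 ∧ ph (u.2, 0) = PowerSeries.C s * PowerSeries.X ^ (2 * e + dI P) * hQ P) := by
    intro u
    by_cases hu : u ∈ U
    · obtain ⟨e, P, s, h⟩ := ph_word u.2 (hU u hu).2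
      exact ⟨e, P, s, fun _ => h⟩
    · exact ⟨0, [], 0, fun h => absurd h hu⟩
  choose e1 P s1 h1 using ch1
  choose e2 Q s2 h2 using ch2
  set ix : List ℕ × List ℕ → Idx := fun u => (P u, Q u) with hix
  set n : List ℕ × List ℕ → ℕ := fun u => 2 * e1 u + dO (P u) + (2 * e2 u + dI (Q u)) with hn
  set r : List ℕ × List ℕ → ℝ := fun u => c u * s1 u * s2 u with hr
  have key := indepPQ (U.image ix) (fun i => ∑ u ∈ U, (if ix u = i then Polynomial.monomial (n u) (r u) else 0)) (by
    have h3 : ∀ i ∈ U.image ix, pp (∑ u ∈ U, (if ix u = i then Polynomial.monomial (n u) (r u) else 0)) *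
        (fP i.1 * hQ i.2) = ∑ u ∈ U, (if ix u = i then pp (Polynomial.monomial (n u) (r u)) * (fP (P u) * hQ (Q u)) else 0) := by
      intro i _
      rw [map_sum, Finset.sum_mul]
      refine Finset.sum_congr rfl fun u _ => ?_
      by_cases h4 : ix u = i
      · rw [if_pos h4, if_pos h4, ← h4]
      · rw [if_neg h4, if_neg h4, map_zero, zero_mul]
    rw [Finset.sum_congr rfl h3, Finset.sum_comm]
    have h4 : ∀ u ∈ U, ∑ i ∈ U.image ix, (if ix u = i then pp (Polynomial.monomial (n u) (r u)) * (fP (P u) * hQ (Q u)) else 0) =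
        PowerSeries.X ^ 3 * (PowerSeries.C (c u) * (ser (ro (T u.1)) * Ri (H u.2) 0)) := by
      intro u hu
      rw [Finset.sum_ite_eq (U.image ix) (ix u), if_pos (Finset.mem_image_of_mem _ hu)]
      have g1 := (h1 u hu).2.2
      have g2 := (h2 u hu).2.2
      rw [fO_word] at g1
      rw [fI_word] at g2
      have g3 : pp (Polynomial.monomial (n u) (r u)) = PowerSeries.C (r u) * PowerSeries.X ^ (n u) := by
        rw [← Polynomial.C_mul_X_pow_eq_monomial]
        simp
      rw [g3, hr, hn]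
      simp only
      rw [map_mul, map_mul, pow_add]
      calc _ = PowerSeries.C (c u) * ((PowerSeries.C (s1 u) * PowerSeries.X ^ (2 * e1 u + dO (P u)) * fP (P u)) *
            (PowerSeries.C (s2 u) * PowerSeries.X ^ (2 * e2 u + dI (Q u)) * hQ (Q u))) := by ring
        _ = _ := by rw [← g1, ← g2]; ring
    rw [Finset.sum_congr rfl h4, ← Finset.mul_sum, hc, mul_zero])
  intro u hu
  have h3 := mono_sum U (fun v => ix v = ix u) n r (key (ix u) (Finset.mem_image_of_mem _ hu)) hu rfl (by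
    intro v hv hv1 hv2
    have g1 : P v = P u := (Prod.ext_iff.1 hv1).1
    have g2 : Q v = Q u := (Prod.ext_iff.1 hv1).2
    simp only [hn] at hv2
    rw [g1, g2] at hv2
    have g3 : e1 v + e2 v = e1 u + e2 u := by omega
    have a1 := (h1 v hv).1
    have a2 := (h1 u hu).1
    have b1 := (h2 v hv).1
    have b2 := (h2 u hu).1
    rw [g1] at a1
    rw [g2] at b1
    have rr : ∀ i : ℕ, (w2 i).reverse = w2 i := fun i => List.reverse_replicate
    rcases Nat.le_total (e1 v) (e1 u) with h4 | h4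
    · obtain ⟨i, hi⟩ := Nat.exists_eq_add_of_le h4
      rw [show e1 u = i + e1 v by omega] at a2
      rw [show e2 v = i + e2 u by omega] at b1
      have c1 := dec a1 a2
      have c2 := dec b2 b1
      refine hinj v hv u hu fun m => ?_
      have c3 : u.1 = v.1 ++ w2 i := by
        rw [← List.reverse_reverse u.1, c1, List.reverse_append, List.reverse_reverse, rr]
      rw [c3, c2]
      simp only [List.append_assoc]
      rw [← List.append_assoc (w2 m) (w2 i), ← List.append_assoc (w2 i) (w2 m), ← List.replicate_add,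
        ← List.replicate_add, add_comm m i]
    · obtain ⟨i, hi⟩ := Nat.exists_eq_add_of_le h4
      rw [show e1 v = i + e1 u by omega] at a1
      rw [show e2 u = i + e2 v by omega] at b2
      have c1 := dec a2 a1
      have c2 := dec b1 b2
      refine hinj v hv u hu fun m => ?_
      have c3 : v.1 = u.1 ++ w2 i := by
        rw [← List.reverse_reverse v.1, c1, List.reverse_append, List.reverse_reverse, rr]
      rw [c3, c2]
      simp only [List.append_assoc]
      rw [← List.append_assoc (w2 m) (w2 i), ← List.append_assoc (w2 i) (w2 m), ← List.replicate_add,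
        ← List.replicate_add, add_comm m i])
  simp only [hr] at h3
  rcases mul_eq_zero.1 h3 with h4 | h4
  · rcases mul_eq_zero.1 h4 with h5 | h5
    · exact h5
    · exact absurd h5 (h1 u hu).2.1
  · exact absurd h4 (h2 u hu).2.1

end Pool.Agent.L7h24.TS
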