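import Mathlib
import Pool.Agent.L7h24.TS.Ind

/-!
# The theorem on the numbers `ζ(a 2 ... 2 b)`, `(a, b) ∈ U`
-/

set_option autoImplicit false

namespace Pool.Agent.L7h24.TS

open Filter Topology
open Pool.Agent.H447R2.MZ (H H_nil H_cons H_cons_zero H_cons_succ H_nonneg Adm val tendsto_H H_le_val)
open Pool.Agent.L7h24.CS (T T_nil T_left T_le T_nonneg T_tendsto_zero AE ae_T expand_T expand_H w2 w2_ge w2_succ' w2_zero
  x_nonneg x_le_one ExT ExH tp tp_coeff expan_two Vt Z Z_nonneg Expan expo Vt_le alg_of)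

lemma inE {g : ℕ → ℝ} {s : ℕ → ℝ} {K : ℕ} (h : ∀ m < K + 1, g m = ∑ i ∈ Finset.range (K + 1), s i * H (w2 i) m) :
    ∀ m < K, Di g m = ∑ i ∈ Finset.range K, s (i + 1) * H (w2 i) m := by
  intro m hm
  rw [Di, h m (by omega), h (m + 1) (by omega), ← Finset.sum_sub_distrib, Finset.sum_range_succ', w2_zero, H_nil, H_nil,
    sub_self, add_zero, Finset.mul_sum]
  refine Finset.sum_congr rfl fun i _ => ?_
  rw [show w2 (i + 1) = 2 :: w2 i from List.replicate_succ, H_cons_succ]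
  push_cast
  have : ((m : ℝ) + 1) ≠ 0 := by positivity
  field_simp
  ring

lemma si_eq {g : ℕ → ℝ} {s : ℕ → ℝ} {K : ℕ} (h : ∀ m < K, g m = ∑ i ∈ Finset.range K, s i * H (w2 i) m) (j : ℕ)
    (hj : j < K) : (Di^[j] g) 0 = s j := by
  induction j generalizing g s K with
  | zero =>
    obtain ⟨K, rfl⟩ : ∃ K', K = K' + 1 := ⟨K - 1, by omega⟩
    rw [Function.iterate_zero, id, h 0 (by omega), Finset.sum_range_succ', w2_zero, H_nil, mul_one,
      Finset.sum_eq_zero, zero_add]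
    intro i _
    rw [show w2 (i + 1) = 2 :: w2 i from List.replicate_succ, H_cons_zero, mul_zero]
  | succ j ih =>
    obtain ⟨K, rfl⟩ : ∃ K', K = K' + 1 := ⟨K - 1, by omega⟩
    rw [Function.iterate_succ_apply]
    exact ih (inE h) (by omega)

lemma fin_stab {ι : Type*} (U : Finset ι) (t : ι → ℕ → ℚ)
    (h : ∀ c : ι → ℚ, (∀ k, ∑ u ∈ U, c u * t u k = 0) → ∀ u ∈ U, c u = 0) :
    ∃ I, ∀ c : ι → ℚ, (∀ k < I, ∑ u ∈ U, c u * t u k = 0) → ∀ u ∈ U, c u = 0 := by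
  classical
  let W : ℕ → Submodule ℚ (U → ℚ) := fun I =>
    { carrier := {c | ∀ k < I, ∑ u : U, c u * t u k = 0}
      add_mem' := by
        intro a b ha hb k hk
        simp only [Pi.add_apply, add_mul, Finset.sum_add_distrib]
        rw [ha k hk, hb k hk, add_zero]
      zero_mem' := by intro k _; simp
      smul_mem' := by
        intro r a ha k hk
        simp only [Pi.smul_apply, smul_eq_mul, mul_assoc]
        rw [← Finset.mul_sum, ha k hk, mul_zero] }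
  have hmono : Antitone W := fun a b hab c hc k hk => hc k (lt_of_lt_of_le hk hab)
  obtain ⟨I, hI⟩ := IsArtinian.monotone_stabilizes (⟨fun n => OrderDual.toDual (W n), fun a b hab => hmono hab⟩ :
    ℕ →o (Submodule ℚ (U → ℚ))ᵒᵈ)
  refine ⟨I, fun c hc => ?_⟩
  have h1 : (fun u : U => c u) ∈ W I := by
    intro k hk
    rw [Finset.sum_coe_sort U (fun u => c u * t u k)]
    exact hc k hk
  refine h c fun k => ?_
  have h2 : W I = W (max I (k + 1)) := congrArg OrderDual.ofDual (hI (max I (k + 1)) (le_max_left _ _))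
  rw [h2] at h1
  have h3 := h1 k (by simp)
  rwa [Finset.sum_coe_sort U (fun u => c u * t u k)] at h3

theorem expan_pairs (U : Finset (List ℕ × List ℕ)) (hU : ∀ u ∈ U, (∀ x ∈ u.1, 2 ≤ x) ∧ ∀ x ∈ u.2, 2 ≤ x)
    (hinj : ∀ u ∈ U, ∀ v ∈ U, (∀ n, u.1 ++ w2 n ++ u.2 = v.1 ++ w2 n ++ v.2) → u = v) :
    ∃ I, Expan U (fun u => Vt u.1 u.2) I := by
  classical
  -- rational coefficients of the outer and the inner expansions
  have ch1 : ∀ u : List ℕ × List ℕ, ∃ r : ℕ → ℚ, u ∈ U → ∀ j, (r j : ℝ) = ro (T u.1) j := by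
    intro u
    by_cases hu : u ∈ U
    · choose r hr using fun j => ro_rat (ae_T (hU u hu).1) j
      exact ⟨r, fun _ => hr⟩
    · exact ⟨fun _ => 0, fun h => absurd h hu⟩
  choose r hr using ch1
  have ch2 : ∀ (u : List ℕ × List ℕ) (j : ℕ), ∃ s : ℚ, (s : ℝ) = (Di^[j] (H u.2)) 0 := by
    intro u j
    obtain ⟨s, hs⟩ := expand_H u.2 (j + 1)
    exact ⟨s j, (si_eq (s := fun i => (s i : ℝ)) (fun m hm => sub_eq_zero.1 (hs m hm)) j (Nat.lt_succ_self j)).symm⟩
  choose s hs using ch2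
  have hExH : ∀ u K, ExH u.2 K (s u) := by
    intro u K m hm
    obtain ⟨s', hs'⟩ := expand_H u.2 K
    rw [← hs' m hm]
    congr 1
    refine Finset.sum_congr rfl fun i hi => ?_
    rw [hs u i, si_eq (s := fun i => (s' i : ℝ)) (fun m hm => sub_eq_zero.1 (hs' m hm)) i (Finset.mem_range.1 hi)]
  have hExT : ∀ u ∈ U, ∀ K, ExT u.1 K (r u) := by
    intro u hu K
    obtain ⟨C, hC⟩ := ro_ex (ae_T (hU u hu).1) K
    refine ⟨C, fun m hm => ?_⟩
    simp only [hr u hu]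
    exact hC m hm
  set t : List ℕ × List ℕ → ℕ → ℚ := fun u k => ∑ p ∈ Finset.HasAntidiagonal.antidiagonal k, r u p.1 * s u p.2 with ht
  have htK : ∀ u K k, k < K → (tp K (r u) * tp K (s u)).coeff k = t u k := by
    intro u K k hk
    rw [Polynomial.coeff_mul, ht]
    refine Finset.sum_congr rfl fun p hp => ?_
    have := Finset.HasAntidiagonal.mem_antidiagonal.1 hp
    rw [tp_coeff, tp_coeff, if_pos (by omega), if_pos (by omega)]
  obtain ⟨I, hI⟩ := fin_stab U t (by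
    intro c hc u hu
    have h1 := indep_pairs U hU hinj (fun u => (c u : ℝ)) (by
      have h2 : ∑ u ∈ U, PowerSeries.C ((c u : ℝ)) * (PowerSeries.mk (ro (T u.1)) *
          PowerSeries.mk fun j => (Di^[j] (H u.2)) 0) = 0 := by
        ext k
        rw [map_sum, map_zero]
        have h3 : ((∑ u ∈ U, c u * t u k : ℚ) : ℝ) = 0 := by rw [hc k, Rat.cast_zero]
        rw [← h3]
        push_cast
        refine Finset.sum_congr rfl fun u hu => ?_
        rw [PowerSeries.coeff_C_mul, PowerSeries.coeff_mul, ht]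
        push_cast
        congr 1
        refine Finset.sum_congr rfl fun p _ => ?_
        rw [PowerSeries.coeff_mk, PowerSeries.coeff_mk, hr u hu, hs]
      have h3 := congrArg sr h2
      rw [map_sum, map_zero] at h3
      rw [← h3]
      refine Finset.sum_congr rfl fun u _ => ?_
      rw [map_mul sr, map_mul sr, show sr (PowerSeries.C (c u : ℝ)) = PowerSeries.C (c u : ℝ) from sb_C _ _ _]
      rfl) u hu
    exact_mod_cast h1)
  refine ⟨I, fun K hK => ?_⟩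
  have hch2 : ∀ u : List ℕ × List ℕ, ∃ C : ℝ, u ∈ U → ∀ n, 1 ≤ n →
      |Vt u.1 u.2 n - ∑ k ∈ Finset.range K, ((tp K (r u) * tp K (s u)).coeff k : ℝ) * Z (n + k)| ≤ C * Z (n + K) := by
    intro u
    by_cases hu : u ∈ U
    · obtain ⟨C, h⟩ := expan_two (hU u hu).1 (hU u hu).2 (hExT u hu K) (hExH u K)
      exact ⟨C, fun _ => h⟩
    · exact ⟨0, fun h => absurd h hu⟩
  choose C hC using hch2
  refine ⟨t, ∑ u ∈ U, |C u|, fun u hu n hn => ?_, hI⟩
  have h1 := hC u hu n hn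
  rw [Finset.sum_congr rfl fun k hk => by rw [htK u K k (Finset.mem_range.1 hk)]] at h1
  refine h1.trans (mul_le_mul_of_nonneg_right ((le_abs_self _).trans ?_) (Z_nonneg _))
  exact Finset.single_le_sum (f := fun u => |C u|) (fun _ _ => abs_nonneg _) hu

theorem two_ended (U : Finset (List ℕ × List ℕ)) (hU : ∀ u ∈ U, (∀ x ∈ u.1, 2 ≤ x) ∧ ∀ x ∈ u.2, 2 ≤ x)
    (hinj : ∀ u ∈ U, ∀ v ∈ U, (∀ n, u.1 ++ w2 n ++ u.2 = v.1 ++ w2 n ++ v.2) → u = v)
    (J : Finset ℝ) (hJ : ∀ α ∈ J, 0 < α) (p : ℝ → List ℕ × List ℕ → Polynomial ℝ)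
    (hp : ∀ α ∈ J, ∀ u ∈ U, ∀ k, IsAlgebraic ℚ ((p α u).coeff k)) (α₀ : ℝ) (hα₀ : α₀ ∈ J)
    (hne : ∃ u ∈ U, p α₀ u ≠ 0) : ∃ B : ℕ, ∀ᶠ n : ℕ in atTop, α₀ ^ n * Z n ≤
      (n : ℝ) ^ B * |∑ α ∈ J, ∑ u ∈ U, α ^ n * (p α u).eval (n : ℝ) * val (u.1 ++ w2 n ++ u.2)| := by
  classical
  obtain ⟨I, hI⟩ := expan_pairs U hU hinj
  refine expo U (fun u => Vt u.1 u.2) I hI ⟨∑ u ∈ U, val u.2, fun u hu n hn => ?_⟩ J hJ p
    (fun α hα u hu => alg_of (hp α hα u hu)) α₀ hα₀ hne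
  refine (Vt_le (hU u hu).1 (hU u hu).2 hn).trans (mul_le_mul_of_nonneg_right ?_ (Z_nonneg _))
  exact Finset.single_le_sum (f := fun u : List ℕ × List ℕ => val u.2)
    (fun v hv => Pool.Agent.Q217.TT.val_nonneg' (Pool.Agent.L7h24.CS.adm_of_ge (hU v hv).2)) hu

end Pool.Agent.L7h24.TS
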