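import Mathlib
import Pool.Agent.L7h24.TS.Fld

/-!
# Linear independence of one family of iterated sums and alternating sums

`K` is a field with an endomorphism `σ`, `F` a `K`-algebra with a compatible endomorphism `τ`, `f P` are elements of `F`
indexed by lists, with `f [] = 1` and `(τ - E) f (p :: P) = (τ + E) (x ^ α f P)` with signs `E = E (p :: P)`.
-/

set_option autoImplicit false

namespace Pool.Agent.L7h24.OE

open Polynomial

open Pool.Agent.L7h24.TS (ex mono_sum)

section

variable {k K F : Type*} [Field k] [Field K] [CharZero K] [CommRing F] [Nontrivial F] [Algebra k K] [Algebra K F]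

/-- span of the members of length `< n` -/
def Sp (K : Type*) {F : Type*} [Field K] [CommRing F] [Algebra K F] (f : List ℕ → F) (n : ℕ) : Submodule K F :=
  Submodule.span K (f '' {P | P.length < n})

omit [CharZero K] [Nontrivial F] in
lemma sp_mem (f : List ℕ → F) {n : ℕ} {P : List ℕ} (h : P.length < n) : f P ∈ Sp K f n :=
  Submodule.subset_span ⟨P, h, rfl⟩

omit [CharZero K] [Nontrivial F] in
lemma sp_mono (f : List ℕ → F) {m n : ℕ} (h : m ≤ n) : Sp K f m ≤ Sp K f n :=
  Submodule.span_mono (Set.image_mono fun P (hP : P.length < m) => lt_of_lt_of_le hP h)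

def df (σ : K →+* K) (x : K) (α : ℕ → List ℕ → ℕ) (E : List ℕ → K) : List ℕ → K
  | [] => 0
  | p :: P => E P * σ (x ^ α p P) + E (p :: P) * x ^ α p P

variable (σ : K →+* K) (τ : F →+* F) (hστ : ∀ (c : K) (y : F), τ (c • y) = σ c • τ y)
variable (x : K) (f : List ℕ → F) (α : ℕ → List ℕ → ℕ) (f0 : f [] = 1)
variable (E : List ℕ → K) (E0 : E [] = 1) (hE : ∀ P, E P = 1 ∨ E P = -1)
variable (f1 : ∀ p P, τ (f (p :: P)) = E (p :: P) • f (p :: P) + τ ((x ^ α p P) • f P) + E (p :: P) • ((x ^ α p P) • f P))
variable (hk : ∀ r : k, σ (algebraMap k K r) = algebraMap k K r)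
variable (hc1 : ∀ c : K, σ c = c → ∃ r : k, algebraMap k K r = c) (hc2 : ∀ c : K, σ c = -c → c = 0)
variable (h3 : ∀ ε : K, ε = 1 ∨ ε = -1 → ∀ (c : K) (ρ : k[X]), ρ.coeff 0 = 0 →
  σ (c + aeval x ρ) = ε * (c - aeval x ρ) → ρ = 0)
variable (hα0 : ∀ p P, α p P ≠ 0) (hα : ∀ P p q, E (p :: P) = E (q :: P) → α p P = α q P → p = q)

include hστ f0 f1 E0 in
omit [CharZero K] [Nontrivial F] in
lemma T3 (P : List ℕ) : ∃ l ∈ Sp K f (P.length - 1), τ (f P) = E P • f P + df σ x α E P • f P.tail + l := by
  induction P with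
  | nil => exact ⟨0, zero_mem _, by simp [E0, df, f0]⟩
  | cons p P ih =>
    obtain ⟨l', hl', h'⟩ := ih
    refine ⟨σ (x ^ α p P) • (df σ x α E P • f P.tail + l'), ?_, ?_⟩
    · rw [List.length_cons, Nat.add_sub_cancel]
      refine Submodule.smul_mem _ _ (add_mem ?_ (sp_mono f (Nat.sub_le _ _) hl'))
      cases P with
      | nil => simp [df]
      | cons p' P' => exact Submodule.smul_mem _ _ (sp_mem f (by simp))
    · rw [f1, hστ, h', List.tail_cons, df]
      simp only [Algebra.smul_def, map_mul, map_add]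
      ring

include hστ f0 f1 E0 in
omit [CharZero K] [Nontrivial F] in
lemma T2 (P : List ℕ) : τ (f P) - E P • f P ∈ Sp K f P.length := by
  obtain ⟨l, hl, e⟩ := T3 σ τ hστ x f α f0 E E0 f1 P
  rw [e, add_assoc, add_sub_cancel_left]
  refine add_mem ?_ (sp_mono f (Nat.sub_le _ _) hl)
  cases P with
  | nil => simp [df]
  | cons p P => exact Submodule.smul_mem _ _ (sp_mem f (by simp))

include hστ f0 f1 E0 in
omit [CharZero K] [Nontrivial F] in
lemma T1 {n : ℕ} {y : F} (hy : y ∈ Sp K f n) : τ y ∈ Sp K f n := by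
  refine Submodule.span_induction (p := fun y _ => τ y ∈ Sp K f n) ?_ ?_ ?_ ?_ hy
  · rintro _ ⟨P, hP, rfl⟩
    have h2 := T2 σ τ hστ x f α f0 E E0 f1 P
    have h3 := add_mem (sp_mono f (le_of_lt hP) h2) (Submodule.smul_mem _ (E P) (sp_mem f hP))
    rwa [sub_add_cancel] at h3
  · rw [map_zero]
    exact zero_mem _
  · intro u v _ _ hu hv
    rw [map_add]
    exact add_mem hu hv
  · intro a u _ hu
    rw [hστ]
    exact Submodule.smul_mem _ _ hu

include hστ f0 E0 hE f1 hk hc1 hc2 h3 hα0 hα in
theorem top : ∀ (N : ℕ) (c : List ℕ →₀ K), (∀ i ∈ c.support, i.length = N) →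
    Finsupp.linearCombination K f c ∈ Sp K f N → c = 0 := by
  classical
  intro N
  induction N using Nat.strong_induction_on with
  | _ N ihN =>
  suffices H : ∀ n (c : List ℕ →₀ K), c.support.card = n → (∀ i ∈ c.support, i.length = N) →
      Finsupp.linearCombination K f c ∈ Sp K f N → c = 0 from
    fun c => H _ c rfl
  intro n
  induction n using Nat.strong_induction_on with
  | _ n ihn =>
  intro c hcn hcr hc
  by_contra hne
  obtain ⟨i0, hi0⟩ := Finsupp.support_nonempty_iff.2 hne
  set lc := Finsupp.linearCombination K f with hlc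
  have hτlc : ∀ c : List ℕ →₀ K, τ (lc c) = ∑ i ∈ c.support, σ (c i) • τ (f i) := by
    intro c
    rw [hlc, Finsupp.linearCombination_apply, Finsupp.sum, map_sum]
    exact Finset.sum_congr rfl fun i _ => hστ _ _
  have hlcs : ∀ c : List ℕ →₀ K, lc c = ∑ i ∈ c.support, c i • f i := fun c => by
    rw [hlc, Finsupp.linearCombination_apply, Finsupp.sum]
  obtain ⟨c', hc'⟩ : ∃ c' : List ℕ →₀ K, c' = (c i0)⁻¹ • c := ⟨_, rfl⟩
  have hci0 : c i0 ≠ 0 := Finsupp.mem_support_iff.1 hi0
  have hc'0 : c' i0 = 1 := by rw [hc', Finsupp.smul_apply, smul_eq_mul, inv_mul_cancel₀ hci0]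
  have hc's : c'.support = c.support := by rw [hc']; exact Finsupp.support_smul_eq (inv_ne_zero hci0)
  have hc'r : ∀ i ∈ c'.support, i.length = N := by rw [hc's]; exact hcr
  have hc'V : lc c' ∈ Sp K f N := by rw [hc', map_smul]; exact Submodule.smul_mem _ _ hc
  have hi0' : i0 ∈ c'.support := by rw [hc's]; exact hi0
  have T2' := T2 σ τ hστ x f α f0 E E0 f1
  have T1' : ∀ {n : ℕ} {y : F}, y ∈ Sp K f n → τ y ∈ Sp K f n := fun hy =>
    T1 σ τ hστ x f α f0 E E0 f1 hy
  obtain ⟨ε, hε⟩ : ∃ ε : K, ε = E i0 := ⟨_, rfl⟩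
  have hε1 : ε = 1 ∨ ε = -1 := by rw [hε]; exact hE _
  have hEsq : ∀ P, E P * E P = 1 := fun P => by rcases hE P with h | h <;> rw [h] <;> norm_num
  have hε2 : ε * ε = 1 := by rw [hε]; exact hEsq _
  -- all coefficients are eigenvectors
  have hd0 : ∀ i, E i * σ (c' i) = ε * c' i := by
    obtain ⟨d, hd⟩ : ∃ d : List ℕ →₀ K, d = Finsupp.onFinset c'.support (fun i => E i * σ (c' i) - ε * c' i)
        (fun i hi => by
          by_contra h
          rw [Finsupp.notMem_support_iff.1 h] at hi
          simp at hi) := ⟨_, rfl⟩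
    have hdi : ∀ i, d i = E i * σ (c' i) - ε * c' i := fun i => by rw [hd, Finsupp.onFinset_apply]
    have hlcd : lc d = ∑ i ∈ c'.support, (E i * σ (c' i) - ε * c' i) • f i := by
      rw [hd, hlc, Finsupp.linearCombination_onFinset]
    have hdsub : d.support ⊆ c'.support.erase i0 := by
      intro i hi
      rw [Finsupp.mem_support_iff, hdi] at hi
      refine Finset.mem_erase.2 ⟨?_, ?_⟩
      · rintro rfl
        apply hi
        rw [hc'0, map_one, hε, sub_self]
      · rw [Finsupp.mem_support_iff]
        intro h0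
        rw [h0] at hi
        simp at hi
    have hdz : d = 0 := by
      refine ihn d.support.card ?_ d rfl (fun i hi => hc'r i (Finset.mem_of_mem_erase (hdsub hi))) ?_
      · rw [← hcn, ← hc's]
        exact lt_of_le_of_lt (Finset.card_le_card hdsub) (Finset.card_erase_lt_of_mem hi0')
      · have e : lc d = τ (lc c') - ε • lc c' -
            ∑ i ∈ c'.support, σ (c' i) • (τ (f i) - E i • f i) := by
          rw [hlcd, hτlc, hlcs, Finset.smul_sum, ← Finset.sum_sub_distrib, ← Finset.sum_sub_distrib]
          refine Finset.sum_congr rfl fun i _ => ?_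
          simp only [Algebra.smul_def, map_mul, map_sub]
          ring
        rw [e]
        refine sub_mem (sub_mem (T1' hc'V) (Submodule.smul_mem _ _ hc'V)) (sum_mem fun i hi => ?_)
        have := T2' i
        rw [hc'r i hi] at this
        exact Submodule.smul_mem _ _ this
    intro i
    have := hdi i
    rw [hdz, Finsupp.zero_apply] at this
    exact (sub_eq_zero.1 this.symm)
  have hreal : ∀ i, ∃ r : k, algebraMap k K r = c' i ∧ (c' i ≠ 0 → E i = ε) := by
    intro i
    by_cases hz : c' i = 0
    · exact ⟨0, by rw [hz, map_zero], fun h => absurd hz h⟩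
    · have h4 := hd0 i
      have h5 : E i = ε ∨ E i = -ε := by
        rcases hE i with h6 | h6 <;> rcases hε1 with h7 | h7 <;> rw [h6, h7] <;> simp
      rcases h5 with h5 | h5
      · have h6 : σ (c' i) = c' i := by
          have := congrArg (fun t => ε * t) h4
          rw [h5, ← mul_assoc, ← mul_assoc, hε2, one_mul, one_mul] at this
          exact this
        obtain ⟨r, hr⟩ := hc1 _ h6
        exact ⟨r, hr, fun _ => h5⟩
      · exfalso
        apply hz
        apply hc2
        have := congrArg (fun t => ε * t) h4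
        rw [h5, neg_mul, mul_neg, ← mul_assoc, ← mul_assoc, hε2, one_mul, one_mul] at this
        exact (neg_eq_iff_eq_neg.1 this)
  choose r hr hrε using hreal
  have hσc : ∀ i, σ (c' i) = c' i := fun i => by rw [← hr, hk]
  rcases Nat.eq_zero_or_pos N with hN | hN
  · -- rank zero
    subst hN
    have h4 : Sp K f 0 = ⊥ := by
      unfold Sp
      rw [Submodule.span_eq_bot]
      rintro _ ⟨i, hi, rfl⟩
      exact absurd hi (Nat.not_lt_zero _)
    rw [h4, Submodule.mem_bot, hlcs] at hc'V
    have h6 : i0 = [] := List.length_eq_zero_iff.1 (hc'r _ hi0')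
    rw [Finset.sum_eq_single_of_mem i0 hi0' fun i hi hne =>
      absurd ((List.length_eq_zero_iff.1 (hc'r i hi)).trans h6.symm) hne] at hc'V
    rw [hc'0, h6, f0, one_smul] at hc'V
    exact one_ne_zero hc'V
  obtain ⟨M, rfl⟩ : ∃ M, N = M + 1 := ⟨N - 1, by omega⟩
  obtain ⟨w, hw, hwc⟩ := (Finsupp.mem_span_image_iff_linearCombination K).1 hc'V
  rw [← hlc] at hwc
  obtain ⟨w1, hw1⟩ : ∃ w1 : List ℕ →₀ K, w1 = w.filter (fun i => i.length = M) := ⟨_, rfl⟩
  have hw1r : ∀ i ∈ w1.support, i.length = M := by
    intro i hi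
    rw [hw1, Finsupp.support_filter, Finset.mem_filter] at hi
    exact hi.2
  have hww : lc c' - lc w1 ∈ Sp K f M := by
    rw [← hwc, ← map_sub]
    refine (Finsupp.mem_span_image_iff_linearCombination K).2 ⟨w - w1, ?_, rfl⟩
    rw [Finsupp.mem_supported]
    intro i hi
    rw [Finset.mem_coe, Finsupp.mem_support_iff, Finsupp.sub_apply, hw1, Finsupp.filter_apply] at hi
    have h4 : i.length ≠ M := by
      intro h
      rw [if_pos h, sub_self] at hi
      exact hi rfl
    rw [if_neg h4, sub_zero] at hi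
    have h5 : i.length < M + 1 := hw (Finset.mem_coe.2 (Finsupp.mem_support_iff.2 hi))
    show i.length < M
    omega
  obtain ⟨e2, he2⟩ : ∃ e2 : List ℕ →₀ K, e2 = Finsupp.onFinset w1.support (fun i => E i * σ (w1 i) - ε * w1 i)
      (fun i hi => by
        by_contra h
        rw [Finsupp.notMem_support_iff.1 h] at hi
        simp at hi) := ⟨_, rfl⟩
  have he2i : ∀ i, e2 i = E i * σ (w1 i) - ε * w1 i := fun i => by rw [he2, Finsupp.onFinset_apply]
  have he2l : lc e2 = ∑ i ∈ w1.support, (E i * σ (w1 i) - ε * w1 i) • f i := by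
    rw [he2, hlc, Finsupp.linearCombination_onFinset]
  obtain ⟨e1, he1⟩ : ∃ e1 : List ℕ →₀ K, e1 = ∑ i ∈ c'.support, c' i • (df σ x α E i • Finsupp.single i.tail 1) :=
    ⟨_, rfl⟩
  have he1l : lc e1 = ∑ i ∈ c'.support, c' i • (df σ x α E i • f i.tail) := by
    rw [he1, map_sum]
    refine Finset.sum_congr rfl fun i _ => ?_
    rw [map_smul, map_smul, hlc, Finsupp.linearCombination_single, one_smul]
  have he1i : ∀ j, e1 j = ∑ i ∈ c'.support, c' i * (df σ x α E i * (if i.tail = j then 1 else 0)) := by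
    intro j
    rw [he1, Finsupp.finsetSum_apply]
    refine Finset.sum_congr rfl fun i _ => ?_
    rw [Finsupp.smul_apply, Finsupp.smul_apply, Finsupp.single_apply, smul_eq_mul, smul_eq_mul]
  have hlce : lc (e1 - e2) ∈ Sp K f M := by
    choose l hl hl2 using fun i => T3 σ τ hστ x f α f0 E E0 f1 i
    have e : lc (e1 - e2) = τ (lc c' - lc w1) - ε • (lc c' - lc w1) - ∑ i ∈ c'.support, c' i • l i +
        ∑ i ∈ w1.support, σ (w1 i) • (τ (f i) - E i • f i) := by
      have g1 : τ (lc c') - ε • lc c' = lc e1 + ∑ i ∈ c'.support, c' i • l i := by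
        rw [hτlc, hlcs, he1l, Finset.smul_sum, ← Finset.sum_sub_distrib, ← Finset.sum_add_distrib]
        refine Finset.sum_congr rfl fun i _ => ?_
        rw [hl2 i, hσc i]
        have g2 := hd0 i
        rw [hσc i] at g2
        have g3 : ε • c' i • f i = c' i • E i • f i := by
          rw [smul_smul, smul_smul, ← g2, mul_comm]
        rw [g3]
        simp only [smul_add]
        abel
      have g2 : τ (lc w1) - ε • lc w1 = lc e2 +
          ∑ i ∈ w1.support, σ (w1 i) • (τ (f i) - E i • f i) := by
        rw [hτlc, hlcs, he2l, Finset.smul_sum, ← Finset.sum_sub_distrib, ← Finset.sum_add_distrib]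
        refine Finset.sum_congr rfl fun i _ => ?_
        simp only [Algebra.smul_def, map_mul, map_sub]
        ring
      rw [map_sub, map_sub, smul_sub]
      have g3 : τ (lc c') - τ (lc w1) - (ε • lc c' - ε • lc w1) =
          (τ (lc c') - ε • lc c') - (τ (lc w1) - ε • lc w1) := by abel
      rw [g3, g1, g2]
      abel
    rw [e]
    refine add_mem (sub_mem (sub_mem (T1' hww) (Submodule.smul_mem _ _ hww)) (sum_mem fun i hi => ?_))
      (sum_mem fun i hi => ?_)
    · have := hl i
      rw [hc'r i hi, Nat.add_sub_cancel] at this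
      exact Submodule.smul_mem _ _ this
    · have := T2' i
      rw [hw1r i hi] at this
      exact Submodule.smul_mem _ _ this
  have hE' : ∀ j, e1 j = E j * σ (w1 j) - ε * w1 j := by
    have h4 : e1 - e2 = 0 := by
      refine ihN M (Nat.lt_succ_self M) _ (fun j hj => ?_) hlce
      by_contra hjM
      rw [Finsupp.mem_support_iff, Finsupp.sub_apply, he2i, he1i] at hj
      apply hj
      have h5 : w1 j = 0 := by
        by_contra h6
        exact hjM (hw1r j (Finsupp.mem_support_iff.2 h6))
      rw [h5, map_zero, mul_zero, mul_zero, sub_zero, sub_zero]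
      refine Finset.sum_eq_zero fun i hi => ?_
      have h6 := hc'r i hi
      cases i with
      | nil => simp [df]
      | cons p P =>
        rw [if_neg, mul_zero, mul_zero]
        rintro rfl
        simp only [List.length_cons, List.tail_cons] at h6 hjM
        omega
    intro j
    have h5 := congrArg (fun t : List ℕ →₀ K => t j) h4
    simp only [Finsupp.sub_apply, Finsupp.zero_apply, he2i] at h5
    exact sub_eq_zero.1 h5
  -- the contradiction
  obtain ⟨p0, P', rfl⟩ : ∃ p P', i0 = p :: P' := by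
    have h5 := hc'r i0 hi0'
    cases i0 with
    | nil => simp at h5
    | cons p P' => exact ⟨p, P', rfl⟩
  have h5 := hE' P'
  rw [he1i] at h5
  have h6 : ∀ i ∈ c'.support, c' i * (df σ x α E i * (if i.tail = P' then 1 else 0)) =
      E P' * σ (aeval x (if i ≠ [] ∧ i.tail = P' then monomial (ex α i) (r i) else 0)) +
      ε * aeval x (if i ≠ [] ∧ i.tail = P' then monomial (ex α i) (r i) else 0) := by
    intro i hi'
    have hEi := hrε _ (Finsupp.mem_support_iff.1 hi')
    cases i with
    | nil => simp [df]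
    | cons p1 P1 =>
      by_cases h8 : P1 = P'
      · subst h8
        simp only [df, ex, List.tail_cons, ne_eq, List.cons_ne_nil, not_false_eq_true, and_self, if_true,
          aeval_monomial, map_mul, hk, ← hr, hEi]
        ring
      · simp [h8]
  rw [Finset.sum_congr rfl h6, Finset.sum_add_distrib, ← Finset.mul_sum, ← Finset.mul_sum, ← map_sum, ← map_sum] at h5
  obtain ⟨ρ, hρ⟩ : ∃ ρ : k[X], ρ = ∑ i ∈ c'.support,
    (if i ≠ [] ∧ i.tail = P' then monomial (ex α i) (r i) else 0) := ⟨_, rfl⟩
  rw [← hρ] at h5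
  have h9 : -ρ = 0 := by
    refine h3 (E P' * ε) ?_ (w1 P') (-ρ) ?_ ?_
    · rcases hE P' with g | g <;> rcases hε1 with g' | g' <;> rw [g, g'] <;> simp
    · rw [coeff_neg, hρ, finsetSum_coeff, Finset.sum_eq_zero, neg_zero]
      intro i _
      split_ifs with h9
      · rw [coeff_monomial, if_neg]
        cases i with
        | nil => exact absurd rfl h9.1
        | cons q1 Q1 => exact hα0 _ _
      · rfl
    · rw [map_neg, ← sub_eq_add_neg, map_sub, sub_neg_eq_add]
      have h10 := hEsq P'
      linear_combination (-E P') * h5 + (σ (aeval x ρ) - σ (w1 P')) * h10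
  rw [neg_eq_zero, hρ] at h9
  have h10 := mono_sum c'.support (fun i : List ℕ => i ≠ [] ∧ i.tail = P') (fun i => ex α i) r
    h9 hi0' ⟨List.cons_ne_nil _ _, rfl⟩ (by
      rintro P hi ⟨g1, g2⟩ g3
      have hEi := hrε _ (Finsupp.mem_support_iff.1 hi)
      have hEj := hrε _ (Finsupp.mem_support_iff.1 hi0')
      cases P with
      | nil => exact absurd rfl g1
      | cons q1 Q1 =>
        rw [List.tail_cons] at g2
        subst g2
        simp only [ex] at g3
        rw [hα _ _ _ (hEi.trans hEj.symm) g3])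
  have h11 : c' (p0 :: P') = 0 := by rw [← hr, h10, map_zero]
  rw [hc'0] at h11
  exact one_ne_zero h11

include hστ f0 E0 hE f1 hk hc1 hc2 h3 hα0 hα in
/-- the family is linearly independent -/
theorem indep (c : List ℕ →₀ K) (hc : ∑ i ∈ c.support, c i • f i = 0) : c = 0 := by
  classical
  by_contra hne
  have h4 := Finsupp.support_nonempty_iff.2 hne
  set N := c.support.sup' h4 List.length with hN
  obtain ⟨i1, hi1, hi1N⟩ := Finset.exists_mem_eq_sup' h4 List.length
  have h5 := top σ τ hστ x f α f0 E E0 hE f1 hk hc1 hc2 h3 hα0 hα N (c.filter fun i => i.length = N)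
    (fun i hi => by
      rw [Finsupp.support_filter, Finset.mem_filter] at hi
      exact hi.2) (by
      have e : Finsupp.linearCombination K f (c.filter fun i => i.length = N) =
          - Finsupp.linearCombination K f (c.filter fun i => ¬ i.length = N) := by
        rw [eq_neg_iff_add_eq_zero, ← map_add, Finsupp.filter_add_filter_not, Finsupp.linearCombination_apply,
          Finsupp.sum, hc]
      rw [e]
      refine neg_mem ((Finsupp.mem_span_image_iff_linearCombination K).2 ⟨_, ?_, rfl⟩)
      rw [Finsupp.mem_supported]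
      intro i hi
      rw [Finset.mem_coe, Finsupp.support_filter, Finset.mem_filter] at hi
      have h6 : i.length ≤ N := Finset.le_sup' List.length hi.1
      exact lt_of_le_of_ne h6 hi.2)
  have h6 := congrArg (fun t : List ℕ →₀ K => t i1) h5
  simp only [Finsupp.filter_apply, Finsupp.zero_apply] at h6
  rw [if_pos (by rw [hN, ← hi1N])] at h6
  exact Finsupp.mem_support_iff.1 hi1 h6

end

open Pool.Agent.L7h24.TS

/-- **Independence.** -/
theorem indepA (f : List ℕ → AA) (α : ℕ → List ℕ → ℕ) (f0 : f [] = 1) (e : List ℕ → ℝ) (e0 : e [] = 1)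
    (he : ∀ P, e P = 1 ∨ e P = -1)
    (f1 : ∀ p P, sg (f (p :: P)) = PowerSeries.C (e (p :: P)) * f (p :: P) + sg (PowerSeries.X ^ α p P * f P) +
      PowerSeries.C (e (p :: P)) * (PowerSeries.X ^ α p P * f P))
    (hα0 : ∀ p P, α p P ≠ 0) (hα : ∀ P p q, e (p :: P) = e (q :: P) → α p P = α q P → p = q)
    (S : Finset (List ℕ)) (ρ : List ℕ → ℝ[X]) (hS : ∑ i ∈ S, pp (ρ i) * f i = 0) : ∀ i ∈ S, ρ i = 0 := by
  classical
  have hx : ∀ (n : ℕ) (a : AA), xK ^ n • af a = af (PowerSeries.X ^ n * a) := by
    intro n a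
    rw [smul_KF, map_pow, io_xK, xF, map_mul, map_pow]
  have hC : ∀ (r : ℝ) (a : AA), (algebraMap ℝ KK r) • af a = af (PowerSeries.C r * a) := by
    intro r a
    rw [smul_KF, io_k, map_mul]
    rfl
  have key := indep (k := ℝ) sK tF tF_smul xK (fun P => af (f P)) α
    (by simp only [f0, map_one]) (fun P => algebraMap ℝ KK (e P)) (by simp only [e0, map_one])
    (fun P => by rcases he P with h | h <;> simp [h])
    (fun p P => by
      rw [hx, tF_af, tF_af, hC, hC, f1, map_add, map_add])
    sK_k const1 const2 noSol hα0 (fun P p q h => hα P p q ((algebraMap ℝ KK).injective h))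
    (Finsupp.onFinset (S.filter fun i => ρ i ≠ 0) (fun i => if i ∈ S then aeval xK (ρ i) else 0) (fun i hi => by
      by_cases h1 : i ∈ S
      · rw [if_pos h1] at hi
        refine Finset.mem_filter.2 ⟨h1, fun h2 => hi ?_⟩
        rw [h2, map_zero]
      · rw [if_neg h1] at hi
        exact absurd rfl hi))
  intro i hi
  have h2 := key (by
    refine (Finsupp.onFinset_sum (g := fun (i : List ℕ) (c : KK) => c • af (f i)) _
      (fun _ => zero_smul _ _)).trans ?_
    rw [← map_zero af, ← hS, map_sum, Finset.sum_filter]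
    refine Finset.sum_congr rfl fun j hj => ?_
    split_ifs with h3
    · rw [smul_KF, io_aeval, map_mul]
    · rw [not_not] at h3
      rw [h3, map_zero, zero_mul, map_zero])
  have h3 := congrArg (fun t : List ℕ →₀ KK => t i) h2
  simp only [Finsupp.onFinset_apply, Finsupp.zero_apply, if_pos hi] at h3
  exact aeval_inj h3

end Pool.Agent.L7h24.OE
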