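import Mathlib
import Pool.Agent.L7h24.TS.One
import Pool.Agent.L7h24.TS.Fin

/-!
# Words with arbitrary positive letters, and the inner series of a word
-/

set_option autoImplicit false

namespace Pool.Agent.L7h24.OE

open PowerSeries Filter Topology
open Pool.Agent.H447R2.MZ (H H_nil H_cons H_cons_zero H_cons_succ H_nonneg Adm val tendsto_H H_le_val)
open Pool.Agent.L7h24.CS (w2 w2_ge w2_succ' w2_zero)
open Pool.Agent.L7h24.TS (AA sg sg_C sg_X ser ser_eq Ri Ri_eq Ri_zero Di in_step pp mono_sum)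

/-- `(l, k)` stands for the function `H l m (m + 1) ^ (1 - k)` -/
abbrev St : Type := List ℕ × ℕ

def Xs (t : St) : St := (t.1, t.2 + 1)

def Xi (t : St) : St := (t.1, t.2 - 1)

def Ys (t : St) : St := ((t.2 + 1) :: t.1, 1)

noncomputable def fB (t : St) (m : ℕ) : ℝ := H t.1 m * ((m : ℝ) + 1) / ((m : ℝ) + 1) ^ t.2

noncomputable def ph (t : St) : AA := X ^ 2 * Ri (fB t) 0

lemma ph_X (t : St) : sg (ph (Xs t)) = ph (Xs t) - sg (X * ph t) - X * ph t := by
  have h := in_step (fB t)
  have e : (fun m : ℕ => fB t m / ((m : ℝ) + 1)) = fB (Xs t) := by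
    funext m
    rw [fB, fB, Xs, pow_succ, div_div]
  rw [e] at h
  unfold ph
  rw [h]
  ring_nf

lemma ph_Xi {t : St} (ht : 1 ≤ t.2) : sg (X * ph (Xi t)) = -(X * ph (Xi t)) + ph t - sg (ph t) := by
  have h := ph_X (Xi t)
  have e : Xs (Xi t) = t := by
    unfold Xs Xi
    simp only
    rw [Nat.sub_add_cancel ht]
  rw [e] at h
  linear_combination h

lemma Di_fB (t : St) : Di (fB (Ys t)) = fB t := by
  funext m
  simp only [Di, fB, Ys, pow_one]
  have h0 : ((m : ℝ) + 1) ≠ 0 := by positivity
  have h1 : (((m + 1 : ℕ) : ℝ) + 1) ≠ 0 := by positivity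
  rw [mul_div_cancel_right₀ _ h1, mul_div_cancel_right₀ _ h0, H_cons_succ]
  push_cast
  rw [pow_succ]
  field_simp
  ring

lemma ph_Y (t : St) : ph (Ys t) = -(X ^ 2 * ph t) := by
  unfold ph
  rw [Ri_eq (fB (Ys t)), Di_fB]
  have e : fB (Ys t) 0 = 0 := by
    simp only [fB, Ys]
    rw [H_cons_zero, zero_mul, zero_div]
  rw [e, map_zero]
  ring

lemma ph_Yn (t : St) (e : ℕ) : ph (Ys^[e] t) = C ((-1) ^ e) * X ^ (2 * e) * ph t := by
  induction e with
  | zero => simp
  | succ e ih =>
    rw [Function.iterate_succ_apply', ph_Y, ih, pow_succ (-1 : ℝ) e, map_mul, map_neg, map_one]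
    ring

lemma fB_one (l : List ℕ) : fB (l, 1) = H l := by
  funext m
  have h0 : ((m : ℝ) + 1) ≠ 0 := by positivity
  simp only [fB, pow_one]
  rw [mul_div_cancel_right₀ _ h0]

lemma ph_nil : ph ([], 1) = X ^ 2 := by
  unfold ph
  have e : fB ([], 1) = fun _ => (1 : ℝ) := by
    rw [fB_one]
    funext m
    rw [H_nil]
  have e2 : Di (fun _ => (1 : ℝ)) = fun _ => 0 := by
    funext m
    simp [Di]
  rw [e, Ri_eq, e2, Ri_zero, map_one, mul_zero, sub_zero, mul_one]

/-! ### Encoding -/

def ops (p : ℕ) (t : St) : St := if p % 2 = 0 then Xs t else Xi t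

def ee (p : ℕ) : List ℕ → ℕ
  | [] => p / 2
  | q :: _ => if p % 2 = 0 ∧ q % 2 = 0 then p / 2 else p / 2 + 1

def st : List ℕ → St
  | [] => ([], 1)
  | p :: P => ops p (Ys^[ee p P] (st P))

def dd : List ℕ → ℕ
  | [] => 2
  | _ :: _ => 0

def oo : List ℕ → ℕ
  | [] => 0
  | p :: _ => p % 2

noncomputable def ss : List ℕ → ℝ
  | [] => 1
  | p :: P => -((-1) ^ ee p P * ss P)

/-- the normalized series -/
noncomputable def nn : List ℕ → AA
  | [] => 1
  | p :: P => C (ss (p :: P)) * (X ^ (p % 2) * ph (st (p :: P)))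

noncomputable def sgn : List ℕ → ℝ
  | [] => 1
  | p :: _ => if p % 2 = 0 then 1 else -1

def al (p : ℕ) (P : List ℕ) : ℕ := (1 - p % 2) + 2 * ee p P + dd P - oo P

lemma ss_sq (P : List ℕ) : ss P * ss P = 1 := by
  induction P with
  | nil => simp [ss]
  | cons e P ih =>
    rw [ss]
    have h : ((-1 : ℝ) ^ ee e P) * (-1) ^ ee e P = 1 := by rw [← mul_pow]; norm_num
    linear_combination h + ((-1 : ℝ) ^ ee e P) * (-1) ^ ee e P * ih

lemma Yn_snd (t : St) (e : ℕ) (he : 1 ≤ e) : (Ys^[e] t).2 = 1 := by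
  obtain ⟨e, rfl⟩ : ∃ e', e = e' + 1 := ⟨e - 1, by omega⟩
  rw [Function.iterate_succ_apply']
  rfl

lemma nn_eq (P : List ℕ) : X ^ oo P * ph (st P) = C (ss P) * X ^ dd P * nn P := by
  cases P with
  | nil =>
    rw [st, ph_nil, ss, dd, nn, oo, map_one]
    ring
  | cons e P =>
    rw [nn, dd, oo]
    have h : (C (ss (e :: P)) : AA) * C (ss (e :: P)) = 1 := by
      rw [← map_mul, ss_sq, map_one]
    linear_combination (-(X ^ (e % 2) * ph (st (e :: P)))) * h

lemma oo_le (p : ℕ) (P : List ℕ) : oo P ≤ 2 * ee p P := by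
  cases P with
  | nil => simp [oo]
  | cons q P =>
    rw [oo, ee]
    split_ifs with h
    · omega
    · omega

lemma key (p : ℕ) (P : List ℕ) : X ^ al p P * nn P =
    -(C (ss (p :: P)) * (X ^ (1 - p % 2) * ph (Ys^[ee p P] (st P)))) := by
  have h1 := nn_eq P
  have h2 : (C (ss (p :: P)) : AA) * C ((-1) ^ ee p P) * C (ss P) = -1 := by
    rw [← map_mul, ← map_mul]
    have h : ((-1 : ℝ) ^ ee p P) * (-1) ^ ee p P = 1 := by rw [← mul_pow]; norm_num
    have h3 := ss_sq P
    rw [show ss (p :: P) * (-1) ^ ee p P * ss P = -1 by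
      rw [ss]
      linear_combination -h - ((-1 : ℝ) ^ ee p P) * (-1) ^ ee p P * h3, map_neg, map_one]
  have h3 := oo_le p P
  obtain ⟨a, ha⟩ : ∃ a, 2 * ee p P = oo P + a := ⟨2 * ee p P - oo P, by omega⟩
  have h4 : al p P = (1 - p % 2) + a + dd P := by unfold al; omega
  rw [ph_Yn, ha, h4, pow_add X (oo P) a, pow_add X (_ + a), pow_add X _ a]
  have h5 : (C ((-1) ^ ee p P) : AA) * (X ^ oo P * X ^ a) * ph (st P) =
      C ((-1) ^ ee p P) * X ^ a * (X ^ oo P * ph (st P)) := by ring
  rw [h5, h1]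
  linear_combination (X ^ (1 - p % 2) * X ^ a * X ^ dd P * nn P) * h2

lemma f_rel (p : ℕ) (P : List ℕ) : sg (nn (p :: P)) = C (sgn (p :: P)) * nn (p :: P) +
    sg (X ^ al p P * nn P) + C (sgn (p :: P)) * (X ^ al p P * nn P) := by
  rw [key, nn, sgn]
  rcases Nat.mod_two_eq_zero_or_one p with h | h
  · rw [if_pos h, h, map_one, pow_zero, one_mul, Nat.sub_zero, pow_one]
    have h1 := ph_X (Ys^[ee p P] (st P))
    have h2 : st (p :: P) = Xs (Ys^[ee p P] (st P)) := by
      rw [st, ops, if_pos h]
    rw [h2, map_neg sg, map_mul sg (C _), map_mul sg (C _), sg_C, h1]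
    ring
  · rw [if_neg (by omega), h, map_neg, map_one, pow_one, Nat.sub_self, pow_zero, one_mul]
    have ht : 1 ≤ (Ys^[ee p P] (st P)).2 := by
      cases P with
      | nil =>
        rcases Nat.eq_zero_or_pos (ee p []) with h3 | h3
        · rw [h3]
          exact le_rfl
        · rw [Yn_snd _ _ h3]
      | cons q P =>
        rw [Yn_snd]
        rw [ee, if_neg (by omega)]
        omega
    have h1 := ph_Xi ht
    have h2 : st (p :: P) = Xi (Ys^[ee p P] (st P)) := by
      rw [st, ops, if_neg (by omega)]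
    rw [h2, map_neg sg, map_mul sg (C _), map_mul sg (C _), sg_C, h1]
    ring

lemma al_ne (p : ℕ) (P : List ℕ) : al p P ≠ 0 := by
  cases P with
  | nil => simp [al, dd, oo]
  | cons q P =>
    simp only [al, dd, oo, ee]
    split_ifs with h <;> omega

lemma al_inj (P : List ℕ) (p q : ℕ) (h : sgn (p :: P) = sgn (q :: P)) (h2 : al p P = al q P) : p = q := by
  have h1 : p % 2 = q % 2 := by
    simp only [sgn] at h
    split_ifs at h with g1 g2 g2
    · omega
    · norm_num at h
    · norm_num at h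
    · omega
  cases P with
  | nil =>
    simp only [al, dd, oo, ee] at h2
    omega
  | cons r P =>
    simp only [al, dd, oo, ee] at h2
    split_ifs at h2 <;> omega

theorem indepN (S : Finset (List ℕ)) (ρ : List ℕ → Polynomial ℝ) (hS : ∑ i ∈ S, pp (ρ i) * nn i = 0) :
    ∀ i ∈ S, ρ i = 0 :=
  indepA nn al rfl sgn rfl (fun P => by
    cases P with
    | nil => exact Or.inl rfl
    | cons p P =>
      rw [sgn]
      split_ifs
      · exact Or.inl rfl
      · exact Or.inr rfl) f_rel al_ne al_inj S ρ hS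

lemma st_snd (p : ℕ) (P : List ℕ) : (p % 2 = 0 → 2 ≤ (st (p :: P)).2) ∧ (p % 2 = 1 → (st (p :: P)).2 = 0) := by
  induction P generalizing p with
  | nil =>
    have h1 : (Ys^[ee p []] (st [])).2 = 1 := by
      rcases Nat.eq_zero_or_pos (ee p []) with h3 | h3
      · rw [h3]
        rfl
      · rw [Yn_snd _ _ h3]
    refine ⟨fun h => ?_, fun h => ?_⟩
    · rw [st, ops, if_pos h, Xs]
      simp only
      omega
    · rw [st, ops, if_neg (by omega), Xi]
      simp only
      omega
  | cons q P ih =>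
    refine ⟨fun h => ?_, fun h => ?_⟩
    · rw [st, ops, if_pos h, Xs]
      simp only
      rcases Nat.eq_zero_or_pos (ee p (q :: P)) with h3 | h3
      · rw [h3, Function.iterate_zero, id]
        have h4 : q % 2 = 0 := by
          rw [ee] at h3
          split_ifs at h3 with h5
          exact h5.2
        have := (ih q).1 h4
        omega
      · rw [Yn_snd _ _ h3]
    · rw [st, ops, if_neg (by omega), Xi]
      simp only
      rw [Yn_snd]
      rw [ee, if_neg (by omega)]
      omega

lemma enc (l : List ℕ) (hl : ∀ x ∈ l, 1 ≤ x) : ∃ e P, ((l, 1) : St) = Ys^[e] (st P) := by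
  induction l with
  | nil => exact ⟨0, [], rfl⟩
  | cons k l ih =>
    obtain ⟨e, P, h⟩ := ih fun x hx => hl x (List.mem_cons_of_mem _ hx)
    have hk : 1 ≤ k := hl k List.mem_cons_self
    have he : P ≠ [] → 1 ≤ e := by
      intro hP
      by_contra h0
      obtain rfl : e = 0 := by omega
      obtain ⟨q, P', rfl⟩ := List.exists_cons_of_ne_nil hP
      rw [Function.iterate_zero, id] at h
      have h1 := st_snd q P'
      rw [← h] at h1
      simp only at h1
      rcases Nat.mod_two_eq_zero_or_one q with h2 | h2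
      · have := h1.1 h2; omega
      · have := h1.2 h2; omega
    rcases Nat.lt_or_ge k 2 with hk1 | hk2
    · obtain rfl : k = 1 := by omega
      refine ⟨1, (if P = [] then 2 * e + 1 else 2 * (e - 1) + 1) :: P, ?_⟩
      have h1 : ee (if P = [] then 2 * e + 1 else 2 * (e - 1) + 1) P = e := by
        cases P with
        | nil =>
          rw [if_pos rfl, ee]
          omega
        | cons q P =>
          have := he (List.cons_ne_nil _ _)
          rw [if_neg (List.cons_ne_nil _ _), ee, if_neg (by omega)]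
          omega
      rw [Function.iterate_one, st, h1, ← h, ops, if_neg (by split_ifs <;> omega)]
      rfl
    · obtain ⟨i, rfl⟩ : ∃ i, k = i + 2 := ⟨k - 2, by omega⟩
      cases i with
      | zero =>
        refine ⟨e + 1, P, ?_⟩
        rw [Function.iterate_succ_apply', ← h]
        rfl
      | succ i =>
        have h2 : ∀ i : ℕ, ∃ q P', q % 2 = 0 ∧ ((l, i + 2) : St) = st (q :: P') := by
          intro i
          induction i with
          | zero =>
            refine ⟨if P = [] ∨ oo P = 0 then 2 * e else 2 * (e - 1), P, by split_ifs <;> omega, ?_⟩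
            have h1 : ee (if P = [] ∨ oo P = 0 then 2 * e else 2 * (e - 1)) P = e := by
              cases P with
              | nil =>
                rw [if_pos (Or.inl rfl), ee]
                omega
              | cons q P =>
                have := he (List.cons_ne_nil _ _)
                by_cases h3 : q % 2 = 0
                · have h3' : oo (q :: P) = 0 := h3
                  rw [if_pos (Or.inr h3'), ee, if_pos ⟨by omega, h3⟩]
                  omega
                · have h3' : ¬ oo (q :: P) = 0 := h3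
                  rw [if_neg (by
                    rintro (h4 | h4)
                    · exact List.cons_ne_nil _ _ h4
                    · exact h3' h4), ee, if_neg (by
                    rintro ⟨_, h4⟩
                    exact h3 h4)]
                  omega
            rw [st, h1, ← h, ops, if_pos (by split_ifs <;> omega)]
            rfl
          | succ i ih =>
            obtain ⟨q, P', hq, hP'⟩ := ih
            refine ⟨0, q :: P', rfl, ?_⟩
            rw [st, ee, if_pos ⟨rfl, hq⟩, Nat.zero_div, Function.iterate_zero_apply, ← hP', ops, if_pos rfl]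
            rfl
        obtain ⟨q, P', -, hP'⟩ := h2 i
        refine ⟨1, q :: P', ?_⟩
        rw [Function.iterate_one, ← hP']
        rfl

lemma Y_iter (l : List ℕ) (i : ℕ) : Ys^[i] ((l, 1) : St) = (w2 i ++ l, 1) := by
  induction i with
  | zero => rfl
  | succ i ih =>
    rw [Function.iterate_succ_apply', ih]
    rfl

lemma dec {l l1 : List ℕ} {e i : ℕ} {P : List ℕ} (h : ((l, 1) : St) = Ys^[e] (st P))
    (h1 : ((l1, 1) : St) = Ys^[i + e] (st P)) : l1 = w2 i ++ l := by
  rw [Function.iterate_add_apply, ← h, Y_iter] at h1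
  exact (Prod.ext_iff.1 h1).1

lemma ph_word (l : List ℕ) (hl : ∀ x ∈ l, 1 ≤ x) : ∃ (e : ℕ) (P : List ℕ) (s : ℝ), ((l, 1) : St) = Ys^[e] (st P) ∧
    s ≠ 0 ∧ X * ph (l, 1) = C s * X ^ (2 * e + dd P + (1 - oo P)) * nn P := by
  obtain ⟨e, P, h⟩ := enc l hl
  refine ⟨e, P, (-1) ^ e * ss P, h, ?_, ?_⟩
  · refine mul_ne_zero (pow_ne_zero _ (by norm_num)) fun h0 => ?_
    have := ss_sq P
    rw [h0, zero_mul] at this
    exact zero_ne_one this
  · have h1 := nn_eq P
    have h2 : oo P ≤ 1 := by
      cases P with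
      | nil => simp [oo]
      | cons q P => rw [oo]; omega
    have h3 : (X : AA) = X ^ (1 - oo P) * X ^ oo P := by
      rw [← pow_add, show 1 - oo P + oo P = 1 by omega, pow_one]
    rw [h, ph_Yn]
    calc X * (C ((-1) ^ e) * X ^ (2 * e) * ph (st P)) =
        X ^ (1 - oo P) * X ^ oo P * (C ((-1) ^ e) * X ^ (2 * e) * ph (st P)) := by rw [← h3]
      _ = C ((-1) ^ e) * X ^ (2 * e) * X ^ (1 - oo P) * (X ^ oo P * ph (st P)) := by ring
      _ = C ((-1) ^ e) * X ^ (2 * e) * X ^ (1 - oo P) * (C (ss P) * X ^ dd P * nn P) := by rw [h1]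
      _ = _ := by rw [map_mul, pow_add, pow_add]; ring

/-- independence of the inner series of the words -/
theorem indep_words (U : Finset (List ℕ)) (hU : ∀ u ∈ U, ∀ x ∈ u, 1 ≤ x) (c : List ℕ → ℝ)
    (hc : ∑ u ∈ U, C (c u) * Ri (H u) 0 = 0) : ∀ u ∈ U, c u = 0 := by
  classical
  have ch2 : ∀ u : List ℕ, ∃ (e : ℕ) (P : List ℕ) (s : ℝ), u ∈ U → (((u, 1) : St) = Ys^[e] (st P) ∧
      s ≠ 0 ∧ X * ph (u, 1) = C s * X ^ (2 * e + dd P + (1 - oo P)) * nn P) := by
    intro u
    by_cases hu : u ∈ U
    · obtain ⟨e, P, s, h⟩ := ph_word u (hU u hu)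
      exact ⟨e, P, s, fun _ => h⟩
    · exact ⟨0, [], 0, fun h => absurd h hu⟩
  choose e Q s h2 using ch2
  set n : List ℕ → ℕ := fun u => 2 * e u + dd (Q u) + (1 - oo (Q u)) with hn
  set r : List ℕ → ℝ := fun u => c u * s u with hr
  have key := indepN (U.image Q) (fun i => ∑ u ∈ U, (if Q u = i then Polynomial.monomial (n u) (r u) else 0)) (by
    have h3 : ∀ i ∈ U.image Q, pp (∑ u ∈ U, (if Q u = i then Polynomial.monomial (n u) (r u) else 0)) * nn i =
        ∑ u ∈ U, (if Q u = i then pp (Polynomial.monomial (n u) (r u)) * nn (Q u) else 0) := by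
      intro i _
      rw [map_sum, Finset.sum_mul]
      refine Finset.sum_congr rfl fun u _ => ?_
      by_cases h4 : Q u = i
      · rw [if_pos h4, if_pos h4, ← h4]
      · rw [if_neg h4, if_neg h4, map_zero, zero_mul]
    rw [Finset.sum_congr rfl h3, Finset.sum_comm]
    have h4 : ∀ u ∈ U, ∑ i ∈ U.image Q, (if Q u = i then pp (Polynomial.monomial (n u) (r u)) * nn (Q u) else 0) =
        X ^ 3 * (C (c u) * Ri (H u) 0) := by
      intro u hu
      rw [Finset.sum_ite_eq (U.image Q) (Q u), if_pos (Finset.mem_image_of_mem _ hu)]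
      have g2 := (h2 u hu).2.2
      have g3 : pp (Polynomial.monomial (n u) (r u)) = C (r u) * X ^ (n u) := by
        rw [← Polynomial.C_mul_X_pow_eq_monomial]
        simp
      rw [g3, hr, hn]
      simp only
      rw [map_mul]
      calc _ = C (c u) * (C (s u) * X ^ (2 * e u + dd (Q u) + (1 - oo (Q u))) * nn (Q u)) := by ring
        _ = _ := by rw [← g2, ph, fB_one]; ring
    rw [Finset.sum_congr rfl h4, ← Finset.mul_sum, hc, mul_zero])
  intro u hu
  have h3 := mono_sum U (fun v => Q v = Q u) n r (key (Q u) (Finset.mem_image_of_mem _ hu)) hu rfl (by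
    intro v hv hv1 hv2
    simp only [hn] at hv2
    rw [hv1] at hv2
    have g3 : e v = e u := by omega
    have b1 := (h2 v hv).1
    have b2 := (h2 u hu).1
    rw [hv1, g3, ← b2] at b1
    exact (Prod.ext_iff.1 b1).1)
  simp only [hr] at h3
  rcases mul_eq_zero.1 h3 with h4 | h4
  · exact h4
  · exact absurd h4 (h2 u hu).2.1

end Pool.Agent.L7h24.OE
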