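import Mathlib
import Pool.Agent.L7h24.TS.StB

/-!
# The numbers `ζ(2 ... 2 u)` for words `u` with arbitrary positive letters: expansions in the `ζ(2, ..., 2)`
-/

set_option autoImplicit false

namespace Pool.Agent.L7h24.OE

open Filter Topology
open Pool.Agent.Q217.TT (ep ep_nil ep_self ep_nonneg ep_succ ep_left ep_two_le' ep_mono)
open Pool.Agent.H447R2.MZ (H H_nil H_cons H_cons_zero H_cons_succ H_nonneg Adm val tendsto_H H_le_val)
open Pool.Agent.L7h24.CS (T T_nil T_left T_le T_nonneg tendsto_T ep_le_T T_tendsto_zero w2 w2_ge w2_succ' w2_zero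
  x_nonneg x_le_one ExH Vt Vi Z Z_nonneg Z_pos Expan expo hasSum_tail hasSum_iZ H2_zero H2_pos H2_mono adm_rep expand_H
  Z_rel Z_add_le)

lemma sqrt_step (m : ℕ) : 2 * Real.sqrt m + 1 / Real.sqrt ((m : ℝ) + 1) ≤ 2 * Real.sqrt ((m : ℝ) + 1) := by
  have h0 : (0 : ℝ) ≤ m := Nat.cast_nonneg m
  have h1 : 0 < Real.sqrt ((m : ℝ) + 1) := Real.sqrt_pos.2 (by linarith)
  have h2 := Real.sq_sqrt h0
  have h3 := Real.sq_sqrt (by linarith : (0 : ℝ) ≤ (m : ℝ) + 1)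
  have h4 : 2 * Real.sqrt m * Real.sqrt ((m : ℝ) + 1) ≤ 2 * m + 1 := by
    have := sq_nonneg (Real.sqrt m - Real.sqrt ((m : ℝ) + 1))
    nlinarith
  have h5 : 2 * Real.sqrt ((m : ℝ) + 1) - (2 * Real.sqrt m + 1 / Real.sqrt ((m : ℝ) + 1)) =
      (2 * ((m : ℝ) + 1) - 2 * Real.sqrt m * Real.sqrt ((m : ℝ) + 1) - 1) / Real.sqrt ((m : ℝ) + 1) := by
    field_simp
    rw [h3]
    ring
  have h6 : 0 ≤ (2 * ((m : ℝ) + 1) - 2 * Real.sqrt m * Real.sqrt ((m : ℝ) + 1) - 1) / Real.sqrt ((m : ℝ) + 1) :=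
    div_nonneg (by linarith) h1.le
  linarith

/-- growth of the harmonic sums -/
lemma H_growth (u : List ℕ) (hu : ∀ x ∈ u, 1 ≤ x) (m : ℕ) : H u m ≤ 2 ^ u.length * Real.sqrt ((m : ℝ) + 1) := by
  induction u generalizing m with
  | nil =>
    rw [H_nil, List.length_nil, pow_zero, one_mul]
    exact Real.one_le_sqrt.2 (by have : (0 : ℝ) ≤ m := Nat.cast_nonneg m; linarith)
  | cons a u ih =>
    have ha : 1 ≤ a := hu a List.mem_cons_self
    have ih' := fun m => ih (fun x hx => hu x (List.mem_cons_of_mem _ hx)) m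
    have h1 : H (a :: u) m ≤ 2 ^ u.length * (2 * Real.sqrt m) := by
      clear hu ih
      induction m with
      | zero => rw [H_cons_zero]; simp
      | succ m ihm =>
        rw [H_cons_succ]
        have h0 : (0 : ℝ) ≤ m := Nat.cast_nonneg m
        have hs : 0 < Real.sqrt ((m : ℝ) + 1) := Real.sqrt_pos.2 (by linarith)
        have hsq := Real.sq_sqrt (by linarith : (0 : ℝ) ≤ (m : ℝ) + 1)
        have h2 : (((m + 1 : ℕ) : ℝ) ^ a)⁻¹ ≤ ((m : ℝ) + 1)⁻¹ := by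
          apply inv_anti₀ (by positivity)
          push_cast
          exact le_self_pow₀ (by linarith) (by omega)
        have h3 : (((m + 1 : ℕ) : ℝ) ^ a)⁻¹ * H u m ≤ ((m : ℝ) + 1)⁻¹ * (2 ^ u.length * Real.sqrt ((m : ℝ) + 1)) :=
          mul_le_mul h2 (ih' m) (H_nonneg _ _) (by positivity)
        have h4 : ((m : ℝ) + 1)⁻¹ * (2 ^ u.length * Real.sqrt ((m : ℝ) + 1)) =
            2 ^ u.length * (1 / Real.sqrt ((m : ℝ) + 1)) := by
          have : ((m : ℝ) + 1)⁻¹ * Real.sqrt ((m : ℝ) + 1) = 1 / Real.sqrt ((m : ℝ) + 1) := by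
            rw [eq_div_iff hs.ne', mul_assoc, ← pow_two, hsq, inv_mul_cancel₀ (by positivity)]
          rw [← this]
          ring
        have h5 := mul_le_mul_of_nonneg_left (sqrt_step m) (by positivity : (0 : ℝ) ≤ 2 ^ u.length)
        push_cast
        rw [mul_add] at h5
        push_cast at h3
        linarith
    rw [List.length_cons, pow_succ, mul_assoc]
    refine h1.trans (mul_le_mul_of_nonneg_left ?_ (by positivity))
    exact mul_le_mul_of_nonneg_left (Real.sqrt_le_sqrt (by linarith)) (by norm_num)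

/-- one more letter -/
lemma T_step (j : ℕ) {M : ℕ} (hM : 1 ≤ M) : T (w2 (j + 1)) M ≤ 1 / (M : ℝ) * T (w2 j) M := by
  refine le_of_tendsto (tendsto_T (w2_ge (j + 1)) hM) ?_
  filter_upwards [eventually_ge_atTop M] with N hN
  rw [show w2 (j + 1) = 2 :: w2 j from List.replicate_succ, ep]
  have h1 : ∀ n ∈ Finset.Ico M N, (((n + 1 : ℕ) : ℝ) ^ 2)⁻¹ * ep (w2 j) M n ≤
      (((n + 1 : ℕ) : ℝ) ^ 2)⁻¹ * T (w2 j) M := by
    intro n hn
    exact mul_le_mul_of_nonneg_left (ep_le_T (w2_ge j) hM (Finset.mem_Ico.1 hn).1) (by positivity)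
  refine (Finset.sum_le_sum h1).trans ?_
  rw [← Finset.sum_mul]
  have h3 : ∑ n ∈ Finset.Ico M N, (((n + 1 : ℕ) : ℝ) ^ 2)⁻¹ = ep [2] M N := by
    rw [ep]
    exact Finset.sum_congr rfl fun n _ => by rw [ep_nil, mul_one]
  rw [h3]
  exact mul_le_mul_of_nonneg_right (ep_two_le' hM hN) (T_nonneg (w2_ge j) hM)

lemma adm_two {u : List ℕ} (hu : ∀ x ∈ u, 1 ≤ x) : Adm (2 :: u) := by
  refine ⟨fun x hx => ?_, fun x t h => ?_⟩
  · rcases List.mem_cons.1 hx with rfl | h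
    · norm_num
    · exact hu x h
  · obtain ⟨rfl, -⟩ := List.cons_eq_cons.1 h
    exact le_rfl

lemma hasSum_b {u : List ℕ} (hu : ∀ x ∈ u, 1 ≤ x) {n : ℕ} (hn : 1 ≤ n) :
    HasSum (fun m : ℕ => H u m * (((m + 1 : ℕ) : ℝ) ^ 2)⁻¹ * T (w2 (n - 1)) (m + 1)) (Vi u n) := by
  obtain ⟨n, rfl⟩ : ∃ n', n = n' + 1 := ⟨n - 1, by omega⟩
  rw [Nat.add_sub_cancel, Vi, w2_succ', List.append_assoc, List.singleton_append]
  exact hasSum_tail (w2_ge n) (adm_two hu)

/-- the expansion -/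
lemma expan_b {u : List ℕ} (hu : ∀ x ∈ u, 1 ≤ x) {K : ℕ} {s : ℕ → ℚ} (h : ExH u (K + 1) s) : ∃ C : ℝ, 0 ≤ C ∧
    ∀ n, 1 ≤ n → |Vi u n - ∑ j ∈ Finset.range K, (s j : ℝ) * Z (n + j)| ≤ C * Z (n + K) := by
  set G : ℝ := 2 ^ u.length + ∑ i ∈ Finset.range (K + 1), |(s i : ℝ)| * Z i with hG
  have hG0 : 0 ≤ G := add_nonneg (by positivity) (Finset.sum_nonneg fun i _ => mul_nonneg (abs_nonneg _) (Z_nonneg i))
  have hh := H2_pos (K + 1)
  have hg : ∀ m : ℕ, |H u m - ∑ i ∈ Finset.range (K + 1), (s i : ℝ) * H (w2 i) m| ≤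
      G / H (w2 (K + 1)) (K + 1) * (H (w2 (K + 1)) m * Real.sqrt ((m : ℝ) + 1)) := by
    intro m
    have hm1 : 1 ≤ Real.sqrt ((m : ℝ) + 1) :=
      Real.one_le_sqrt.2 (by have : (0 : ℝ) ≤ m := Nat.cast_nonneg m; linarith)
    rcases Nat.lt_or_ge m (K + 1) with hm | hm
    · rw [h m hm, H2_zero hm]
      simp
    · have h1 : |H u m - ∑ i ∈ Finset.range (K + 1), (s i : ℝ) * H (w2 i) m| ≤ G * Real.sqrt ((m : ℝ) + 1) := by
        rw [hG, add_mul]
        refine (abs_sub _ _).trans (add_le_add ?_ ?_)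
        · rw [abs_of_nonneg (H_nonneg _ _)]
          exact H_growth u hu m
        · rw [Finset.sum_mul]
          refine (Finset.abs_sum_le_sum_abs _ _).trans (Finset.sum_le_sum fun i _ => ?_)
          rw [abs_mul, abs_of_nonneg (H_nonneg _ _)]
          calc |(s i : ℝ)| * H (w2 i) m ≤ |(s i : ℝ)| * Z i :=
                mul_le_mul_of_nonneg_left (H_le_val _ (adm_rep i) m) (abs_nonneg _)
            _ ≤ |(s i : ℝ)| * Z i * Real.sqrt ((m : ℝ) + 1) :=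
                le_mul_of_one_le_right (mul_nonneg (abs_nonneg _) (Z_nonneg _)) hm1
      refine h1.trans ?_
      rw [div_mul_eq_mul_div, le_div_iff₀ hh]
      have h2 := H2_mono (K + 1) hm
      calc G * Real.sqrt ((m : ℝ) + 1) * H (w2 (K + 1)) (K + 1) =
            G * Real.sqrt ((m : ℝ) + 1) * H (w2 (K + 1)) (K + 1) := rfl
        _ ≤ G * Real.sqrt ((m : ℝ) + 1) * H (w2 (K + 1)) m := mul_le_mul_of_nonneg_left h2 (by positivity)
        _ = _ := by ring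
  set D : ℝ := G / H (w2 (K + 1)) (K + 1) with hD
  have hD0 : 0 ≤ D := div_nonneg hG0 hh.le
  have hmain : ∀ n, 2 ≤ n → |Vi u n - ∑ j ∈ Finset.range (K + 1), (s j : ℝ) * Z (n + j)| ≤ D * Z (n + K) := by
    intro n hn
    have s1 : HasSum (fun m : ℕ => (H u m - ∑ i ∈ Finset.range (K + 1), (s i : ℝ) * H (w2 i) m) *
        (((m + 1 : ℕ) : ℝ) ^ 2)⁻¹ * T (w2 (n - 1)) (m + 1))
        (Vi u n - ∑ i ∈ Finset.range (K + 1), (s i : ℝ) * Z (n + i)) := by
      have h1 := (hasSum_b hu (by omega : 1 ≤ n)).sub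
        (hasSum_sum fun i (_ : i ∈ Finset.range (K + 1)) => (hasSum_iZ (by omega : 1 ≤ n) i).mul_left (s i : ℝ))
      refine (congrArg (fun f => HasSum f _) (funext fun m => ?_)).mp h1
      rw [sub_mul, sub_mul, Finset.sum_mul, Finset.sum_mul]
      congr 1
      exact Finset.sum_congr rfl fun i _ => by ring
    have s2 := (hasSum_iZ (by omega : 1 ≤ n - 1) (K + 1)).mul_left D
    rw [show n - 1 + (K + 1) = n + K by omega] at s2
    have hterm : ∀ m : ℕ, |(H u m - ∑ i ∈ Finset.range (K + 1), (s i : ℝ) * H (w2 i) m) *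
        (((m + 1 : ℕ) : ℝ) ^ 2)⁻¹ * T (w2 (n - 1)) (m + 1)| ≤
        D * (H (w2 (K + 1)) m * (((m + 1 : ℕ) : ℝ) ^ 2)⁻¹ * T (w2 (n - 1 - 1)) (m + 1)) := by
      intro m
      have h2 := hg m
      have h3 : 0 ≤ (((m + 1 : ℕ) : ℝ) ^ 2)⁻¹ * T (w2 (n - 1)) (m + 1) :=
        mul_nonneg (by positivity) (T_nonneg (w2_ge _) (by omega))
      rw [mul_assoc, abs_mul, abs_of_nonneg h3]
      have h4 := T_step (n - 1 - 1) (by omega : 1 ≤ m + 1)
      rw [show n - 1 - 1 + 1 = n - 1 by omega] at h4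
      have h5 := T_nonneg (w2_ge (n - 1 - 1)) (by omega : 1 ≤ m + 1)
      have h0 : (0 : ℝ) ≤ m := Nat.cast_nonneg m
      have hs : 0 < Real.sqrt ((m : ℝ) + 1) := Real.sqrt_pos.2 (by linarith)
      have hsq := Real.sq_sqrt (by linarith : (0 : ℝ) ≤ (m : ℝ) + 1)
      have h6 : Real.sqrt ((m : ℝ) + 1) * T (w2 (n - 1)) (m + 1) ≤ T (w2 (n - 1 - 1)) (m + 1) := by
        calc Real.sqrt ((m : ℝ) + 1) * T (w2 (n - 1)) (m + 1) ≤
              Real.sqrt ((m : ℝ) + 1) * (1 / ((m + 1 : ℕ) : ℝ) * T (w2 (n - 1 - 1)) (m + 1)) :=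
              mul_le_mul_of_nonneg_left h4 hs.le
          _ = (Real.sqrt ((m : ℝ) + 1) / ((m : ℝ) + 1)) * T (w2 (n - 1 - 1)) (m + 1) := by push_cast; ring
          _ ≤ 1 * T (w2 (n - 1 - 1)) (m + 1) := by
              refine mul_le_mul_of_nonneg_right ?_ h5
              rw [div_le_one (by positivity)]
              have h7 : 1 ≤ Real.sqrt ((m : ℝ) + 1) := Real.one_le_sqrt.2 (by linarith)
              nlinarith
          _ = _ := one_mul _
      have h8 : 0 ≤ H (w2 (K + 1)) m * (((m + 1 : ℕ) : ℝ) ^ 2)⁻¹ := mul_nonneg (H_nonneg _ _) (by positivity)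
      calc _ ≤ D * (H (w2 (K + 1)) m * Real.sqrt ((m : ℝ) + 1)) *
              ((((m + 1 : ℕ) : ℝ) ^ 2)⁻¹ * T (w2 (n - 1)) (m + 1)) := mul_le_mul_of_nonneg_right h2 h3
        _ = D * ((H (w2 (K + 1)) m * (((m + 1 : ℕ) : ℝ) ^ 2)⁻¹) *
              (Real.sqrt ((m : ℝ) + 1) * T (w2 (n - 1)) (m + 1))) := by ring
        _ ≤ D * ((H (w2 (K + 1)) m * (((m + 1 : ℕ) : ℝ) ^ 2)⁻¹) * T (w2 (n - 1 - 1)) (m + 1)) :=
              mul_le_mul_of_nonneg_left (mul_le_mul_of_nonneg_left h6 h8) hD0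
        _ = _ := by ring
    rw [abs_le]
    constructor
    · exact hasSum_le (fun m => neg_le_of_abs_le (hterm m)) s2.neg s1
    · exact hasSum_le (fun m => le_of_abs_le (hterm m)) s1 s2
  -- all `n`
  set e1 : ℝ := |Vi u 1 - ∑ j ∈ Finset.range K, (s j : ℝ) * Z (1 + j)| / Z (1 + K) with he1
  have he10 : 0 ≤ e1 := div_nonneg (abs_nonneg _) (Z_nonneg _)
  refine ⟨D + |(s K : ℝ)| + e1, by positivity, fun n hn => ?_⟩
  rcases Nat.lt_or_ge n 2 with h2 | h2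
  · obtain rfl : n = 1 := by omega
    have h3 : |Vi u 1 - ∑ j ∈ Finset.range K, (s j : ℝ) * Z (1 + j)| = e1 * Z (1 + K) := by
      rw [he1, div_mul_cancel₀ _ (Z_pos _).ne']
    rw [h3]
    exact mul_le_mul_of_nonneg_right (by linarith [abs_nonneg (s K : ℝ)]) (Z_nonneg _)
  · have h3 := hmain n h2
    rw [Finset.sum_range_succ] at h3
    have h4 : Vi u n - ∑ j ∈ Finset.range K, (s j : ℝ) * Z (n + j) =
        (Vi u n - (∑ j ∈ Finset.range K, (s j : ℝ) * Z (n + j) + (s K : ℝ) * Z (n + K))) + (s K : ℝ) * Z (n + K) := by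
      ring
    rw [h4]
    refine (abs_add_le _ _).trans ?_
    rw [abs_mul, abs_of_nonneg (Z_nonneg (n + K))]
    have h5 := mul_nonneg he10 (Z_nonneg (n + K))
    calc _ ≤ D * Z (n + K) + |(s K : ℝ)| * Z (n + K) := add_le_add h3 le_rfl
      _ ≤ _ := by linarith

end Pool.Agent.L7h24.OE
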