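import Mathlib
import Pool.Agent.L7h24.TS.WB

/-!
# Real coefficients
-/

set_option autoImplicit false

namespace Pool.Agent.L7h24.OE

open Filter Topology Polynomial
open Pool.Agent.H447R2.MZ (H H_nil H_cons H_cons_zero H_cons_succ H_nonneg Adm val tendsto_H H_le_val)
open Pool.Agent.L7h24.CS (T T_nil T_left T_le T_nonneg tendsto_T ep_le_T T_tendsto_zero w2 w2_ge w2_succ' w2_zero
  x_nonneg x_le_one ExH Vt Vi Z Z_nonneg Z_pos Expan expo hasSum_tail hasSum_iZ H2_zero H2_pos H2_mono adm_rep expand_H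
  Z_rel Z_add_le eval_bound dp dp_natDegree dp_eval single)

/-- expansions in the `Z (n + k)` whose real coefficients are independent -/
def ExpanR {ι : Type*} (U : Finset ι) (V : ι → ℕ → ℝ) (t : ι → ℕ → ℝ) : Prop :=
  (∀ K, ∃ C : ℝ, ∀ u ∈ U, ∀ n, 1 ≤ n → |V u n - ∑ k ∈ Finset.range K, t u k * Z (n + k)| ≤ C * Z (n + K)) ∧
    ∀ c : ι → ℝ, (∀ k, ∑ u ∈ U, c u * t u k = 0) → ∀ u ∈ U, c u = 0

lemma Z_up (K : ℕ) : ∀ᶠ n : ℕ in atTop, Z n ≤ (n : ℝ) ^ (2 * K + 1) * Z (n + K) := by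
  set F : ℝ := ∑ k ∈ Finset.range (2 * K + 1), |(dp K 0).coeff k| with hF
  filter_upwards [eventually_ge_atTop 1, tendsto_natCast_atTop_atTop.eventually_ge_atTop F] with n hn2 hn4
  have hn' : (1 : ℝ) ≤ n := by exact_mod_cast hn2
  have hZ := Z_pos (n + K)
  have hpi1 : (1 : ℝ) ≤ Real.pi ^ (2 * K) := one_le_pow₀ (by linarith [Real.pi_gt_three])
  have h3 := Z_rel (K := K) (i := 0) (Nat.zero_le _) n
  rw [add_zero, mul_zero, pow_zero, one_mul] at h3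
  have h4 := eval_bound (dp K 0) (A := 2 * K) (by rw [dp_natDegree]; omega) hn'
  have h5 : Z n ≤ Z n * Real.pi ^ (2 * K) := le_mul_of_one_le_right (Z_nonneg n) hpi1
  have h6 : (dp K 0).eval (n : ℝ) ≤ (n : ℝ) ^ (2 * K + 1) := by
    refine (le_abs_self _).trans (h4.trans ?_)
    rw [← hF, pow_succ, mul_comm]
    exact mul_le_mul_of_nonneg_left hn4 (by positivity)
  rw [h3] at h5
  refine h5.trans ?_
  rw [mul_comm]
  exact mul_le_mul_of_nonneg_right h6 hZ.le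

/-- `Z` decreases -/
lemma Z_down (n k : ℕ) : (n : ℝ) ^ 2 * Z (n + k + 1) ≤ 4 * Z (n + k) := by
  have h1 := Z_rel (K := 1) (i := 0) (by omega) (n + k)
  rw [add_zero, mul_zero, pow_zero, one_mul, mul_one, dp_eval] at h1
  simp only [mul_one, mul_zero, Nat.sub_zero, Finset.prod_range_succ, Finset.prod_range_zero, one_mul, add_zero] at h1
  have hZ := Z_pos (n + k + 1)
  have hZn := Z_pos (n + k)
  have hpi : Real.pi ^ 2 ≤ 12 := by
    have := Real.pi_lt_d2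
    have := Real.pi_pos
    nlinarith
  have h0 : (0 : ℝ) ≤ n := Nat.cast_nonneg n
  have h0' : (0 : ℝ) ≤ k := Nat.cast_nonneg k
  have h2 : 4 * (n : ℝ) ^ 2 ≤ ((2 * (n + k) + 2 : ℕ) : ℝ) * ((2 * (n + k) + 2 + 1 : ℕ) : ℝ) := by
    push_cast
    nlinarith
  have h3 := mul_le_mul_of_nonneg_left h2 hZ.le
  have h4 := mul_le_mul_of_nonneg_left hpi hZn.le
  nlinarith

lemma lin_low {P : ℝ[X]} (hP : P.natDegree ≤ 1) (hne : P ≠ 0) : ∃ c : ℝ, 0 < c ∧ ∀ᶠ n : ℕ in atTop,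
    c ≤ |P.eval (n : ℝ)| := by
  have he : ∀ x : ℝ, P.eval x = P.coeff 0 + P.coeff 1 * x := by
    intro x
    rw [eval_eq_sum_range' (Nat.lt_succ_of_le hP), Finset.sum_range_succ, Finset.sum_range_one]
    ring
  by_cases h1 : P.coeff 1 = 0
  · have h0 : P.coeff 0 ≠ 0 := by
      intro h0
      apply hne
      rw [eq_X_add_C_of_natDegree_le_one hP, h1, h0]
      simp
    refine ⟨|P.coeff 0|, abs_pos.2 h0, Eventually.of_forall fun n => ?_⟩
    rw [he, h1, zero_mul, add_zero]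
  · refine ⟨1, one_pos, ?_⟩
    have h2 := abs_pos.2 h1
    filter_upwards [tendsto_natCast_atTop_atTop.eventually_ge_atTop ((1 + |P.coeff 0|) / |P.coeff 1|)] with n hn
    rw [div_le_iff₀ h2] at hn
    rw [he]
    have h3 := abs_sub_abs_le_abs_sub (P.coeff 1 * (n : ℝ)) (-P.coeff 0)
    rw [abs_neg, sub_neg_eq_add, abs_mul, abs_of_nonneg (Nat.cast_nonneg n : (0 : ℝ) ≤ n),
      add_comm (P.coeff 1 * (n : ℝ))] at h3
    linarith

/-- real polynomials of degree at most one as coefficients -/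
theorem single1 {ι : Type*} (U : Finset ι) (V : ι → ℕ → ℝ) (t : ι → ℕ → ℝ) (hV : ExpanR U V t)
    (p : ι → ℝ[X]) (hp : ∀ u ∈ U, (p u).natDegree ≤ 1) (hne : ∃ u ∈ U, p u ≠ 0) :
    ∃ B : ℕ, ∀ᶠ n : ℕ in atTop, Z n ≤ (n : ℝ) ^ B * |∑ u ∈ U, (p u).eval (n : ℝ) * V u n| := by
  classical
  obtain ⟨hexp, hind⟩ := hV
  set P : ℕ → ℝ[X] := fun k => ∑ u ∈ U, C (t u k) * p u with hP
  have hPdeg : ∀ k, (P k).natDegree ≤ 1 := fun k =>
    natDegree_sum_le_of_forall_le _ _ fun u hu => (natDegree_C_mul_le _ _).trans (hp u hu)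
  have hex : ∃ k, P k ≠ 0 := by
    by_contra hcon
    push Not at hcon
    obtain ⟨u0, hu0, hpu0⟩ := hne
    apply hpu0
    ext j
    rw [coeff_zero]
    refine hind (fun u => (p u).coeff j) (fun k => ?_) u0 hu0
    have h1 := congrArg (fun q : ℝ[X] => q.coeff j) (hcon k)
    simp only [hP, finsetSum_coeff, coeff_C_mul, coeff_zero] at h1
    rw [← h1]
    exact Finset.sum_congr rfl fun u _ => mul_comm _ _
  set k0 := Nat.find hex with hk0
  have hk0n : P k0 ≠ 0 := Nat.find_spec hex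
  have hk0z : ∀ k < k0, P k = 0 := fun k hk => by
    by_contra h
    exact Nat.find_min hex hk h
  obtain ⟨c, hc0, hc⟩ := lin_low (hPdeg k0) hk0n
  obtain ⟨C0, hC0⟩ := hexp (k0 + 1)
  set G : ℝ := ∑ u ∈ U, (∑ k ∈ Finset.range (1 + 1), |(p u).coeff k|) * |C0| with hG
  have hG0 : 0 ≤ G := Finset.sum_nonneg fun _ _ =>
    mul_nonneg (Finset.sum_nonneg fun _ _ => abs_nonneg _) (abs_nonneg _)
  have herr : ∀ n : ℕ, 1 ≤ n → |∑ u ∈ U, (p u).eval (n : ℝ) * V u n - (P k0).eval (n : ℝ) * Z (n + k0)| ≤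
      G * (n : ℝ) * Z (n + k0 + 1) := by
    intro n hn
    have hn' : (1 : ℝ) ≤ n := by exact_mod_cast hn
    have h1 : ∑ u ∈ U, (p u).eval (n : ℝ) * ∑ k ∈ Finset.range (k0 + 1), t u k * Z (n + k) =
        (P k0).eval (n : ℝ) * Z (n + k0) := by
      have h2 : ∑ u ∈ U, (p u).eval (n : ℝ) * ∑ k ∈ Finset.range (k0 + 1), t u k * Z (n + k) =
          ∑ k ∈ Finset.range (k0 + 1), (P k).eval (n : ℝ) * Z (n + k) := by
        rw [hP]
        simp only [eval_finsetSum, eval_mul, eval_C, Finset.mul_sum, Finset.sum_mul]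
        rw [Finset.sum_comm]
        refine Finset.sum_congr rfl fun i _ => Finset.sum_congr rfl fun u _ => ?_
        ring
      rw [h2, Finset.sum_range_succ, Finset.sum_eq_zero, zero_add]
      intro k hk
      rw [hk0z k (Finset.mem_range.1 hk)]
      simp
    rw [← h1, ← Finset.sum_sub_distrib]
    refine (Finset.abs_sum_le_sum_abs _ _).trans ?_
    rw [hG, Finset.sum_mul, Finset.sum_mul]
    refine Finset.sum_le_sum fun u hu => ?_
    rw [← mul_sub, abs_mul]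
    have h4 := eval_bound (p u) (hp u hu) hn'
    rw [pow_one] at h4
    have h5 : |V u n - ∑ k ∈ Finset.range (k0 + 1), t u k * Z (n + k)| ≤ |C0| * Z (n + k0 + 1) :=
      (hC0 u hu n hn).trans (mul_le_mul_of_nonneg_right (le_abs_self _) (Z_nonneg _))
    calc _ ≤ (∑ k ∈ Finset.range (1 + 1), |(p u).coeff k|) * (n : ℝ) * (|C0| * Z (n + k0 + 1)) :=
          mul_le_mul h4 h5 (abs_nonneg _) (mul_nonneg (Finset.sum_nonneg fun _ _ => abs_nonneg _) (by positivity))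
      _ = _ := by ring
  refine ⟨2 * k0 + 1 + 1, ?_⟩
  filter_upwards [hc, Z_up k0, eventually_ge_atTop 1,
    tendsto_natCast_atTop_atTop.eventually_ge_atTop (8 * G / c),
    tendsto_natCast_atTop_atTop.eventually_ge_atTop (2 / c)] with n h1 h2 h3 h4 h5
  have hn' : (1 : ℝ) ≤ n := by exact_mod_cast h3
  have hn0 : (0 : ℝ) < n := by linarith
  have hZ := Z_pos (n + k0)
  have h6 := herr n h3
  have h7 := Z_down n k0
  rw [div_le_iff₀ hc0] at h4 h5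
  -- the error
  have h8 : G * (n : ℝ) * Z (n + k0 + 1) ≤ c / 2 * Z (n + k0) := by
    have h9 : (n : ℝ) * (G * (n : ℝ) * Z (n + k0 + 1)) ≤ (n : ℝ) * (c / 2 * Z (n + k0)) := by
      calc (n : ℝ) * (G * (n : ℝ) * Z (n + k0 + 1)) = G * ((n : ℝ) ^ 2 * Z (n + k0 + 1)) := by ring
        _ ≤ G * (4 * Z (n + k0)) := mul_le_mul_of_nonneg_left h7 hG0
        _ = (8 * G) / 2 * Z (n + k0) := by ring
        _ ≤ ((n : ℝ) * c) / 2 * Z (n + k0) := mul_le_mul_of_nonneg_right (by linarith) hZ.le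
        _ = _ := by ring
    exact le_of_mul_le_mul_left h9 hn0
  have h9 : c / 2 * Z (n + k0) ≤ |∑ u ∈ U, (p u).eval (n : ℝ) * V u n| := by
    have h10 := abs_sub_abs_le_abs_sub ((P k0).eval (n : ℝ) * Z (n + k0))
      ((P k0).eval (n : ℝ) * Z (n + k0) - ∑ u ∈ U, (p u).eval (n : ℝ) * V u n)
    rw [sub_sub_cancel, abs_sub_comm ((P k0).eval (n : ℝ) * Z (n + k0)), abs_mul, abs_of_pos hZ] at h10
    have h11 := mul_le_mul_of_nonneg_right h1 hZ.le
    linarith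
  have hX0 : 0 ≤ |∑ u ∈ U, (p u).eval (n : ℝ) * V u n| := abs_nonneg _
  calc Z n ≤ (n : ℝ) ^ (2 * k0 + 1) * Z (n + k0) := h2
    _ = (n : ℝ) ^ (2 * k0 + 1) * ((2 / c) * (c / 2 * Z (n + k0))) := by field_simp
    _ ≤ (n : ℝ) ^ (2 * k0 + 1) * ((n : ℝ) * |∑ u ∈ U, (p u).eval (n : ℝ) * V u n|) := by
        refine mul_le_mul_of_nonneg_left ?_ (by positivity)
        refine mul_le_mul ?_ h9 (by positivity) (by positivity)
        rw [div_le_iff₀ hc0]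
        exact h5
    _ = _ := by rw [pow_succ (n : ℝ) (2 * k0 + 1)]; ring

/-- different bases -/
theorem comb (J : Finset ℝ) (hJ : ∀ α ∈ J, 0 < α) (S : ℝ → ℕ → ℝ)
    (hup : ∃ (G : ℝ) (A : ℕ), 0 ≤ G ∧ ∀ α ∈ J, ∀ n : ℕ, 1 ≤ n → |S α n| ≤ G * (n : ℝ) ^ A * Z n)
    (hlow : ∀ α ∈ J, (∀ n, S α n = 0) ∨ ∃ B : ℕ, ∀ᶠ n : ℕ in atTop, Z n ≤ (n : ℝ) ^ B * |S α n|)
    (α₀ : ℝ) (hα₀ : α₀ ∈ J) (h0 : ∃ B : ℕ, ∀ᶠ n : ℕ in atTop, Z n ≤ (n : ℝ) ^ B * |S α₀ n|) :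
    ∃ B : ℕ, ∀ᶠ n : ℕ in atTop, α₀ ^ n * Z n ≤ (n : ℝ) ^ B * |∑ α ∈ J, α ^ n * S α n| := by
  classical
  obtain ⟨G, A, hG0, hSup⟩ := hup
  set J' := J.filter fun α => ∃ B : ℕ, ∀ᶠ n : ℕ in atTop, Z n ≤ (n : ℝ) ^ B * |S α n| with hJ'
  have hα₀' : α₀ ∈ J' := Finset.mem_filter.2 ⟨hα₀, h0⟩
  set β := J'.max' ⟨α₀, hα₀'⟩ with hβ
  have hβ' : β ∈ J' := J'.max'_mem _
  obtain ⟨hβJ, B, hB⟩ := Finset.mem_filter.1 hβ'
  have hαβ : α₀ ≤ β := J'.le_max' _ hα₀'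
  have hβ0 := hJ β hβJ
  -- the smaller bases
  have hsmall : ∀ α ∈ J.erase β, ∃ g : ℕ → ℝ, Tendsto g atTop (𝓝 0) ∧ ∀ n : ℕ, 1 ≤ n →
      |α ^ n * S α n| * (n : ℝ) ^ B ≤ g n * (β ^ n * Z n) := by
    intro α hα
    obtain ⟨hαne, hαJ⟩ := Finset.mem_erase.1 hα
    have hα0 := hJ α hαJ
    by_cases h : α ∈ J'
    · have hlt : α < β := lt_of_le_of_ne (J'.le_max' _ h) hαne
      refine ⟨fun n => G * ((n : ℝ) ^ (A + B) * (α / β) ^ n), ?_, fun n hn => ?_⟩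
      · have h1 := tendsto_pow_const_mul_const_pow_of_abs_lt_one (A + B) (r := α / β) (by
          rw [abs_of_pos (div_pos hα0 hβ0), div_lt_one hβ0]
          exact hlt)
        have h2 := h1.const_mul G
        rwa [mul_zero] at h2
      · rw [abs_mul, abs_of_pos (pow_pos hα0 n)]
        have h1 := hSup α hαJ n hn
        calc α ^ n * |S α n| * (n : ℝ) ^ B ≤ α ^ n * (G * (n : ℝ) ^ A * Z n) * (n : ℝ) ^ B := by
              gcongr
          _ = G * ((n : ℝ) ^ (A + B) * (α / β) ^ n) * (β ^ n * Z n) := by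
              rw [div_pow, pow_add]
              field_simp
    · refine ⟨fun _ => 0, tendsto_const_nhds, fun n _ => ?_⟩
      have h1 : ∀ n, S α n = 0 := (hlow α hαJ).resolve_right fun h2 => h (Finset.mem_filter.2 ⟨hαJ, h2⟩)
      rw [h1 n]
      simp
  choose! g hg0 hg using hsmall
  have hgsum : Tendsto (fun n => ∑ α ∈ J.erase β, g α n) atTop (𝓝 0) := by
    have := tendsto_finsetSum (J.erase β) fun α hα => hg0 α hα
    simpa using this
  refine ⟨B + 1, ?_⟩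
  filter_upwards [hB, hgsum.eventually (ge_mem_nhds (show (0 : ℝ) < 1 / 2 by norm_num)),
    eventually_ge_atTop 2] with n h1 h2 h3
  have hn' : (2 : ℝ) ≤ n := by exact_mod_cast h3
  have hnB : (0 : ℝ) < (n : ℝ) ^ B := by positivity
  have hZ := Z_pos n
  have hβn : 0 < β ^ n := pow_pos hβ0 n
  have hsplit : ∑ α ∈ J, α ^ n * S α n = β ^ n * S β n + ∑ α ∈ J.erase β, α ^ n * S α n := by
    rw [Finset.add_sum_erase J (fun α => α ^ n * S α n) hβJ]
  have hrest : |∑ α ∈ J.erase β, α ^ n * S α n| * (n : ℝ) ^ B ≤ 1 / 2 * (β ^ n * Z n) := by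
    calc _ ≤ (∑ α ∈ J.erase β, |α ^ n * S α n|) * (n : ℝ) ^ B :=
          mul_le_mul_of_nonneg_right (Finset.abs_sum_le_sum_abs _ _) hnB.le
      _ ≤ ∑ α ∈ J.erase β, g α n * (β ^ n * Z n) := by
          rw [Finset.sum_mul]
          exact Finset.sum_le_sum fun α hα => hg α hα n (by omega)
      _ = (∑ α ∈ J.erase β, g α n) * (β ^ n * Z n) := by rw [Finset.sum_mul]
      _ ≤ _ := mul_le_mul_of_nonneg_right h2 (by positivity)
  have hbig : β ^ n * Z n ≤ |β ^ n * S β n| * (n : ℝ) ^ B := by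
    rw [abs_mul, abs_of_pos hβn]
    calc β ^ n * Z n ≤ β ^ n * ((n : ℝ) ^ B * |S β n|) := mul_le_mul_of_nonneg_left h1 hβn.le
      _ = _ := by ring
  have h8 := abs_sub_abs_le_abs_sub (β ^ n * S β n) (-∑ α ∈ J.erase β, α ^ n * S α n)
  rw [abs_neg, sub_neg_eq_add, ← hsplit] at h8
  set X0 := |∑ α ∈ J, α ^ n * S α n| with hX0
  have h9 : 1 / 2 * (β ^ n * Z n) ≤ X0 * (n : ℝ) ^ B := by
    have h10 := mul_le_mul_of_nonneg_right h8 hnB.le
    rw [sub_mul] at h10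
    linarith
  have h11 : α₀ ^ n * Z n ≤ β ^ n * Z n :=
    mul_le_mul_of_nonneg_right (pow_le_pow_left₀ (hJ α₀ hα₀).le hαβ n) hZ.le
  have hX00 : 0 ≤ X0 := abs_nonneg _
  calc α₀ ^ n * Z n ≤ β ^ n * Z n := h11
    _ ≤ 2 * (X0 * (n : ℝ) ^ B) := by linarith
    _ ≤ n * (X0 * (n : ℝ) ^ B) := mul_le_mul_of_nonneg_right hn' (by positivity)
    _ = (n : ℝ) ^ (B + 1) * X0 := by ring

end Pool.Agent.L7h24.OE
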