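import Mathlib
import Pool.Agent.L7h24.TS.RealC

/-!
# The theorems with real coefficients
-/

set_option autoImplicit false

namespace Pool.Agent.L7h24.OE

open Filter Topology Polynomial
open Pool.Agent.H447R2.MZ (H H_nil H_cons H_cons_zero H_cons_succ H_nonneg Adm val tendsto_H H_le_val)
open Pool.Agent.L7h24.CS (T T_nil T_left T_le T_nonneg tendsto_T ep_le_T T_tendsto_zero w2 w2_ge w2_succ' w2_zero
  x_nonneg x_le_one ExH ExT Vt Vi Z Z_nonneg Z_pos Expan expo hasSum_tail hasSum_iZ H2_zero H2_pos H2_mono adm_rep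
  expand_H Z_rel Z_add_le eval_bound dp dp_natDegree dp_eval single tp tp_coeff expan_two Vt_le alg_of Alg ae_T)
open Pool.Agent.L7h24.TS (AA sr sb_C ser Ri Di ro ro_rat ro_ex si_eq fin_stab indep_pairs expan_pairs)

/-- both kinds of coefficients -/
theorem mixed {ι : Type*} (U : Finset ι) (V : ι → ℕ → ℝ) (t : ι → ℕ → ℝ) (hV : ExpanR U V t) (I : ℕ)
    (hI : Expan U V I) (J : Finset ℝ) (hJ : ∀ α ∈ J, 0 < α) (p : ℝ → ι → ℝ[X])
    (hp : ∀ α ∈ J, (∀ u ∈ U, (p α u).natDegree ≤ 1) ∨ (∀ u ∈ U, Alg (p α u))) (α₀ : ℝ) (hα₀ : α₀ ∈ J)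
    (hne : ∃ u ∈ U, p α₀ u ≠ 0) : ∃ B : ℕ, ∀ᶠ n : ℕ in atTop, α₀ ^ n * Z n ≤
      (n : ℝ) ^ B * |∑ α ∈ J, ∑ u ∈ U, α ^ n * (p α u).eval (n : ℝ) * V u n| := by
  classical
  set S : ℝ → ℕ → ℝ := fun α n => ∑ u ∈ U, (p α u).eval (n : ℝ) * V u n with hS
  have hlow : ∀ α ∈ J, (∃ u ∈ U, p α u ≠ 0) → ∃ B : ℕ, ∀ᶠ n : ℕ in atTop, Z n ≤ (n : ℝ) ^ B * |S α n| := by
    intro α hα h
    rcases hp α hα with h1 | h1
    · exact single1 U V t hV (p α) h1 h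
    · exact single U V I hI (p α) h1 h
  obtain ⟨C0, hC0⟩ := hV.1 0
  set A : ℕ := ∑ α ∈ J, ∑ u ∈ U, (p α u).natDegree with hA
  have hAu : ∀ α ∈ J, ∀ u ∈ U, (p α u).natDegree ≤ A := by
    intro α hα u hu
    refine (Finset.single_le_sum (f := fun u => (p α u).natDegree) (fun _ _ => Nat.zero_le _) hu).trans ?_
    exact Finset.single_le_sum (f := fun α => ∑ u ∈ U, (p α u).natDegree) (fun _ _ => Nat.zero_le _) hα
  set G : ℝ → ℝ := fun α => ∑ u ∈ U, (∑ k ∈ Finset.range (A + 1), |(p α u).coeff k|) * |C0| with hG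
  have hG0 : ∀ α, 0 ≤ G α := fun α => Finset.sum_nonneg fun _ _ =>
    mul_nonneg (Finset.sum_nonneg fun _ _ => abs_nonneg _) (abs_nonneg _)
  have hup : ∃ (G : ℝ) (A : ℕ), 0 ≤ G ∧ ∀ α ∈ J, ∀ n : ℕ, 1 ≤ n → |S α n| ≤ G * (n : ℝ) ^ A * Z n := by
    refine ⟨∑ α ∈ J, G α, A, Finset.sum_nonneg fun α _ => hG0 α, fun α hα n hn => ?_⟩
    have hn' : (1 : ℝ) ≤ n := by exact_mod_cast hn
    have h1 : |S α n| ≤ G α * (n : ℝ) ^ A * Z n := by
      refine (Finset.abs_sum_le_sum_abs _ _).trans ?_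
      rw [hG]
      simp only
      rw [Finset.sum_mul, Finset.sum_mul]
      refine Finset.sum_le_sum fun u hu => ?_
      rw [abs_mul]
      have h4 := eval_bound (p α u) (hAu α hα u hu) hn'
      have h5 : |V u n| ≤ |C0| * Z n := by
        have h6 := hC0 u hu n hn
        rw [Finset.sum_range_zero, sub_zero, add_zero] at h6
        exact h6.trans (mul_le_mul_of_nonneg_right (le_abs_self _) (Z_nonneg _))
      calc _ ≤ (∑ k ∈ Finset.range (A + 1), |(p α u).coeff k|) * (n : ℝ) ^ A * (|C0| * Z n) :=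
            mul_le_mul h4 h5 (abs_nonneg _) (mul_nonneg (Finset.sum_nonneg fun _ _ => abs_nonneg _) (by positivity))
        _ = _ := by ring
    refine h1.trans (mul_le_mul_of_nonneg_right (mul_le_mul_of_nonneg_right ?_ (by positivity)) (Z_nonneg _))
    exact Finset.single_le_sum (f := G) (fun α _ => hG0 α) hα
  have key := comb J hJ S hup (fun α hα => by
    by_cases h : ∃ u ∈ U, p α u ≠ 0
    · exact Or.inr (hlow α hα h)
    · push Not at h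
      exact Or.inl fun n => Finset.sum_eq_zero fun u hu => by rw [h u hu]; simp) α₀ hα₀ (hlow α₀ hα₀ hne)
  obtain ⟨B, hB⟩ := key
  refine ⟨B, hB.mono fun n hn => ?_⟩
  have e : ∑ α ∈ J, ∑ u ∈ U, α ^ n * (p α u).eval (n : ℝ) * V u n = ∑ α ∈ J, α ^ n * S α n := by
    refine Finset.sum_congr rfl fun α _ => ?_
    rw [hS]
    simp only
    rw [Finset.mul_sum]
    exact Finset.sum_congr rfl fun u _ => by ring
  rwa [e]

/-! ### Pairs of words with letters at least two -/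

theorem expanR_pairs (U : Finset (List ℕ × List ℕ)) (hU : ∀ u ∈ U, (∀ x ∈ u.1, 2 ≤ x) ∧ ∀ x ∈ u.2, 2 ≤ x)
    (hinj : ∀ u ∈ U, ∀ v ∈ U, (∀ n, u.1 ++ w2 n ++ u.2 = v.1 ++ w2 n ++ v.2) → u = v) :
    ∃ t, ExpanR U (fun u => Vt u.1 u.2) t := by
  classical
  have ch1 : ∀ u : List ℕ × List ℕ, ∃ r : ℕ → ℚ, u ∈ U → ∀ j, (r j : ℝ) = ro (T u.1) j := by
    intro u
    by_cases hu : u ∈ U
    · choose r hr using fun j => ro_rat (ae_T (hU u hu).1) j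
      exact ⟨r, fun _ => hr⟩
    · exact ⟨fun _ => 0, fun h => absurd h hu⟩
  choose r hr using ch1
  have ch2 : ∀ (u : List ℕ × List ℕ) (j : ℕ), ∃ s : ℚ, (s : ℝ) = (Di^[j] (H u.2)) 0 := by
    intro u j
    obtain ⟨s, hs⟩ := expand_H u.2 (j + 1)
    exact ⟨s j, (si_eq (s := fun i => (s i : ℝ)) (fun m hm => sub_eq_zero.1 (hs m hm)) j (Nat.lt_succ_self j)).symm⟩
  choose s hs using ch2
  have hExH : ∀ u K, ExH u.2 K (s u) := by
    intro u K m hm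
    obtain ⟨s', hs'⟩ := expand_H u.2 K
    rw [← hs' m hm]
    congr 1
    refine Finset.sum_congr rfl fun i hi => ?_
    rw [hs u i, si_eq (s := fun i => (s' i : ℝ)) (fun m hm => sub_eq_zero.1 (hs' m hm)) i (Finset.mem_range.1 hi)]
  have hExT : ∀ u ∈ U, ∀ K, ExT u.1 K (r u) := by
    intro u hu K
    obtain ⟨C, hC⟩ := ro_ex (ae_T (hU u hu).1) K
    refine ⟨C, fun m hm => ?_⟩
    simp only [hr u hu]
    exact hC m hm
  set t : List ℕ × List ℕ → ℕ → ℚ := fun u k => ∑ p ∈ Finset.HasAntidiagonal.antidiagonal k, r u p.1 * s u p.2 with ht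
  have htK : ∀ u K k, k < K → (tp K (r u) * tp K (s u)).coeff k = t u k := by
    intro u K k hk
    rw [Polynomial.coeff_mul, ht]
    refine Finset.sum_congr rfl fun p hp => ?_
    have := Finset.HasAntidiagonal.mem_antidiagonal.1 hp
    rw [tp_coeff, tp_coeff, if_pos (by omega), if_pos (by omega)]
  refine ⟨fun u k => (t u k : ℝ), fun K => ?_, ?_⟩
  · have hch2 : ∀ u : List ℕ × List ℕ, ∃ C : ℝ, u ∈ U → ∀ n, 1 ≤ n →
        |Vt u.1 u.2 n - ∑ k ∈ Finset.range K, ((tp K (r u) * tp K (s u)).coeff k : ℝ) * Z (n + k)| ≤ C * Z (n + K) := by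
      intro u
      by_cases hu : u ∈ U
      · obtain ⟨C, h⟩ := expan_two (hU u hu).1 (hU u hu).2 (hExT u hu K) (hExH u K)
        exact ⟨C, fun _ => h⟩
      · exact ⟨0, fun h => absurd h hu⟩
    choose C hC using hch2
    refine ⟨∑ u ∈ U, |C u|, fun u hu n hn => ?_⟩
    have h1 := hC u hu n hn
    rw [Finset.sum_congr rfl fun k hk => by rw [htK u K k (Finset.mem_range.1 hk)]] at h1
    refine h1.trans (mul_le_mul_of_nonneg_right ((le_abs_self _).trans ?_) (Z_nonneg _))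
    exact Finset.single_le_sum (f := fun u => |C u|) (fun _ _ => abs_nonneg _) hu
  · intro c hc
    refine indep_pairs U hU hinj c ?_
    have h2 : ∑ u ∈ U, PowerSeries.C (c u) * (PowerSeries.mk (ro (T u.1)) *
        PowerSeries.mk fun j => (Di^[j] (H u.2)) 0) = 0 := by
      ext k
      rw [map_sum, map_zero, ← hc k]
      refine Finset.sum_congr rfl fun u hu => ?_
      rw [PowerSeries.coeff_C_mul, PowerSeries.coeff_mul, ht]
      push_cast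
      congr 1
      refine Finset.sum_congr rfl fun p _ => ?_
      rw [PowerSeries.coeff_mk, PowerSeries.coeff_mk, hr u hu, hs]
    have h3 := congrArg sr h2
    rw [map_sum, map_zero] at h3
    rw [← h3]
    refine Finset.sum_congr rfl fun u _ => ?_
    rw [map_mul sr, map_mul sr, show sr (PowerSeries.C (c u)) = PowerSeries.C (c u) from sb_C _ _ _]
    rfl

/-- **Two-ended families** -/
theorem pairs_mixed (U : Finset (List ℕ × List ℕ)) (hU : ∀ u ∈ U, (∀ x ∈ u.1, 2 ≤ x) ∧ ∀ x ∈ u.2, 2 ≤ x)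
    (hinj : ∀ u ∈ U, ∀ v ∈ U, (∀ n, u.1 ++ w2 n ++ u.2 = v.1 ++ w2 n ++ v.2) → u = v)
    (J : Finset ℝ) (hJ : ∀ α ∈ J, 0 < α) (p : ℝ → List ℕ × List ℕ → ℝ[X])
    (hp : ∀ α ∈ J, (∀ u ∈ U, (p α u).natDegree ≤ 1) ∨ (∀ u ∈ U, ∀ k, IsAlgebraic ℚ ((p α u).coeff k)))
    (α₀ : ℝ) (hα₀ : α₀ ∈ J) (hne : ∃ u ∈ U, p α₀ u ≠ 0) : ∃ B : ℕ, ∀ᶠ n : ℕ in atTop, α₀ ^ n * Z n ≤
      (n : ℝ) ^ B * |∑ α ∈ J, ∑ u ∈ U, α ^ n * (p α u).eval (n : ℝ) * val (u.1 ++ w2 n ++ u.2)| := by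
  obtain ⟨t, ht⟩ := expanR_pairs U hU hinj
  obtain ⟨I, hI⟩ := expan_pairs U hU hinj
  exact mixed U (fun u => Vt u.1 u.2) t ht I hI J hJ p
    (fun α hα => (hp α hα).imp id fun h u hu => alg_of (h u hu)) α₀ hα₀ hne

/-! ### Words with arbitrary positive letters -/

/-- the coefficients of the expansion of a word -/
lemma coeffs : ∃ s : List ℕ → ℕ → ℚ, (∀ u j, (s u j : ℝ) = (Di^[j] (H u)) 0) ∧ ∀ u K, ExH u K (s u) := by
  have ch2 : ∀ (u : List ℕ) (j : ℕ), ∃ s : ℚ, (s : ℝ) = (Di^[j] (H u)) 0 := by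
    intro u j
    obtain ⟨s, hs⟩ := expand_H u (j + 1)
    exact ⟨s j, (si_eq (s := fun i => (s i : ℝ)) (fun m hm => sub_eq_zero.1 (hs m hm)) j (Nat.lt_succ_self j)).symm⟩
  choose s hs using ch2
  refine ⟨s, hs, fun u K m hm => ?_⟩
  obtain ⟨s', hs'⟩ := expand_H u K
  rw [← hs' m hm]
  congr 1
  refine Finset.sum_congr rfl fun i hi => ?_
  rw [hs u i, si_eq (s := fun i => (s' i : ℝ)) (fun m hm => sub_eq_zero.1 (hs' m hm)) i (Finset.mem_range.1 hi)]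

lemma indep_coeffs (U : Finset (List ℕ)) (hU : ∀ u ∈ U, ∀ x ∈ u, 1 ≤ x) {s : List ℕ → ℕ → ℚ}
    (hs : ∀ u j, (s u j : ℝ) = (Di^[j] (H u)) 0) (c : List ℕ → ℝ) (hc : ∀ k, ∑ u ∈ U, c u * (s u k : ℝ) = 0) :
    ∀ u ∈ U, c u = 0 := by
  refine indep_words U hU c ?_
  have h2 : ∑ u ∈ U, PowerSeries.C (c u) * (PowerSeries.mk fun j => (Di^[j] (H u)) 0) = 0 := by
    ext k
    rw [map_sum, map_zero, ← hc k]
    refine Finset.sum_congr rfl fun u hu => ?_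
    rw [PowerSeries.coeff_C_mul, PowerSeries.coeff_mk, hs]
  have h3 := congrArg sr h2
  rw [map_sum, map_zero] at h3
  rw [← h3]
  refine Finset.sum_congr rfl fun u _ => ?_
  rw [map_mul sr, show sr (PowerSeries.C (c u)) = PowerSeries.C (c u) from sb_C _ _ _]
  rfl

lemma expan_unif (U : Finset (List ℕ)) (hU : ∀ u ∈ U, ∀ x ∈ u, 1 ≤ x) {s : List ℕ → ℕ → ℚ}
    (hs : ∀ u K, ExH u K (s u)) (K : ℕ) : ∃ C : ℝ, ∀ u ∈ U, ∀ n, 1 ≤ n →
      |Vi u n - ∑ k ∈ Finset.range K, (s u k : ℝ) * Z (n + k)| ≤ C * Z (n + K) := by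
  classical
  have hch : ∀ u : List ℕ, ∃ C : ℝ, u ∈ U → ∀ n, 1 ≤ n →
      |Vi u n - ∑ k ∈ Finset.range K, (s u k : ℝ) * Z (n + k)| ≤ C * Z (n + K) := by
    intro u
    by_cases hu : u ∈ U
    · obtain ⟨C, -, h⟩ := expan_b (hU u hu) (hs u (K + 1))
      exact ⟨C, fun _ => h⟩
    · exact ⟨0, fun h => absurd h hu⟩
  choose C hC using hch
  refine ⟨∑ u ∈ U, |C u|, fun u hu n hn => ?_⟩
  refine (hC u hu n hn).trans (mul_le_mul_of_nonneg_right ((le_abs_self _).trans ?_) (Z_nonneg _))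
  exact Finset.single_le_sum (f := fun u => |C u|) (fun _ _ => abs_nonneg _) hu

theorem expan_words (U : Finset (List ℕ)) (hU : ∀ u ∈ U, ∀ x ∈ u, 1 ≤ x) : ∃ (t : List ℕ → ℕ → ℝ) (I : ℕ),
    ExpanR U Vi t ∧ Expan U Vi I := by
  classical
  obtain ⟨s, hs1, hs2⟩ := coeffs
  obtain ⟨I, hI⟩ := fin_stab U s (by
    intro c hc u hu
    have h1 := indep_coeffs U hU hs1 (fun u => (c u : ℝ)) (by
      intro k
      have h2 : ((∑ u ∈ U, c u * s u k : ℚ) : ℝ) = 0 := by rw [hc k, Rat.cast_zero]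
      rw [← h2]
      push_cast
      rfl) u hu
    exact_mod_cast h1)
  refine ⟨fun u k => (s u k : ℝ), I, ⟨fun K => expan_unif U hU hs2 K, fun c hc => indep_coeffs U hU hs1 c hc⟩,
    fun K _ => ?_⟩
  obtain ⟨C, hC⟩ := expan_unif U hU hs2 K
  exact ⟨s, C, hC, hI⟩

/-- **One-ended families with arbitrary letters** -/
theorem words_mixed (U : Finset (List ℕ)) (hU : ∀ u ∈ U, ∀ x ∈ u, 1 ≤ x)
    (J : Finset ℝ) (hJ : ∀ α ∈ J, 0 < α) (p : ℝ → List ℕ → ℝ[X])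
    (hp : ∀ α ∈ J, (∀ u ∈ U, (p α u).natDegree ≤ 1) ∨ (∀ u ∈ U, ∀ k, IsAlgebraic ℚ ((p α u).coeff k)))
    (α₀ : ℝ) (hα₀ : α₀ ∈ J) (hne : ∃ u ∈ U, p α₀ u ≠ 0) : ∃ B : ℕ, ∀ᶠ n : ℕ in atTop, α₀ ^ n * Z n ≤
      (n : ℝ) ^ B * |∑ α ∈ J, ∑ u ∈ U, α ^ n * (p α u).eval (n : ℝ) * val (w2 n ++ u)| := by
  obtain ⟨t, I, ht, hI⟩ := expan_words U hU
  exact mixed U Vi t ht I hI J hJ p
    (fun α hα => (hp α hα).imp id fun h u hu => alg_of (h u hu)) α₀ hα₀ hne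

end Pool.Agent.L7h24.OE
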