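import Mathlib
import Pool.Agent.L7h24.TS.Fin

/-!
# Integer coefficients up to `κ n²`
-/

set_option autoImplicit false

namespace Pool.Agent.L7h24.TS

open Filter Topology
open Pool.Agent.H447R2.MZ (H H_nil H_cons H_cons_zero H_cons_succ H_nonneg Adm val tendsto_H H_le_val)
open Pool.Agent.L7h24.CS (w2 w2_ge Vt Z Z_nonneg Z_pos Z_rel dp_eval Expan den_bound Z_add_le)

/-- the decrease of the values `ζ(2, ..., 2)` -/
lemma Z_dec (n : ℕ) : (n : ℝ) ^ 2 * Z (n + 1) ≤ 3 * Z n := by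
  have h1 := Z_rel (K := 1) (i := 0) (by omega) n
  rw [add_zero, mul_zero, pow_zero, one_mul, mul_one, dp_eval] at h1
  simp only [mul_one, mul_zero, Nat.sub_zero, Finset.prod_range_succ, Finset.prod_range_zero, one_mul, add_zero] at h1
  have h2 : 4 * (n : ℝ) ^ 2 ≤ ((2 * n + 2 : ℕ) : ℝ) * ((2 * n + 2 + 1 : ℕ) : ℝ) := by
    push_cast
    have : (0 : ℝ) ≤ n := Nat.cast_nonneg n
    nlinarith
  have hpi : Real.pi ^ 2 ≤ 12 := by
    have := Real.pi_lt_d2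
    have := Real.pi_pos
    nlinarith
  have hZ := Z_pos (n + 1)
  have hZn := Z_pos n
  nlinarith [mul_le_mul_of_nonneg_left h2 hZ.le, mul_le_mul_of_nonneg_left hpi hZn.le]

theorem heights {ι : Type*} (U : Finset ι) (V : ι → ℕ → ℝ) (I : ℕ) (hV : Expan U V I) :
    ∃ κ : ℝ, 0 < κ ∧ ∃ M : ℕ, ∀ n : ℕ, 1 ≤ n → ∀ c : ι → ℤ, (∀ u ∈ U, |(c u : ℝ)| ≤ κ * (n : ℝ) ^ 2) →
      (∃ u ∈ U, c u ≠ 0) → κ * Z (n + M) ≤ |∑ u ∈ U, (c u : ℝ) * V u n| := by
  classical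
  obtain ⟨t, C, h1, h2⟩ := hV I le_rfl
  obtain ⟨D, hD1, hD⟩ := den_bound U (Finset.range I) t
  have hD0 : (0 : ℝ) < D := by
    have : 0 < D := by omega
    exact_mod_cast this
  -- a bound of all coefficients
  set G : ℝ := ∑ u ∈ U, ((∑ i ∈ Finset.range I, |(t u i : ℝ)|) + |C|) with hG
  have hG0 : 0 ≤ G := Finset.sum_nonneg fun u _ =>
    add_nonneg (Finset.sum_nonneg fun _ _ => abs_nonneg _) (abs_nonneg _)
  set κ : ℝ := 1 / (2 * D * (3 * 2 ^ I * G + 1) * 2 ^ I) with hκ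
  have h2I : (1 : ℝ) ≤ 2 ^ I := one_le_pow₀ (by norm_num)
  have hden : 0 < 2 * D * (3 * 2 ^ I * G + 1) * 2 ^ I := by positivity
  have hκ0 : 0 < κ := by positivity
  refine ⟨κ, hκ0, I, fun n hn c hc hne => ?_⟩
  -- the first nonzero coefficient
  have hex : ∃ k, k < I ∧ ∑ u ∈ U, (c u : ℚ) * t u k ≠ 0 := by
    by_contra hcon
    push Not at hcon
    obtain ⟨u, hu, hcu⟩ := hne
    exact hcu (by exact_mod_cast h2 (fun u => (c u : ℚ)) (fun i hi => hcon i hi) u hu)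
  obtain ⟨hkI, hkne⟩ := Nat.find_spec hex
  set k := Nat.find hex with hk
  have hmin : ∀ j < k, ∑ u ∈ U, (c u : ℝ) * (t u j : ℝ) = 0 := by
    intro j hj
    have h3 := Nat.find_min hex (hk ▸ hj)
    push Not at h3
    have h4 := h3 (by omega)
    have h5 : ((∑ u ∈ U, (c u : ℚ) * t u j : ℚ) : ℝ) = 0 := by rw [h4, Rat.cast_zero]
    push_cast at h5
    exact h5
  have hlow : 1 / (D : ℝ) ≤ |∑ u ∈ U, (c u : ℝ) * (t u k : ℝ)| := by
    have h3 := hD c k (Finset.mem_range.2 hkI) hkne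
    have h4 : ((1 / (D : ℚ) : ℚ) : ℝ) ≤ ((|∑ u ∈ U, (c u : ℚ) * t u k| : ℚ) : ℝ) := by exact_mod_cast h3
    push_cast at h4
    exact h4
  -- the remaining terms
  have hZ1 : ∀ i, k < i → i ≤ I → Z (n + i) ≤ 2 ^ I * Z (n + (k + 1)) := by
    intro i hi hiI
    obtain ⟨l, rfl⟩ := Nat.exists_eq_add_of_le (Nat.succ_le_of_lt hi)
    rw [Nat.succ_eq_add_one, ← add_assoc n]
    refine (Z_add_le _ _).trans (mul_le_mul_of_nonneg_right ?_ (Z_nonneg _))
    exact pow_le_pow_right₀ (by norm_num) (by omega)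
  have hrest : |∑ u ∈ U, (c u : ℝ) * V u n - (∑ u ∈ U, (c u : ℝ) * (t u k : ℝ)) * Z (n + k)| ≤
      κ * (n : ℝ) ^ 2 * (G * (2 ^ I * Z (n + (k + 1)))) := by
    have e : ∑ u ∈ U, (c u : ℝ) * V u n - (∑ u ∈ U, (c u : ℝ) * (t u k : ℝ)) * Z (n + k) =
        ∑ u ∈ U, (c u : ℝ) * ((∑ i ∈ Finset.Ico (k + 1) I, (t u i : ℝ) * Z (n + i)) +
          (V u n - ∑ i ∈ Finset.range I, (t u i : ℝ) * Z (n + i))) := by
      have e1 : ∀ u, ∑ i ∈ Finset.range I, (t u i : ℝ) * Z (n + i) = ∑ i ∈ Finset.range k, (t u i : ℝ) * Z (n + i) +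
          (t u k : ℝ) * Z (n + k) + ∑ i ∈ Finset.Ico (k + 1) I, (t u i : ℝ) * Z (n + i) := by
        intro u
        rw [← Finset.sum_range_succ, Finset.sum_range_add_sum_Ico _ (by omega)]
      have e2 : ∑ u ∈ U, (c u : ℝ) * ∑ i ∈ Finset.range k, (t u i : ℝ) * Z (n + i) = 0 := by
        simp only [Finset.mul_sum]
        rw [Finset.sum_comm]
        refine Finset.sum_eq_zero fun i hi => ?_
        have := hmin i (Finset.mem_range.1 hi)
        calc _ = (∑ u ∈ U, (c u : ℝ) * (t u i : ℝ)) * Z (n + i) := by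
              rw [Finset.sum_mul]
              exact Finset.sum_congr rfl fun u _ => by ring
          _ = 0 := by rw [this, zero_mul]
      rw [Finset.sum_mul, ← Finset.sum_sub_distrib, ← sub_eq_zero, ← Finset.sum_sub_distrib]
      rw [← e2]
      refine Finset.sum_congr rfl fun u _ => ?_
      rw [e1 u]
      ring
    rw [e]
    refine (Finset.abs_sum_le_sum_abs _ _).trans ?_
    rw [hG, Finset.sum_mul, Finset.mul_sum]
    refine Finset.sum_le_sum fun u hu => ?_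
    rw [abs_mul]
    refine mul_le_mul (hc u hu) ?_ (abs_nonneg _) (by positivity)
    refine (abs_add_le _ _).trans ?_
    rw [add_mul]
    refine add_le_add ?_ ?_
    · refine (Finset.abs_sum_le_sum_abs _ _).trans ?_
      rw [Finset.sum_mul]
      refine (Finset.sum_le_sum_of_subset_of_nonneg (s := Finset.Ico (k + 1) I) (t := Finset.range I)
        (f := fun i => |(t u i : ℝ)| * (2 ^ I * Z (n + (k + 1)))) (fun i hi =>
          Finset.mem_range.2 (Finset.mem_Ico.1 hi).2) (fun i _ _ => by have := Z_nonneg (n + (k + 1)); positivity)).trans'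
        (Finset.sum_le_sum fun i hi => ?_)
      rw [abs_mul, abs_of_nonneg (Z_nonneg _)]
      have := Finset.mem_Ico.1 hi
      exact mul_le_mul_of_nonneg_left (hZ1 i (by omega) (by omega)) (abs_nonneg _)
    · refine (h1 u hu n hn).trans ?_
      exact mul_le_mul (le_abs_self _) (hZ1 I hkI le_rfl) (Z_nonneg _) (abs_nonneg _)
  have hZk := Z_pos (n + k)
  have hn0 : (0 : ℝ) ≤ (n : ℝ) ^ 2 := by positivity
  have hdec : (n : ℝ) ^ 2 * Z (n + (k + 1)) ≤ 3 * Z (n + k) := by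
    have h3 := Z_dec (n + k)
    have h4 : (n : ℝ) ^ 2 ≤ ((n + k : ℕ) : ℝ) ^ 2 := by
      apply pow_le_pow_left₀ (Nat.cast_nonneg n)
      exact_mod_cast Nat.le_add_right n k
    rw [← add_assoc]
    exact (mul_le_mul_of_nonneg_right h4 (Z_nonneg _)).trans h3
  have hrest2 : κ * (n : ℝ) ^ 2 * (G * (2 ^ I * Z (n + (k + 1)))) ≤ 1 / (2 * D) * Z (n + k) := by
    calc κ * (n : ℝ) ^ 2 * (G * (2 ^ I * Z (n + (k + 1)))) =
        κ * G * 2 ^ I * ((n : ℝ) ^ 2 * Z (n + (k + 1))) := by ring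
      _ ≤ κ * G * 2 ^ I * (3 * Z (n + k)) := mul_le_mul_of_nonneg_left hdec (by positivity)
      _ = κ * (3 * 2 ^ I * G) * Z (n + k) := by ring
      _ ≤ 1 / (2 * D) * Z (n + k) := by
        refine mul_le_mul_of_nonneg_right ?_ hZk.le
        rw [hκ, div_mul_eq_mul_div, one_mul, div_le_div_iff₀ hden (by positivity)]
        have h3 : 3 * 2 ^ I * G ≤ (3 * 2 ^ I * G + 1) * 2 ^ I := by
          have : 0 ≤ 3 * 2 ^ I * G := by positivity
          nlinarith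
        calc 3 * 2 ^ I * G * (2 * D) ≤ (3 * 2 ^ I * G + 1) * 2 ^ I * (2 * D) :=
              mul_le_mul_of_nonneg_right h3 (by positivity)
          _ = _ := by ring
  have h5 : 1 / (D : ℝ) * Z (n + k) ≤ |(∑ u ∈ U, (c u : ℝ) * (t u k : ℝ)) * Z (n + k)| := by
    rw [abs_mul, abs_of_pos hZk]
    exact mul_le_mul_of_nonneg_right hlow hZk.le
  have h6 := abs_sub_abs_le_abs_sub ((∑ u ∈ U, (c u : ℝ) * (t u k : ℝ)) * Z (n + k)) (∑ u ∈ U, (c u : ℝ) * V u n)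
  rw [abs_sub_comm] at h6
  have h7 : 1 / (2 * (D : ℝ)) * Z (n + k) ≤ |∑ u ∈ U, (c u : ℝ) * V u n| := by
    have h8 : 1 / (D : ℝ) * Z (n + k) = 1 / (2 * (D : ℝ)) * Z (n + k) + 1 / (2 * (D : ℝ)) * Z (n + k) := by
      field_simp
      ring
    linarith
  refine le_trans ?_ h7
  have h8 : Z (n + I) ≤ 2 ^ I * Z (n + k) := by
    obtain ⟨l, hl⟩ := Nat.exists_eq_add_of_le hkI.le
    rw [hl, ← add_assoc]
    refine (Z_add_le _ _).trans (mul_le_mul_of_nonneg_right ?_ (Z_nonneg _))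
    exact pow_le_pow_right₀ (by norm_num) (by omega)
  calc κ * Z (n + I) ≤ κ * (2 ^ I * Z (n + k)) := mul_le_mul_of_nonneg_left h8 hκ0.le
    _ = κ * 2 ^ I * Z (n + k) := by ring
    _ ≤ 1 / (2 * D) * Z (n + k) := by
      refine mul_le_mul_of_nonneg_right ?_ hZk.le
      rw [hκ, div_mul_eq_mul_div, one_mul, div_le_div_iff₀ hden (by positivity)]
      have h3 : 1 ≤ 3 * 2 ^ I * G + 1 := by
        have : 0 ≤ 3 * 2 ^ I * G := by positivity
        linarith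
      calc 2 ^ I * (2 * D) = 1 * (2 ^ I * (2 * (D : ℝ))) := by ring
        _ ≤ (3 * 2 ^ I * G + 1) * (2 ^ I * (2 * D)) := mul_le_mul_of_nonneg_right h3 (by positivity)
        _ = _ := by ring

theorem two_ended_heights (U : Finset (List ℕ × List ℕ)) (hU : ∀ u ∈ U, (∀ x ∈ u.1, 2 ≤ x) ∧ ∀ x ∈ u.2, 2 ≤ x)
    (hinj : ∀ u ∈ U, ∀ v ∈ U, (∀ n, u.1 ++ w2 n ++ u.2 = v.1 ++ w2 n ++ v.2) → u = v) :
    ∃ κ : ℝ, 0 < κ ∧ ∃ M : ℕ, ∀ n : ℕ, 1 ≤ n → ∀ c : List ℕ × List ℕ → ℤ, (∀ u ∈ U, |(c u : ℝ)| ≤ κ * (n : ℝ) ^ 2) →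
      (∃ u ∈ U, c u ≠ 0) → κ * Z (n + M) ≤ |∑ u ∈ U, (c u : ℝ) * val (u.1 ++ w2 n ++ u.2)| := by
  obtain ⟨I, hI⟩ := expan_pairs U hU hinj
  exact heights U (fun u => Vt u.1 u.2) I hI

end Pool.Agent.L7h24.TS
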